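import Pool.Agent.HDL.M_GAD

/-!
# The number of edges does not depend on the number of isolated vertices
-/

set_option linter.unusedSectionVars false

namespace Pool.Agent.HDL

/-- GAD with a number of edges that depends on the frame only -/
def S_GAD2 : Prop :=
  ∀ (K E : Type) (Fr : Frame K E), ∃ D0 ≤ Fr.Bd, ∀ n : ℕ, 3 * Fr.Γ ≤ n →
    ∃ (d : Fin n → ℕ) (L : Lay (∑ v, d v) (Option (Fin n)) K E (Option (ℕ × ℕ)))
      (Gr : Dat K E → SimpleGraph (Fin n)),
      L.len = Fr.len ∧ L.b0 = Fr.b0 ∧ ∑ v, d v = D0 ∧ (∀ F, HasDegrees (Gr F) d) ∧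
      (∀ F, L.cont F = tape d (Gr F)) ∧
      (∀ F, (Gr F).CliqueFree 3 ↔ ∀ κ e, (F κ).1 e = true → (F κ).2 e = false)

theorem m_GAD2 : S_GAD2 := by
  intro K E Fr
  refine ⟨∑ u ∈ Finset.range (3 * Fr.Γ), (GAD_gl Fr u).length, ?_, ?_⟩
  · have h := GAD_sum_le Fr (3 * Fr.Γ)
    rwa [Finset.sum_range]
  · intro n hn
    refine ⟨fun v => (GAD_gl Fr (v : ℕ)).length, GAD_Lay Fr hn, GAD_G Fr n, rfl, rfl,
      ?_, fun F => GAD_deg Fr hn F, fun F => rfl, fun F => GAD_tri Fr hn F⟩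
    rw [← Finset.sum_range (fun u => (GAD_gl Fr u).length)]
    symm
    apply Finset.sum_subset
    · exact Finset.range_subset_range.2 hn
    · intro u _ hu
      rw [Finset.mem_range, not_lt] at hu
      rw [GAD_gl_nil Fr hu]
      rfl

end Pool.Agent.HDL
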