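import Mathlib

/-!
# Randomised machines with several heads on the adjacency lists

A graph on `Fin n` is written on a read-only tape: the adjacency lists of the vertices
`0, 1, ..., n - 1`, one after the other, each in increasing order; every cell holds the name of one
vertex, and every edge is written twice. A machine has `k` heads on this tape, a memory with states
in `Q` and a random seed `ω : Ω`. A step in which the heads move by at most `D` cells costs `f D`.
-/

open MeasureTheory

namespace Pool.Agent.HDL

/-- Configurations of a machine with `k` heads on a tape with `L` cells: a memory state and the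
positions of the heads. -/
abbrev Conf (L k : ℕ) (Q : Type) : Type := Q × (Fin k → Fin L)

/-- A randomised, nonuniform machine with `k` read-only heads on a tape with `L` cells and symbols
in `W`, with memory states `Q` and random seeds `Ω`. -/
structure Machine (L k : ℕ) (W Q Ω : Type) where
  /-- initial configuration -/
  start : Ω → Conf L k Q
  /-- `step ω t c b` is the next configuration when at time `t` the machine is in configuration `c`
  and scans the symbols `b` (arbitrary function; the heads may go to arbitrary cells) -/
  step : Ω → ℕ → Conf L k Q → (Fin k → W) → Conf L k Q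
  /-- `answer c = some b`: in configuration `c` the machine stops with the answer `b`
  (`true`: there is a triangle) -/
  answer : Conf L k Q → Option Bool

/-- The configuration after `t` steps on the given tape with seed `ω`; a machine that has answered
does not move any more. -/
def Machine.run {L k : ℕ} {W Q Ω : Type} (M : Machine L k W Q Ω) (ω : Ω) (tape : Fin L → W) :
    ℕ → Conf L k Q
  | 0 => M.start ω
  | t + 1 =>
    if (M.answer (M.run ω tape t)).isSome then M.run ω tape t
    else M.step ω t (M.run ω tape t) (fun h => tape ((M.run ω tape t).2 h))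

/-- The largest distance (number of cells) by which a head moves from `c` to `c'`, and at least
`1`. -/
def travel {L k : ℕ} {Q : Type} (c c' : Conf L k Q) : ℕ :=
  max 1 (Finset.univ.sup fun h => max ((c.2 h : ℕ) - c'.2 h) ((c'.2 h : ℕ) - c.2 h))

/-- The cost of step `t` when moving the heads by at most `D` cells costs `f D`: nothing if the
machine has answered before. -/
noncomputable def Machine.cost {L k : ℕ} {W Q Ω : Type} (M : Machine L k W Q Ω) (f : ℕ → ℝ) (ω : Ω)
    (tape : Fin L → W) (t : ℕ) : ℝ :=
  if (M.answer (M.run ω tape t)).isSome then 0
  else f (travel (M.run ω tape t) (M.run ω tape (t + 1)))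

/-- `f` is a seek cost: `f 1 = 1`, `f` is nondecreasing and `f D / D` is nonincreasing. Examples:
`f D = D ^ α` with `0 ≤ α ≤ 1`, and `f D = min D A` with `A ≥ 1`. -/
def SeekCost (f : ℕ → ℝ) : Prop :=
  f 1 = 1 ∧ Monotone f ∧ ∀ D D' : ℕ, 1 ≤ D → D ≤ D' → D * f D' ≤ D' * f D

/-- The adjacency lists of `G`, one after the other: for `v = 0, 1, ..., n - 1` the names of the
neighbours of `v` in increasing order. -/
noncomputable def lists {n : ℕ} (G : SimpleGraph (Fin n)) : List (Fin n) := by
  classical exact (List.finRange n).flatMap fun v => (G.neighborFinset v).sort (· ≤ ·)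

/-- The graph `G` has the degrees `d`. -/
def HasDegrees {n : ℕ} (G : SimpleGraph (Fin n)) (d : Fin n → ℕ) : Prop :=
  ∀ v, (G.neighborSet v).ncard = d v

/-- The tape of `G`: cell `p` holds entry `p` of the adjacency lists. (For a graph with degrees `d`
the lists have `∑ v, d v` entries together, so no cell is empty.) -/
noncomputable def tape {n : ℕ} (d : Fin n → ℕ) (G : SimpleGraph (Fin n)) :
    Fin (∑ v, d v) → Option (Fin n) :=
  fun p => (lists G)[(p : ℕ)]?

/-- A machine for graphs with degrees `d`. -/
abbrev LMachine {n : ℕ} (d : Fin n → ℕ) (k : ℕ) (Q Ω : Type) : Type :=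
  Machine (∑ v, d v) k (Option (Fin n)) Q Ω

/-- `M` detects triangles in graphs with degrees `d` with error probability at most `1 / 3` on every
such graph, the seed being distributed according to `μ`. (First clause: the configuration at every
time is a random variable.) -/
def DetectsTriangles {n : ℕ} {d : Fin n → ℕ} {k : ℕ} {Q Ω : Type} [MeasurableSpace Ω]
    (M : LMachine d k Q Ω) (μ : Measure Ω) : Prop :=
  (∀ G : SimpleGraph (Fin n), HasDegrees G d → ∀ (t : ℕ) (c : Conf (∑ v, d v) k Q),
    MeasurableSet {ω | M.run ω (tape d G) t = c}) ∧
    ∀ G : SimpleGraph (Fin n), HasDegrees G d → 2 / 3 ≤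
      μ.real {ω | ∃ t b, M.answer (M.run ω (tape d G) t) = some b ∧ (b = true ↔ ¬ G.CliqueFree 3)}

/-- The expected cost of `M` is at most `T` on every graph with degrees `d`: the expected cost of the
steps before time `m` is at most `T` for every `m`. -/
def ExpectedCostLE {n : ℕ} {d : Fin n → ℕ} {k : ℕ} {Q Ω : Type} [MeasurableSpace Ω]
    (M : LMachine d k Q Ω) (μ : Measure Ω) (f : ℕ → ℝ) (T : ℝ) : Prop :=
  ∀ G : SimpleGraph (Fin n), HasDegrees G d → ∀ m : ℕ,
    ∑ t ∈ Finset.range m, ∫ ω, M.cost f ω (tape d G) t ∂μ ≤ T

end Pool.Agent.HDL
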