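import Mathlib
import Pool.Agent.HDL.Defs

/-!
# Tapes whose cells show one bit each
-/

set_option linter.unusedSectionVars false

namespace Pool.Agent.HDL

open Finset

/-- the data of all cores: two sets of bits for every core -/
abbrev Dat (K E : Type) : Type := K → (E → Bool) × (E → Bool)

/-- A family of tapes with `Lt` cells indexed by data `F : Dat K E`. Cell `p` shows at most the bit
with address `adr p` (`false`: a bit of the first player, `true`: a bit of the second player);
`sc` cuts the tape into intervals, and those that hold data have at least `len` cells. -/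
structure Lay (Lt : ℕ) (W K E C : Type) where
  len : ℕ
  b0 : ℕ
  cont : Dat K E → Fin Lt → W
  adr : Fin Lt → Option (K × E × Bool)
  sc : Fin Lt → C
  hlen : 0 < len
  hb0 : 0 < b0
  congr : ∀ (F F' : Dat K E) (p : Fin Lt),
    (∀ κ e, adr p = some (κ, e, false) → (F κ).1 e = (F' κ).1 e) →
    (∀ κ e, adr p = some (κ, e, true) → (F κ).2 e = (F' κ).2 e) → cont F p = cont F' p
  conv : ∀ p q r : Fin Lt, p ≤ q → q ≤ r → sc p = sc r → sc q = sc p
  big : ∀ p : Fin Lt, adr p ≠ none → ∃ s : Finset (Fin Lt), len ≤ s.card ∧ ∀ q ∈ s, sc q = sc p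
  one : ∀ (p q : Fin Lt) (κ κ' : K) (e e' : E), adr p = some (κ, e, true) →
    adr q = some (κ', e', true) → sc p = sc q → κ = κ'
  few : ∀ (c : C) (κ : K) (s : Finset (Fin Lt)),
    (∀ p ∈ s, sc p = c ∧ ∃ e, adr p = some (κ, e, false)) → s.card ≤ b0

variable {Lt : ℕ} {W K E C : Type} (L : Lay Lt W K E C)

/-- the three test points of a cell -/
def tp (l : ℕ) (c : Fin Lt) (i : Fin 3) : Option (Fin Lt) :=
  if i = 0 then some c
  else if i = 1 then (if h : (c : ℕ) + l < Lt then some ⟨c + l, h⟩ else none)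
  else (if l ≤ (c : ℕ) then some ⟨c - l, by omega⟩ else none)

lemma card_lt_of_subset_Ioo {Lt a b l : ℕ} (s : Finset (Fin Lt)) (hl : 0 < l)
    (h : ∀ q ∈ s, a < (q : ℕ) + 1 ∧ (q : ℕ) + 1 < b) (hab : b ≤ a + l) : s.card < l := by
  have h1 : s.card = (s.image (fun q : Fin Lt => (q : ℕ) + 1)).card := by
    rw [Finset.card_image_of_injective]
    intro q q' hqq
    apply Fin.ext
    simpa using hqq
  have h2 : s.image (fun q : Fin Lt => (q : ℕ) + 1) ⊆ Finset.Ioo a b := by
    intro m hm
    obtain ⟨q, hq, rfl⟩ := Finset.mem_image.1 hm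
    exact Finset.mem_Ioo.2 (h q hq)
  have h3 := Finset.card_le_card h2
  rw [Nat.card_Ioo] at h3
  omega

/-- an interval of `sc` that holds data and comes near the cell `c` contains a test point of `c` -/
lemma Lay.test (p c : Fin Lt) (hp : L.adr p ≠ none) (h1 : (p : ℕ) ≤ c + L.len)
    (h2 : (c : ℕ) ≤ p + L.len) : ∃ i t, tp L.len c i = some t ∧ L.sc t = L.sc p := by
  by_contra hcon
  push Not at hcon
  obtain ⟨s, hs, hsc⟩ := L.big p hp
  have hlen := L.hlen
  have t0 : L.sc c ≠ L.sc p := hcon 0 c (by simp [tp])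
  have t1 : ∀ h : (c : ℕ) + L.len < Lt, L.sc ⟨c + L.len, h⟩ ≠ L.sc p := fun h =>
    hcon 1 _ (by simp [tp, h])
  have t2 : ∀ h : L.len ≤ (c : ℕ), L.sc ⟨c - L.len, by omega⟩ ≠ L.sc p := fun h =>
    hcon 2 _ (by simp [tp, h])
  -- if `sc` is constant on an interval with end points around `m` then it has the same value at `m`
  have key : ∀ (q m : Fin Lt), L.sc q = L.sc p → (q ≤ m ∧ m ≤ p ∨ p ≤ m ∧ m ≤ q) →
      L.sc m = L.sc p := by
    intro q m hq hm
    rcases hm with ⟨a, b⟩ | ⟨a, b⟩
    · rw [L.conv q m p a b hq, hq]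
    · exact L.conv p m q a b hq.symm
  have hpc : (p : ℕ) ≠ c := fun h => t0 (by rw [Fin.ext h.symm])
  rcases lt_or_gt_of_ne hpc with h3 | h3
  · -- `p` is before `c`
    have hu : ∀ q ∈ s, (q : ℕ) < c := by
      intro q hq
      by_contra h4
      push Not at h4
      exact t0 (key q c (hsc q hq) (Or.inr ⟨h3.le, h4⟩))
    rcases le_or_gt L.len (c : ℕ) with h4 | h4
    · have hl : ∀ q ∈ s, (c : ℕ) - L.len < q := by
        intro q hq
        by_contra h5
        push Not at h5
        refine t2 h4 (key q ⟨c - L.len, by omega⟩ (hsc q hq) (Or.inl ⟨h5, ?_⟩))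
        rw [Fin.le_def]
        simp only
        omega
      have := card_lt_of_subset_Ioo (a := c - L.len + 1) (b := c + 1) s hlen
        (fun q hq => ⟨by have := hl q hq; omega, by have := hu q hq; omega⟩) (by omega)
      omega
    · have := card_lt_of_subset_Ioo (a := 0) (b := c + 1) s hlen
        (fun q hq => ⟨by omega, by have := hu q hq; omega⟩) (by omega)
      omega
  · have hl : ∀ q ∈ s, (c : ℕ) < q := by
      intro q hq
      by_contra h4
      push Not at h4
      exact t0 (key q c (hsc q hq) (Or.inl ⟨h4, h3.le⟩))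
    rcases lt_or_ge ((c : ℕ) + L.len) Lt with h4 | h4
    · have hu : ∀ q ∈ s, (q : ℕ) < c + L.len := by
        intro q hq
        by_contra h5
        push Not at h5
        refine t1 h4 (key q ⟨c + L.len, h4⟩ (hsc q hq) (Or.inr ⟨?_, h5⟩))
        rw [Fin.le_def]
        simp only
        omega
      have := card_lt_of_subset_Ioo (a := c + 1) (b := c + L.len + 1) s hlen
        (fun q hq => ⟨by have := hl q hq; omega, by have := hu q hq; omega⟩) (by omega)
      omega
    · have := card_lt_of_subset_Ioo (a := c + 1) (b := Lt + 1) s hlen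
        (fun q hq => ⟨by have := hl q hq; omega, by have := q.2; omega⟩) (by omega)
      omega

open Classical in
/-- the cells near `c` that show a bit of the first player for the core `κ` -/
noncomputable def Lay.bset (κ : K) (c : Fin Lt) : Finset (Fin Lt) :=
  Finset.univ.filter fun p => ((p : ℕ) ≤ c + L.len ∧ (c : ℕ) ≤ p + L.len) ∧
    ∃ e, L.adr p = some (κ, e, false)

lemma Lay.bset_card (κ : K) (c : Fin Lt) : (L.bset κ c).card ≤ 3 * L.b0 := by
  classical
  have h1 : L.bset κ c ⊆ (Finset.univ : Finset (Fin 3)).biUnion fun i =>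
      (L.bset κ c).filter fun p => ∃ t, tp L.len c i = some t ∧ L.sc t = L.sc p := by
    intro p hp
    have hp' := hp
    obtain ⟨_, ⟨a, b⟩, e, he⟩ := Finset.mem_filter.1 hp
    obtain ⟨i, t, ht, hsc⟩ := L.test p c (by rw [he]; simp) a b
    exact Finset.mem_biUnion.2 ⟨i, Finset.mem_univ _, Finset.mem_filter.2 ⟨hp', t, ht, hsc⟩⟩
  refine (Finset.card_le_card h1).trans (Finset.card_biUnion_le.trans ?_)
  have h2 : ∀ i ∈ (Finset.univ : Finset (Fin 3)),
      ((L.bset κ c).filter fun p => ∃ t, tp L.len c i = some t ∧ L.sc t = L.sc p).card ≤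
        L.b0 := by
    intro i _
    rcases ht : tp L.len c i with _ | t
    · simp
    · apply L.few (L.sc t) κ
      intro p hp
      obtain ⟨hp1, t', ht', hsc⟩ := Finset.mem_filter.1 hp
      obtain ⟨_, _, e, he⟩ := Finset.mem_filter.1 hp1
      have : t = t' := by simpa using ht'
      subst this
      exact ⟨hsc.symm, e, he⟩
  refine (Finset.sum_le_sum h2).trans ?_
  simp

lemma Lay.en_exists (κ : K) (c : Fin Lt) : ∃ f : Fin Lt → Fin (3 * L.b0),
    Set.InjOn f (L.bset κ c) := by
  classical
  have hb := L.hb0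
  have h1 : Fintype.card (L.bset κ c) ≤ Fintype.card (Fin (3 * L.b0)) := by
    rw [Fintype.card_coe, Fintype.card_fin]
    exact L.bset_card κ c
  obtain ⟨g⟩ := Function.Embedding.nonempty_of_card_le h1
  refine ⟨fun p => if h : p ∈ L.bset κ c then g ⟨p, h⟩ else ⟨0, by omega⟩, ?_⟩
  intro p hp q hq hpq
  have hp' : p ∈ L.bset κ c := hp
  have hq' : q ∈ L.bset κ c := hq
  simp only [hp', hq', dif_pos] at hpq
  have := g.injective hpq
  exact congrArg Subtype.val this

/-- numbers of the cells near `c` that show a bit of the first player for the core `κ` -/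
noncomputable def Lay.en (κ : K) (c : Fin Lt) : Fin Lt → Fin (3 * L.b0) :=
  (L.en_exists κ c).choose

lemma Lay.en_inj (κ : K) (c : Fin Lt) : Set.InjOn (L.en κ c) (L.bset κ c) :=
  (L.en_exists κ c).choose_spec

end Pool.Agent.HDL
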