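import Mathlib
import Pool.Agent.HDL.Defs
import Pool.Agent.HDL.Lay

/-!
# Frames and statements of the modules

The hard graphs are made of groups of three vertices `3 γ, 3 γ + 1, 3 γ + 2`, `γ < Γ`. The groups
below `OY` are the groups of the part `X`, those in `[OY, OZ)` of `Y`, those in `[OZ, Γ)` of `Z`.
-/

set_option linter.unusedSectionVars false

namespace Pool.Agent.HDL

/-- member `i` of the group `a` has a neighbour in the group `b` -/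
def hasN (kA kB kC : ℕ → ℕ → Prop) (a i b : ℕ) : Prop :=
  ((kA a b ∨ kA b a) ∧ i ≤ 1) ∨ (kB a b ∧ i ≠ 1) ∨ (kB b a ∧ i ≤ 1) ∨ ((kC a b ∨ kC b a) ∧ i = 0)

/-- Combinatorial frame of a family of graphs. `kA`, `kB`, `kC` say which pairs of groups are linked
(`X`-`Y`, `Y`-`Z`, `X`-`Z`), `tx κ e`, `ty κ e`, `tz κ e` are the groups of the planned triangle
with the number `(κ, e)`. The cells of the tape are the pairs `(u, γ)` of a vertex `u` and a group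
`γ` with `hasN kA kB kC (u / 3) (u % 3) γ`, in lexicographic order; `key` cuts the tape into
intervals. -/
structure Frame (K E : Type) where
  Γ : ℕ
  OY : ℕ
  OZ : ℕ
  kA : ℕ → ℕ → Prop
  kB : ℕ → ℕ → Prop
  kC : ℕ → ℕ → Prop
  tx : K → E → ℕ
  ty : K → E → ℕ
  tz : K → E → ℕ
  key : ℕ → ℕ → ℕ × ℕ
  len : ℕ
  b0 : ℕ
  Bd : ℕ
  hlen : 0 < len
  hb0 : 0 < b0
  hA : ∀ a b, kA a b → a < OY ∧ OY ≤ b ∧ b < OZ
  hB : ∀ a b, kB a b → OY ≤ a ∧ a < OZ ∧ OZ ≤ b ∧ b < Γ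
  hC : ∀ a b, kC a b → a < OY ∧ OZ ≤ b ∧ b < Γ
  hYZ : OY ≤ OZ
  hZ : OZ ≤ Γ
  pA : ∀ κ e, kA (tx κ e) (ty κ e)
  pB : ∀ κ e, kB (ty κ e) (tz κ e)
  pC : ∀ κ e, kC (tx κ e) (tz κ e)
  injA : ∀ κ e κ' e', tx κ e = tx κ' e' → ty κ e = ty κ' e' → κ = κ' ∧ e = e'
  injB : ∀ κ e κ' e', ty κ e = ty κ' e' → tz κ e = tz κ' e' → κ = κ' ∧ e = e'
  tri : ∀ a b c, kA a b → kB b c → kC a c → ∃ κ e, tx κ e = a ∧ ty κ e = b ∧ tz κ e = c
  conv : ∀ u γ u' γ' u'' γ'', (u < u' ∨ (u = u' ∧ γ ≤ γ')) → (u' < u'' ∨ (u' = u'' ∧ γ' ≤ γ'')) →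
    key u γ = key u'' γ'' → key u' γ' = key u γ
  one : ∀ u γ v δ κ e κ' e',
    ((u / 3 = tx κ e ∧ γ = ty κ e) ∨ (u / 3 = ty κ e ∧ γ = tx κ e)) →
    ((v / 3 = tx κ' e' ∧ δ = ty κ' e') ∨ (v / 3 = ty κ' e' ∧ δ = tx κ' e')) →
    key u γ = key v δ → κ = κ'
  few : ∀ (c : ℕ × ℕ) (κ : K) (s : Finset (ℕ × ℕ)), (∀ p ∈ s, key p.1 p.2 = c ∧
    ∃ e, (p.1 / 3 = ty κ e ∧ p.2 = tz κ e) ∨ (p.1 / 3 = tz κ e ∧ p.2 = ty κ e)) → s.card ≤ b0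
  bigXY : ∀ κ e u, u / 3 = tx κ e → u % 3 ≤ 1 → ∃ s : Finset (ℕ × ℕ), len ≤ s.card ∧
    ∀ p ∈ s, hasN kA kB kC (p.1 / 3) (p.1 % 3) p.2 ∧ key p.1 p.2 = key u (ty κ e)
  bigYX : ∀ κ e u, u / 3 = ty κ e → u % 3 ≤ 1 → ∃ s : Finset (ℕ × ℕ), len ≤ s.card ∧
    ∀ p ∈ s, hasN kA kB kC (p.1 / 3) (p.1 % 3) p.2 ∧ key p.1 p.2 = key u (tx κ e)
  bigYZ : ∀ κ e u, u / 3 = ty κ e → u % 3 ≠ 1 → ∃ s : Finset (ℕ × ℕ), len ≤ s.card ∧
    ∀ p ∈ s, hasN kA kB kC (p.1 / 3) (p.1 % 3) p.2 ∧ key p.1 p.2 = key u (tz κ e)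
  bigZY : ∀ κ e u, u / 3 = tz κ e → u % 3 ≤ 1 → ∃ s : Finset (ℕ × ℕ), len ≤ s.card ∧
    ∀ p ∈ s, hasN kA kB kC (p.1 / 3) (p.1 % 3) p.2 ∧ key p.1 p.2 = key u (ty κ e)
  cells : ∀ s : Finset (ℕ × ℕ), (∀ p ∈ s, hasN kA kB kC (p.1 / 3) (p.1 % 3) p.2) → s.card ≤ Bd

/-- BETA: dense frames.

PROOF. Take `D1 ⊆ range R1`, `D2 ⊆ range R2`, `D3 ⊆ range R3` free of three-term progressions with
`Di.card = rothNumberNat Ri` (`rothNumberNat_spec`). Put `K = Fin R1` (an element is `x1`) and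
`E = Fin q2 × Fin R2 × Fin R3 × D1 × D2 × D3` (subtypes `{x // x ∈ Di}`; an element is
`e = (t2, y2, y3, d1, d2, d3)`). Numbers of groups (mixed radix):
* `XG x1 t2 x2 x3 = ((x1 * q2 + t2) * (2 * R2) + x2) * (2 * R3) + x3` for `x1 < R1`, `t2 < q2`,
  `x2 < 2 R2`, `x3 < 2 R3`; `OY = R1 * q2 * (2 * R2) * (2 * R3)`; `mX = q2 * (2 * R2) * (2 * R3)`;
* `YG y2 y1 y3 = OY + (y2 * (4 * R1) + y1) * (3 * R3) + y3` for `y2 < R2`, `y1 < 4 R1`,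
  `y3 < 3 R3`; `OZ = OY + R2 * (4 * R1) * (3 * R3)`; `mY = 4 * R1 * (3 * R3)`;
* `ZG t2 z2 z1 z3 = OZ + ((t2 * (2 * R2) + z2) * (3 * R1) + z1) * (2 * R3) + z3` for `t2 < q2`,
  `z2 < 2 R2`, `z1 < 3 R1`, `z3 < 2 R3`; `Γ = OZ + q2 * (2 * R2) * (3 * R1) * (2 * R3)`;
  `mZ = 3 * R1 * (2 * R3)`.
Planned triangles: `tx = XG x1 t2 (y2 + R2 - d2) (y3 + R3 - d3)`, `ty = YG y2 (x1 + d1 + R1) (y3 + R3)`,
`tz = ZG t2 (y2 + d2) (x1 + 2 d1) (y3 + d3)`.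
Links: `kA a b`: `a = XG x1 t2 x2 x3`, `b = YG y2 y1 y3` (digits in range) with `y1 = x1 + d1 + R1`,
`x2 + d2 = y2 + R2`, `x3 + d3 = y3` for some `di ∈ Di`; `kB b c`: `b = YG y2 y1 y3`,
`c = ZG t2 z2 z1 z3` (digits in range) with `z1 + R1 = y1 + d1`, `z2 = y2 + d2`, `z3 + R3 = y3 + d3`;
`kC a c`: `∃ κ e, tx κ e = a ∧ tz κ e = c`. `tri`: for `kA a b` with `d`, `kB b c` with `e`, `kC a c`
with `(κ, f)` the digits give `d_i + e_i = 2 f_i`, so `d = e = f` (`ThreeAPFree`) and `b = ty κ f`.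
`injA`, `injB`: read off the digits (`d1 = (x1 + 2 d1) - (x1 + d1)`).
`key u γ`, with `a = u / 3`: `(a / mX, 0)` if `a < OY`; `(R1 + u, if γ < OY then γ / mX else
R1 + (γ - OZ) / mZ)` if `OY ≤ a < OZ`; `(R1 + u, if γ < OY then 0 else 1 + (γ - OY) / mY)` if
`OZ ≤ a`. `key` is monotone from the lexicographic order to the lexicographic order (`a / mX < R1`
for `a < OY`), hence `conv`. `one`: `key` of an `X`-`Y` cell contains `x1`: it is `(x1, 0)` in the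
row of `X`, `(R1 + u, x1)` in the row of `Y`.
`few` (with `b0 = 3 * R3`; `R3` would suffice): in a row of `Y` the row `u` and the second entry of
the key fix `y1, y2, y3` and `t2, z2`, so `γ = tz κ e` is determined by `d3 < R3`; in a row of `Z`
the row and the second entry `1 + y2` fix everything except `y3 < R3`.
`cells`: with `a0 = R1 * q2 * R2 * R3`, `ρ = R1 * R2 * R3` there are at most `4 a0 ρ` pairs `kA`
(given by `x1, t2, x2, x3, d1, d2, d3`), `12 a0 ρ` pairs `kB` (`t2, z2, z1, z3, d1, d2, d3`),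
`4 a0 ρ` pairs `kC` (`x1, t2, x2, x3, d1, d2, d3`), and every pair gives at most `4`, `4`, `2`
cells: `72 a0 ρ` together.
`big..` with `len = min (q2 * rothNumberNat R2) (rothNumberNat R1) * rothNumberNat R3`:
* `bigXY`: cells `(3 * XG x1 t2' (y2' + R2 - d2) x3', YG y2' (x1 + d1 + R1) (x3' + d3))`, `t2' < q2`,
  `y2' < R2`, `x3' < 2 R3` (key `(x1, 0)`), at least `q2 * R2 * (2 * R3)` cells;
* `bigYX`: `(u, XG x1 t2' (y2 + R2 - d2') (y3 + R3 - d3'))`, `t2' < q2`, `di' ∈ Di`;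
* `bigYZ`: `(u, ZG t2 (y2 + d2) (x1 + d1 + d1') (y3 + d3'))`, `d1' ∈ D1`, `d3' ∈ D3`;
* `bigZY`: `(u, YG y2 (x1 + 2 d1 + R1 - d1') (y3 + d3 + R3 - d3'))`, `d1' ∈ D1`, `d3' ∈ D3`. -/
def S_BETA : Prop :=
  ∀ R1 q2 R2 R3 : ℕ, 0 < R1 → 0 < q2 → 0 < R2 → 0 < R3 →
    ∃ (K E : Type) (_ : Fintype K) (_ : DecidableEq K) (_ : Fintype E) (_ : DecidableEq E)
      (Fr : Frame K E),
      Fr.Γ ≤ 28 * (R1 * (q2 * R2) * R3) ∧
      Fr.Bd ≤ 72 * (R1 * (q2 * R2) * R3) * (R1 * R2 * R3) ∧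
      Fr.len = min (q2 * rothNumberNat R2) (rothNumberNat R1) * rothNumberNat R3 ∧
      Fr.b0 = 3 * R3 ∧ Fintype.card K = R1 ∧
      Fintype.card E = q2 * R2 * R3 * (rothNumberNat R1 * rothNumberNat R2 * rothNumberNat R3)

/-- ALPHA: sparse frames.

PROOF. Take `D1 ⊆ range R1`, `D3 ⊆ range R3` free of three-term progressions with
`Di.card = rothNumberNat Ri`. Put `K = Fin q1 × Fin R1` (an element is `(t1, x1)`) and
`E = Fin q2 × Fin q3 × Fin R3 × D1 × D3` (an element is `e = (t2, t3, y3, d1, d3)`). Numbers of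
groups (mixed radix):
* `XG t1 x1 t2 t3 x3 = (((t1 * R1 + x1) * q2 + t2) * q3 + t3) * (2 * R3) + x3` for `t1 < q1`,
  `x1 < R1`, `t2 < q2`, `t3 < q3`, `x3 < 2 R3`; `OY = q1 * R1 * q2 * q3 * (2 * R3)`;
  `mX = q2 * q3 * (2 * R3)`;
* `YG y1 y3 = OY + y1 * (3 * R3) + y3` for `y1 < 4 R1`, `y3 < 3 R3`; `OZ = OY + 4 * R1 * (3 * R3)`;
* `ZG t2 z1 z3 t1 t3 = OZ + (((t2 * (3 * R1) + z1) * (2 * R3) + z3) * q1 + t1) * q3 + t3` for
  `t2 < q2`, `z1 < 3 R1`, `z3 < 2 R3`, `t1 < q1`, `t3 < q3`;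
  `Γ = OZ + q2 * (3 * R1) * (2 * R3) * q1 * q3`; `mZ = q1 * q3`, `mW = 3 * R1 * (2 * R3) * q1 * q3`.
Planned triangles: `tx = XG t1 x1 t2 t3 (y3 + R3 - d3)`, `ty = YG (x1 + d1 + R1) (y3 + R3)`,
`tz = ZG t2 (x1 + 2 d1) (y3 + d3) t1 t3`.
Links: `kA a b`: `a = XG t1 x1 t2 t3 x3`, `b = YG y1 y3` (digits in range) with `y1 = x1 + d1 + R1`,
`x3 + d3 = y3` for some `d1 ∈ D1`, `d3 ∈ D3`; `kB b c`: `b = YG y1 y3`, `c = ZG t2 z1 z3 t1 t3`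
(digits in range) with `z1 + R1 = y1 + d1`, `z3 + R3 = y3 + d3`; `kC a c`: `∃ κ e, tx κ e = a ∧
tz κ e = c`. `tri`: for `kA a b` with `d`, `kB b c` with `e`, `kC a c` with `(κ, f)` the digits give
`d1 + e1 = 2 f1`, `d3 + e3 = 2 f3`, so `d = e = f` (`ThreeAPFree`) and `b = ty κ f`.
`injA`, `injB`: read off the digits (`d1 = (x1 + 2 d1) - (x1 + d1)`).
`key u γ`, with `a = u / 3`: `(a / mX, 0)` if `a < OY` (`a / mX = t1 * R1 + x1 < q1 * R1`);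
`(q1 * R1 + u, if γ < OY then γ / mX else q1 * R1 + (γ - OZ) / mW)` if `OY ≤ a < OZ`;
`(q1 * R1 + 3 * OZ + (a - OZ) / mZ, 0)` if `OZ ≤ a`. `key` is monotone from the lexicographic order
to the lexicographic order, hence `conv`. `one`: `key` of an `X`-`Y` cell contains `t1 * R1 + x1`.
`few` with `b0 = 3 * (q3 * R3)`: in a row of `Y` the row `u` fixes `y1, y3` (hence `d1`), the second
entry of the key is `q1 * R1 + t2`, so `γ = tz κ e` is determined by `d3 < R3` and `t3 < q3`; in the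
rows of `Z` the key fixes `t2, z1, z3` (hence `d1`), and the cell `(u, γ)` is determined by the member
`u % 3`, `t3 < q3` and `y3 < R3`.
`cells`: with `a0 = q1 * R1 * q2 * (q3 * R3)`, `ρ = R1 * R3` there are at most `2 a0 ρ` pairs `kA`
(given by `t1, x1, t2, t3, x3, d1, d3`), `6 a0 ρ` pairs `kB` (`t2, z1, z3, t1, t3, d1, d3`),
`2 a0 ρ` pairs `kC` (`t1, x1, t2, t3, x3, d1, d3`), and every pair gives at most `4`, `4`, `2`
cells: `36 a0 ρ` together.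
`big..` with `len = min q2 (q1 * rothNumberNat R1) * (q3 * rothNumberNat R3)`:
* `bigXY`: cells `(3 * XG t1 x1 t2' t3' x3', YG (x1 + d1 + R1) (x3' + d3))`, `t2' < q2`, `t3' < q3`,
  `x3' < 2 R3` (key `(t1 * R1 + x1, 0)`);
* `bigYX`: `(u, XG t1 x1 t2' t3' (y3 + R3 - d3'))`, `t2' < q2`, `t3' < q3`, `d3' ∈ D3`;
* `bigYZ`: `(u, ZG t2 (x1 + d1 + d1') (y3 + d3') t1' t3')`, `di' ∈ Di`, `t1' < q1`, `t3' < q3`;
* `bigZY`: `(3 * ZG t2 (x1 + 2 d1) (y3 + d3) t1' t3', YG (x1 + 2 d1 + R1 - d1') (y3 + d3 + R3 - d3'))`,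
  `t1' < q1`, `t3' < q3`, `di' ∈ Di`. -/
def S_ALPHA : Prop :=
  ∀ q1 R1 q2 q3 R3 : ℕ, 0 < q1 → 0 < R1 → 0 < q2 → 0 < q3 → 0 < R3 →
    ∃ (K E : Type) (_ : Fintype K) (_ : DecidableEq K) (_ : Fintype E) (_ : DecidableEq E)
      (Fr : Frame K E),
      Fr.Γ ≤ 28 * (q1 * R1 * q2 * (q3 * R3)) ∧
      Fr.Bd ≤ 72 * (q1 * R1 * q2 * (q3 * R3)) * (R1 * R3) ∧
      Fr.len = min q2 (q1 * rothNumberNat R1) * (q3 * rothNumberNat R3) ∧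
      Fr.b0 = 3 * (q3 * R3) ∧ Fintype.card K = q1 * R1 ∧
      Fintype.card E = q2 * (q3 * R3) * (rothNumberNat R1 * rothNumberNat R3)

/-- GAD: from a frame to graphs with fixed degrees whose adjacency lists form a layout. (As before;
only `sc p = (L0[p]?).map (fun c => Fr.key c.1 c.2)` and the bound `D0 ≤ Fr.Bd` are new: `D0` is the
number of the cells `(u, γ)` with `hasN .. (u / 3) (u % 3) γ`, all of which have `u < 3 Γ`.) -/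
def S_GAD : Prop :=
  ∀ (K E : Type) (Fr : Frame K E), ∀ n : ℕ, 3 * Fr.Γ ≤ n →
    ∃ (d : Fin n → ℕ) (L : Lay (∑ v, d v) (Option (Fin n)) K E (Option (ℕ × ℕ)))
      (Gr : Dat K E → SimpleGraph (Fin n)),
      L.len = Fr.len ∧ L.b0 = Fr.b0 ∧ ∑ v, d v ≤ Fr.Bd ∧ (∀ F, HasDegrees (Gr F) d) ∧
      (∀ F, L.cont F = tape d (Gr F)) ∧
      (∀ F, (Gr F).CliqueFree 3 ↔ ∀ κ e, (F κ).1 e = true → (F κ).2 e = false)

end Pool.Agent.HDL
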