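import Mathlib
import Pool.Agent.HDL.St

/-!
# Module HDL_BETA (helper28): dense frames
-/

set_option autoImplicit false
set_option linter.unusedSectionVars false

namespace Pool.Agent.HDL

open Finset

/-- mixed radix numbers with three digits -/
def BETA_N (p q a b c : ℕ) : ℕ := (a * p + b) * q + c

theorem BETA_dv {q b c : ℕ} (hc : c < q) : (b * q + c) / q = b := by
  rw [Nat.add_comm, Nat.add_mul_div_right _ _ (by omega), Nat.div_eq_of_lt hc, Nat.zero_add]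

theorem BETA_two {q b c b' c' : ℕ} (hc : c < q) (hc' : c' < q) (h : b * q + c = b' * q + c') :
    b = b' ∧ c = c' := by
  have h1 := BETA_dv (b := b) hc
  have h2 := BETA_dv (b := b') hc'
  have h3 : b = b' := by rw [← h1, h, h2]
  subst h3
  exact ⟨rfl, by omega⟩

theorem BETA_ltwo {q r b c : ℕ} (hb : b < r) (hc : c < q) : b * q + c < r * q := by
  calc b * q + c < b * q + q := by omega
    _ = (b + 1) * q := by ring
    _ ≤ r * q := Nat.mul_le_mul_right _ hb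

theorem BETA_inj {p q a b c a' b' c' : ℕ} (hb : b < p) (hb' : b' < p) (hc : c < q) (hc' : c' < q)
    (h : BETA_N p q a b c = BETA_N p q a' b' c') : a = a' ∧ b = b' ∧ c = c' := by
  obtain ⟨h1, h2⟩ := BETA_two hc hc' h
  obtain ⟨h3, h4⟩ := BETA_two hb hb' h1
  exact ⟨h3, h4, h2⟩

theorem BETA_lt {p q r a b c : ℕ} (ha : a < r) (hb : b < p) (hc : c < q) :
    BETA_N p q a b c < r * (p * q) := by
  rw [← mul_assoc]
  exact BETA_ltwo (BETA_ltwo ha hb) hc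

theorem BETA_div {p q a b c : ℕ} (hb : b < p) (hc : c < q) :
    BETA_N p q a b c / (p * q) = a := by
  rw [mul_comm p q, ← Nat.div_div_eq_div_mul]
  unfold BETA_N
  rw [BETA_dv hc, BETA_dv hb]

section

variable (R1 q2 R2 R3 : ℕ)

/-- the first group of `Y` -/
def BETA_OY : ℕ := R1 * q2 * ((2 * R2) * (2 * R3))

/-- the first group of `Z` -/
def BETA_OZ : ℕ := BETA_OY R1 q2 R2 R3 + R2 * ((4 * R1) * (3 * R3))

/-- the number of groups -/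
def BETA_Γ : ℕ := BETA_OZ R1 q2 R2 R3 + (q2 * (2 * R2)) * ((3 * R1) * (2 * R3))

/-- the groups of `X` -/
def BETA_X (x1 t2 x2 x3 : ℕ) : ℕ := BETA_N (2 * R2) (2 * R3) (x1 * q2 + t2) x2 x3

/-- the groups of `Y` -/
def BETA_Y (y2 y1 y3 : ℕ) : ℕ := BETA_OY R1 q2 R2 R3 + BETA_N (4 * R1) (3 * R3) y2 y1 y3

/-- the groups of `Z` -/
def BETA_Z (t2 z2 z1 z3 : ℕ) : ℕ :=
  BETA_OZ R1 q2 R2 R3 + BETA_N (3 * R1) (2 * R3) (t2 * (2 * R2) + z2) z1 z3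

/-- the first entry of the key -/
def BETA_key1 (u : ℕ) : ℕ :=
  if u / 3 < BETA_OY R1 q2 R2 R3 then u / 3 / (((2 * R2) * (2 * R3)) * q2) else R1 + u

/-- the second entry of the key -/
def BETA_key2 (u γ : ℕ) : ℕ :=
  if u / 3 < BETA_OY R1 q2 R2 R3 then 0
  else if u / 3 < BETA_OZ R1 q2 R2 R3 then
    (if γ < BETA_OY R1 q2 R2 R3 then γ / (((2 * R2) * (2 * R3)) * q2)
      else R1 + (γ - BETA_OZ R1 q2 R2 R3) / ((3 * R1) * (2 * R3)))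
  else (if γ < BETA_OY R1 q2 R2 R3 then 0
    else 1 + (γ - BETA_OY R1 q2 R2 R3) / ((4 * R1) * (3 * R3)))

variable {R1 q2 R2 R3}

theorem BETA_X_lt {x1 t2 x2 x3 : ℕ} (h1 : x1 < R1) (ht : t2 < q2) (h2 : x2 < 2 * R2)
    (h3 : x3 < 2 * R3) : BETA_X q2 R2 R3 x1 t2 x2 x3 < BETA_OY R1 q2 R2 R3 :=
  BETA_lt (BETA_ltwo h1 ht) h2 h3

theorem BETA_Y_ge (y2 y1 y3 : ℕ) : BETA_OY R1 q2 R2 R3 ≤ BETA_Y R1 q2 R2 R3 y2 y1 y3 :=
  Nat.le_add_right _ _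

theorem BETA_Y_lt {y2 y1 y3 : ℕ} (h2 : y2 < R2) (h1 : y1 < 4 * R1) (h3 : y3 < 3 * R3) :
    BETA_Y R1 q2 R2 R3 y2 y1 y3 < BETA_OZ R1 q2 R2 R3 :=
  Nat.add_lt_add_left (BETA_lt h2 h1 h3) _

theorem BETA_Z_ge (t2 z2 z1 z3 : ℕ) : BETA_OZ R1 q2 R2 R3 ≤ BETA_Z R1 q2 R2 R3 t2 z2 z1 z3 :=
  Nat.le_add_right _ _

theorem BETA_Z_lt {t2 z2 z1 z3 : ℕ} (ht : t2 < q2) (h2 : z2 < 2 * R2) (h1 : z1 < 3 * R1)
    (h3 : z3 < 2 * R3) : BETA_Z R1 q2 R2 R3 t2 z2 z1 z3 < BETA_Γ R1 q2 R2 R3 :=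
  Nat.add_lt_add_left (BETA_lt (BETA_ltwo ht h2) h1 h3) _

theorem BETA_YZ : BETA_OY R1 q2 R2 R3 ≤ BETA_OZ R1 q2 R2 R3 := Nat.le_add_right _ _

theorem BETA_X_inj {x1 t2 x2 x3 x1' t2' x2' x3' : ℕ} (ht : t2 < q2) (ht' : t2' < q2)
    (h2 : x2 < 2 * R2) (h2' : x2' < 2 * R2) (h3 : x3 < 2 * R3) (h3' : x3' < 2 * R3)
    (e : BETA_X q2 R2 R3 x1 t2 x2 x3 = BETA_X q2 R2 R3 x1' t2' x2' x3') :
    x1 = x1' ∧ t2 = t2' ∧ x2 = x2' ∧ x3 = x3' := by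
  obtain ⟨h4, h5, h6⟩ := BETA_inj h2 h2' h3 h3' e
  obtain ⟨h7, h8⟩ := BETA_two ht ht' h4
  exact ⟨h7, h8, h5, h6⟩

theorem BETA_Y_inj {y2 y1 y3 y2' y1' y3' : ℕ} (h1 : y1 < 4 * R1) (h1' : y1' < 4 * R1)
    (h3 : y3 < 3 * R3) (h3' : y3' < 3 * R3)
    (e : BETA_Y R1 q2 R2 R3 y2 y1 y3 = BETA_Y R1 q2 R2 R3 y2' y1' y3') :
    y2 = y2' ∧ y1 = y1' ∧ y3 = y3' := BETA_inj h1 h1' h3 h3' (Nat.add_left_cancel e)

theorem BETA_Z_inj {t2 z2 z1 z3 t2' z2' z1' z3' : ℕ} (h2 : z2 < 2 * R2) (h2' : z2' < 2 * R2)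
    (h1 : z1 < 3 * R1) (h1' : z1' < 3 * R1) (h3 : z3 < 2 * R3) (h3' : z3' < 2 * R3)
    (e : BETA_Z R1 q2 R2 R3 t2 z2 z1 z3 = BETA_Z R1 q2 R2 R3 t2' z2' z1' z3') :
    t2 = t2' ∧ z2 = z2' ∧ z1 = z1' ∧ z3 = z3' := by
  obtain ⟨h4, h5, h6⟩ := BETA_inj h1 h1' h3 h3' (Nat.add_left_cancel e)
  obtain ⟨h7, h8⟩ := BETA_two h2 h2' h4
  exact ⟨h7, h8, h5, h6⟩

theorem BETA_X_div {x1 t2 x2 x3 : ℕ} (ht : t2 < q2) (h2 : x2 < 2 * R2)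
    (h3 : x3 < 2 * R3) :
    BETA_X q2 R2 R3 x1 t2 x2 x3 / (((2 * R2) * (2 * R3)) * q2) = x1 := by
  rw [← Nat.div_div_eq_div_mul]
  unfold BETA_X
  rw [BETA_div h2 h3, BETA_dv ht]

theorem BETA_key_X {x1 t2 x2 x3 u : ℕ} (h1 : x1 < R1) (ht : t2 < q2) (h2 : x2 < 2 * R2)
    (h3 : x3 < 2 * R3) (hu : u / 3 = BETA_X q2 R2 R3 x1 t2 x2 x3) (γ : ℕ) :
    BETA_key1 R1 q2 R2 R3 u = x1 ∧ BETA_key2 R1 q2 R2 R3 u γ = 0 := by
  unfold BETA_key1 BETA_key2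
  rw [hu, if_pos (BETA_X_lt h1 ht h2 h3), if_pos (BETA_X_lt h1 ht h2 h3), BETA_X_div ht h2 h3]
  exact ⟨rfl, rfl⟩

theorem BETA_key_1 {u : ℕ} (hu : BETA_OY R1 q2 R2 R3 ≤ u / 3) :
    BETA_key1 R1 q2 R2 R3 u = R1 + u := by
  unfold BETA_key1
  rw [if_neg (not_lt.mpr hu)]

theorem BETA_key_YX {x1 t2 x2 x3 u : ℕ} (h1 : x1 < R1) (ht : t2 < q2) (h2 : x2 < 2 * R2)
    (h3 : x3 < 2 * R3) (hu : BETA_OY R1 q2 R2 R3 ≤ u / 3) (hu' : u / 3 < BETA_OZ R1 q2 R2 R3) :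
    BETA_key2 R1 q2 R2 R3 u (BETA_X q2 R2 R3 x1 t2 x2 x3) = x1 := by
  unfold BETA_key2
  rw [if_neg (not_lt.mpr hu), if_pos hu', if_pos (BETA_X_lt h1 ht h2 h3), BETA_X_div ht h2 h3]

theorem BETA_key_YZ {t2 z2 z1 z3 u : ℕ} (h1 : z1 < 3 * R1) (h3 : z3 < 2 * R3)
    (hu : BETA_OY R1 q2 R2 R3 ≤ u / 3) (hu' : u / 3 < BETA_OZ R1 q2 R2 R3) :
    BETA_key2 R1 q2 R2 R3 u (BETA_Z R1 q2 R2 R3 t2 z2 z1 z3) = R1 + (t2 * (2 * R2) + z2) := by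
  unfold BETA_key2
  rw [if_neg (not_lt.mpr hu), if_pos hu',
    if_neg (not_lt.mpr (BETA_YZ.trans (BETA_Z_ge _ _ _ _)))]
  unfold BETA_Z
  rw [Nat.add_sub_cancel_left, BETA_div h1 h3]

theorem BETA_key_ZY {y2 y1 y3 u : ℕ} (h1 : y1 < 4 * R1) (h3 : y3 < 3 * R3)
    (hu : BETA_OZ R1 q2 R2 R3 ≤ u / 3) :
    BETA_key2 R1 q2 R2 R3 u (BETA_Y R1 q2 R2 R3 y2 y1 y3) = 1 + y2 := by
  unfold BETA_key2
  rw [if_neg (not_lt.mpr (BETA_YZ.trans hu)), if_neg (not_lt.mpr hu),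
    if_neg (not_lt.mpr (BETA_Y_ge _ _ _))]
  unfold BETA_Y
  rw [Nat.add_sub_cancel_left, BETA_div h1 h3]

theorem BETA_Xdiv_lt {a : ℕ} (ha : a < BETA_OY R1 q2 R2 R3) :
    a / (((2 * R2) * (2 * R3)) * q2) < R1 := by
  apply Nat.div_lt_of_lt_mul
  unfold BETA_OY at ha
  calc a < R1 * q2 * (2 * R2 * (2 * R3)) := ha
    _ = 2 * R2 * (2 * R3) * q2 * R1 := by ring

theorem BETA_mono1 {u u' : ℕ} (h : u < u') :
    BETA_key1 R1 q2 R2 R3 u < BETA_key1 R1 q2 R2 R3 u' ∨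
      (BETA_key1 R1 q2 R2 R3 u = BETA_key1 R1 q2 R2 R3 u' ∧ ∀ γ γ',
        BETA_key2 R1 q2 R2 R3 u γ = BETA_key2 R1 q2 R2 R3 u' γ') := by
  have h1 : u / 3 ≤ u' / 3 := Nat.div_le_div_right h.le
  by_cases ha : u / 3 < BETA_OY R1 q2 R2 R3
  · by_cases ha' : u' / 3 < BETA_OY R1 q2 R2 R3
    · have h2 : BETA_key1 R1 q2 R2 R3 u ≤ BETA_key1 R1 q2 R2 R3 u' := by
        unfold BETA_key1
        rw [if_pos ha, if_pos ha']
        exact Nat.div_le_div_right h1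
      rcases h2.lt_or_eq with h3 | h3
      · exact Or.inl h3
      · refine Or.inr ⟨h3, fun γ γ' => ?_⟩
        unfold BETA_key2
        rw [if_pos ha, if_pos ha']
    · left
      unfold BETA_key1
      rw [if_pos ha, if_neg ha']
      exact (BETA_Xdiv_lt ha).trans_le (Nat.le_add_right _ _)
  · left
    rw [BETA_key_1 (not_lt.mp ha), BETA_key_1 ((not_lt.mp ha).trans h1)]
    omega

theorem BETA_mono2 {u γ γ' : ℕ} (h : γ ≤ γ') :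
    BETA_key2 R1 q2 R2 R3 u γ ≤ BETA_key2 R1 q2 R2 R3 u γ' := by
  unfold BETA_key2
  by_cases h1 : u / 3 < BETA_OY R1 q2 R2 R3
  · rw [if_pos h1, if_pos h1]
  rw [if_neg h1, if_neg h1]
  by_cases h2 : u / 3 < BETA_OZ R1 q2 R2 R3
  · rw [if_pos h2, if_pos h2]
    by_cases h3 : γ < BETA_OY R1 q2 R2 R3
    · rw [if_pos h3]
      by_cases h4 : γ' < BETA_OY R1 q2 R2 R3
      · rw [if_pos h4]
        exact Nat.div_le_div_right h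
      · rw [if_neg h4]
        exact (BETA_Xdiv_lt h3).le.trans (Nat.le_add_right _ _)
    · rw [if_neg h3, if_neg (show ¬ γ' < BETA_OY R1 q2 R2 R3 by omega)]
      exact Nat.add_le_add_left (Nat.div_le_div_right (by omega)) _
  · rw [if_neg h2, if_neg h2]
    by_cases h3 : γ < BETA_OY R1 q2 R2 R3
    · rw [if_pos h3]
      exact Nat.zero_le _
    · rw [if_neg h3, if_neg (show ¬ γ' < BETA_OY R1 q2 R2 R3 by omega)]
      exact Nat.add_le_add_left (Nat.div_le_div_right (by omega)) _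

theorem BETA_mono {u γ u' γ' : ℕ} (h : u < u' ∨ (u = u' ∧ γ ≤ γ')) :
    BETA_key1 R1 q2 R2 R3 u < BETA_key1 R1 q2 R2 R3 u' ∨
      (BETA_key1 R1 q2 R2 R3 u = BETA_key1 R1 q2 R2 R3 u' ∧
        BETA_key2 R1 q2 R2 R3 u γ ≤ BETA_key2 R1 q2 R2 R3 u' γ') := by
  rcases h with h | ⟨rfl, h⟩
  · rcases BETA_mono1 (R1 := R1) (q2 := q2) (R2 := R2) (R3 := R3) h with h1 | ⟨h1, h2⟩
    · exact Or.inl h1
    · exact Or.inr ⟨h1, (h2 γ γ').le⟩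
  · exact Or.inr ⟨rfl, BETA_mono2 h⟩

theorem BETA_conv (u γ u' γ' u'' γ'' : ℕ) (h : u < u' ∨ (u = u' ∧ γ ≤ γ'))
    (h' : u' < u'' ∨ (u' = u'' ∧ γ' ≤ γ''))
    (e : (BETA_key1 R1 q2 R2 R3 u, BETA_key2 R1 q2 R2 R3 u γ) =
      (BETA_key1 R1 q2 R2 R3 u'', BETA_key2 R1 q2 R2 R3 u'' γ'')) :
    (BETA_key1 R1 q2 R2 R3 u', BETA_key2 R1 q2 R2 R3 u' γ') =
      (BETA_key1 R1 q2 R2 R3 u, BETA_key2 R1 q2 R2 R3 u γ) := by
  have h1 := BETA_mono (R1 := R1) (q2 := q2) (R2 := R2) (R3 := R3) h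
  have h2 := BETA_mono (R1 := R1) (q2 := q2) (R2 := R2) (R3 := R3) h'
  rw [Prod.mk.injEq] at e
  obtain ⟨e1, e2⟩ := e
  exact Prod.ext (by change BETA_key1 R1 q2 R2 R3 u' = BETA_key1 R1 q2 R2 R3 u; omega)
    (by change BETA_key2 R1 q2 R2 R3 u' γ' = BETA_key2 R1 q2 R2 R3 u γ; omega)

variable (R1 q2 R2 R3)

/-- the links between `X` and `Y` -/
def BETA_kA (D1 D2 D3 : Finset ℕ) (a b : ℕ) : Prop :=
  ∃ x1 t2 x2 x3 y2 d1 d2 d3 : ℕ, x1 < R1 ∧ t2 < q2 ∧ x2 < 2 * R2 ∧ x3 < 2 * R3 ∧ y2 < R2 ∧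
    d1 ∈ D1 ∧ d2 ∈ D2 ∧ d3 ∈ D3 ∧ x2 + d2 = y2 + R2 ∧ a = BETA_X q2 R2 R3 x1 t2 x2 x3 ∧
    b = BETA_Y R1 q2 R2 R3 y2 (x1 + d1 + R1) (x3 + d3)

/-- the links between `Y` and `Z` -/
def BETA_kB (D1 D2 D3 : Finset ℕ) (b c : ℕ) : Prop :=
  ∃ t2 y2 y1 y3 d1 d2 d3 z1 z3 : ℕ, t2 < q2 ∧ y2 < R2 ∧ y1 < 4 * R1 ∧ y3 < 3 * R3 ∧ z1 < 3 * R1 ∧
    z3 < 2 * R3 ∧ d1 ∈ D1 ∧ d2 ∈ D2 ∧ d3 ∈ D3 ∧ z1 + R1 = y1 + d1 ∧ z3 + R3 = y3 + d3 ∧
    b = BETA_Y R1 q2 R2 R3 y2 y1 y3 ∧ c = BETA_Z R1 q2 R2 R3 t2 (y2 + d2) z1 z3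

/-- the index type of the planned triangles -/
abbrev BETA_E (D1 D2 D3 : Finset ℕ) : Type :=
  Fin q2 × Fin R2 × Fin R3 × {x // x ∈ D1} × {x // x ∈ D2} × {x // x ∈ D3}

variable {D1 D2 D3 : Finset ℕ}

/-- the vertices of the planned triangles -/
def BETA_tx (κ : Fin R1) (e : BETA_E q2 R2 R3 D1 D2 D3) : ℕ :=
  BETA_X q2 R2 R3 κ e.1 (e.2.1 + R2 - e.2.2.2.2.1) (e.2.2.1 + R3 - e.2.2.2.2.2)

/-- the vertices of the planned triangles -/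
def BETA_ty (κ : Fin R1) (e : BETA_E q2 R2 R3 D1 D2 D3) : ℕ :=
  BETA_Y R1 q2 R2 R3 e.2.1 (κ + e.2.2.2.1 + R1) (e.2.2.1 + R3)

/-- the vertices of the planned triangles -/
def BETA_tz (κ : Fin R1) (e : BETA_E q2 R2 R3 D1 D2 D3) : ℕ :=
  BETA_Z R1 q2 R2 R3 e.1 (e.2.1 + e.2.2.2.2.1) (κ + 2 * e.2.2.2.1) (e.2.2.1 + e.2.2.2.2.2)

variable {R1 q2 R2 R3}

/-- the coordinates of a triangle, as natural numbers with their bounds -/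
theorem BETA_coord (h1 : D1 ⊆ range R1) (h2 : D2 ⊆ range R2) (h3 : D3 ⊆ range R3) (κ : Fin R1)
    (e : BETA_E q2 R2 R3 D1 D2 D3) : ∃ x1 t2 y2 y3 d1 d2 d3 : ℕ, x1 < R1 ∧ t2 < q2 ∧ y2 < R2 ∧
      y3 < R3 ∧ d1 < R1 ∧ d2 < R2 ∧ d3 < R3 ∧ d1 ∈ D1 ∧ d2 ∈ D2 ∧ d3 ∈ D3 ∧ (κ : ℕ) = x1 ∧
      (e.1 : ℕ) = t2 ∧ (e.2.1 : ℕ) = y2 ∧ (e.2.2.1 : ℕ) = y3 ∧ (e.2.2.2.1 : ℕ) = d1 ∧
      (e.2.2.2.2.1 : ℕ) = d2 ∧ (e.2.2.2.2.2 : ℕ) = d3 :=
  ⟨κ, e.1, e.2.1, e.2.2.1, e.2.2.2.1, e.2.2.2.2.1, e.2.2.2.2.2, κ.2, e.1.2, e.2.1.2, e.2.2.1.2,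
    mem_range.mp (h1 e.2.2.2.1.2), mem_range.mp (h2 e.2.2.2.2.1.2),
    mem_range.mp (h3 e.2.2.2.2.2.2), e.2.2.2.1.2, e.2.2.2.2.1.2, e.2.2.2.2.2.2,
    rfl, rfl, rfl, rfl, rfl, rfl, rfl⟩

theorem BETA_ext {κ κ' : Fin R1} {e e' : BETA_E q2 R2 R3 D1 D2 D3} (h1 : (κ : ℕ) = κ')
    (h2 : (e.1 : ℕ) = e'.1) (h3 : (e.2.1 : ℕ) = e'.2.1) (h4 : (e.2.2.1 : ℕ) = e'.2.2.1)
    (h5 : (e.2.2.2.1 : ℕ) = e'.2.2.2.1) (h6 : (e.2.2.2.2.1 : ℕ) = e'.2.2.2.2.1)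
    (h7 : (e.2.2.2.2.2 : ℕ) = e'.2.2.2.2.2) : κ = κ' ∧ e = e' :=
  ⟨Fin.ext h1, Prod.ext (Fin.ext h2) (Prod.ext (Fin.ext h3) (Prod.ext (Fin.ext h4)
    (Prod.ext (Subtype.ext h5) (Prod.ext (Subtype.ext h6) (Subtype.ext h7)))))⟩

theorem BETA_ty_ge (κ : Fin R1) (e : BETA_E q2 R2 R3 D1 D2 D3) :
    BETA_OY R1 q2 R2 R3 ≤ BETA_ty R1 q2 R2 R3 κ e := BETA_Y_ge _ _ _

theorem BETA_ty_lt (h1 : D1 ⊆ range R1) (h2 : D2 ⊆ range R2) (h3 : D3 ⊆ range R3) (κ : Fin R1)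
    (e : BETA_E q2 R2 R3 D1 D2 D3) : BETA_ty R1 q2 R2 R3 κ e < BETA_OZ R1 q2 R2 R3 := by
  obtain ⟨x1, t2, y2, y3, d1, d2, d3, b1, b2, b3, b4, b5, b6, b7, m1, m2, m3, e1, e2, e3, e4, e5,
    e6, e7⟩ := BETA_coord h1 h2 h3 κ e
  unfold BETA_ty
  rw [e1, e3, e4, e5]
  exact BETA_Y_lt b3 (by omega) (by omega)

theorem BETA_tz_ge (κ : Fin R1) (e : BETA_E q2 R2 R3 D1 D2 D3) :
    BETA_OZ R1 q2 R2 R3 ≤ BETA_tz R1 q2 R2 R3 κ e := BETA_Z_ge _ _ _ _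

theorem BETA_injA (h1 : D1 ⊆ range R1) (h2 : D2 ⊆ range R2) (h3 : D3 ⊆ range R3) (κ : Fin R1)
    (e : BETA_E q2 R2 R3 D1 D2 D3) (κ' : Fin R1) (e' : BETA_E q2 R2 R3 D1 D2 D3)
    (hx : BETA_tx R1 q2 R2 R3 κ e = BETA_tx R1 q2 R2 R3 κ' e')
    (hy : BETA_ty R1 q2 R2 R3 κ e = BETA_ty R1 q2 R2 R3 κ' e') :
    κ = κ' ∧ e = e' := by
  obtain ⟨x1, t2, y2, y3, d1, d2, d3, b1, b2, b3, b4, b5, b6, b7, m1, m2, m3, e1, e2, e3, e4, e5,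
    e6, e7⟩ := BETA_coord h1 h2 h3 κ e
  obtain ⟨x1', t2', y2', y3', d1', d2', d3', b1', b2', b3', b4', b5', b6', b7', m1', m2', m3', e1',
    e2', e3', e4', e5', e6', e7'⟩ := BETA_coord h1 h2 h3 κ' e'
  unfold BETA_tx at hx
  unfold BETA_ty at hy
  rw [e1, e2, e3, e4, e6, e7, e1', e2', e3', e4', e6', e7'] at hx
  rw [e1, e3, e4, e5, e1', e3', e4', e5'] at hy
  obtain ⟨f1, f2, f3, f4⟩ := BETA_X_inj (by omega) (by omega) (by omega) (by omega) (by omega)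
    (by omega) hx
  obtain ⟨f5, f6, f7⟩ := BETA_Y_inj (by omega) (by omega) (by omega) (by omega) hy
  apply BETA_ext <;> omega

theorem BETA_injB (h1 : D1 ⊆ range R1) (h2 : D2 ⊆ range R2) (h3 : D3 ⊆ range R3) (κ : Fin R1)
    (e : BETA_E q2 R2 R3 D1 D2 D3) (κ' : Fin R1) (e' : BETA_E q2 R2 R3 D1 D2 D3)
    (hy : BETA_ty R1 q2 R2 R3 κ e = BETA_ty R1 q2 R2 R3 κ' e')
    (hz : BETA_tz R1 q2 R2 R3 κ e = BETA_tz R1 q2 R2 R3 κ' e') :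
    κ = κ' ∧ e = e' := by
  obtain ⟨x1, t2, y2, y3, d1, d2, d3, b1, b2, b3, b4, b5, b6, b7, m1, m2, m3, e1, e2, e3, e4, e5,
    e6, e7⟩ := BETA_coord h1 h2 h3 κ e
  obtain ⟨x1', t2', y2', y3', d1', d2', d3', b1', b2', b3', b4', b5', b6', b7', m1', m2', m3', e1',
    e2', e3', e4', e5', e6', e7'⟩ := BETA_coord h1 h2 h3 κ' e'
  unfold BETA_tz at hz
  unfold BETA_ty at hy
  rw [e1, e2, e3, e4, e5, e6, e7, e1', e2', e3', e4', e5', e6', e7'] at hz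
  rw [e1, e3, e4, e5, e1', e3', e4', e5'] at hy
  obtain ⟨f1, f2, f3, f4⟩ := BETA_Z_inj (by omega) (by omega) (by omega) (by omega) (by omega)
    (by omega) hz
  obtain ⟨f5, f6, f7⟩ := BETA_Y_inj (by omega) (by omega) (by omega) (by omega) hy
  apply BETA_ext <;> omega

theorem BETA_tri (h1 : D1 ⊆ range R1) (h2 : D2 ⊆ range R2) (h3 : D3 ⊆ range R3)
    (f1 : ThreeAPFree (D1 : Set ℕ)) (f2 : ThreeAPFree (D2 : Set ℕ))
    (f3 : ThreeAPFree (D3 : Set ℕ)) (a b c : ℕ) (hA : BETA_kA R1 q2 R2 R3 D1 D2 D3 a b)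
    (hB : BETA_kB R1 q2 R2 R3 D1 D2 D3 b c)
    (hC : ∃ (κ : Fin R1) (e : BETA_E q2 R2 R3 D1 D2 D3), BETA_tx R1 q2 R2 R3 κ e = a ∧
      BETA_tz R1 q2 R2 R3 κ e = c) :
    ∃ (κ : Fin R1) (e : BETA_E q2 R2 R3 D1 D2 D3), BETA_tx R1 q2 R2 R3 κ e = a ∧
      BETA_ty R1 q2 R2 R3 κ e = b ∧ BETA_tz R1 q2 R2 R3 κ e = c := by
  obtain ⟨κ, e, hx, hz⟩ := hC
  refine ⟨κ, e, hx, ?_, hz⟩
  obtain ⟨X1, T2, Y2, Y3, u1, u2, u3, b1, b2, b3, b4, b5, b6, b7, m1, m2, m3, e1, e2, e3, e4, e5,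
    e6, e7⟩ := BETA_coord h1 h2 h3 κ e
  obtain ⟨x1, t2, x2, x3, y2, d1, d2, d3, c1, ct, c2, c3, c4, n1, n2, n3, c5, ha, hb⟩ := hA
  obtain ⟨t2', y2', y1', y3', g1, g2, g3, z1, z3, it, i1, i2, i3, i4, i5, o1, o2, o3, i6, i7, hb',
    hc⟩ := hB
  have q1' := mem_range.mp (h1 n1)
  have q2' := mem_range.mp (h2 n2)
  have q3' := mem_range.mp (h3 n3)
  have q4' := mem_range.mp (h1 o1)
  have q5' := mem_range.mp (h2 o2)
  have q6' := mem_range.mp (h3 o3)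
  unfold BETA_tx at hx
  unfold BETA_tz at hz
  rw [e1, e2, e3, e4, e6, e7, ha] at hx
  rw [e1, e2, e3, e4, e5, e6, e7, hc] at hz
  rw [hb] at hb'
  obtain ⟨r1, rt, r2, r3⟩ := BETA_X_inj (by omega) (by omega) (by omega) (by omega) (by omega)
    (by omega) hx
  obtain ⟨rt', r4, r5, r6⟩ := BETA_Z_inj (by omega) (by omega) (by omega) (by omega) (by omega)
    (by omega) hz
  obtain ⟨r7, r8, r9⟩ := BETA_Y_inj (by omega) (by omega) (by omega) (by omega) hb'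
  have w1 : d1 = u1 := f1 n1 m1 o1 (by omega)
  have w2 : d2 = u2 := f2 n2 m2 o2 (by omega)
  have w3 : d3 = u3 := f3 n3 m3 o3 (by omega)
  unfold BETA_ty
  rw [e1, e3, e4, e5, hb]
  congr 1 <;> omega

theorem BETA_one (h1 : D1 ⊆ range R1) (h2 : D2 ⊆ range R2) (h3 : D3 ⊆ range R3)
    (u γ v δ : ℕ) (κ : Fin R1) (e : BETA_E q2 R2 R3 D1 D2 D3) (κ' : Fin R1)
    (e' : BETA_E q2 R2 R3 D1 D2 D3)
    (hu : (u / 3 = BETA_tx R1 q2 R2 R3 κ e ∧ γ = BETA_ty R1 q2 R2 R3 κ e) ∨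
      (u / 3 = BETA_ty R1 q2 R2 R3 κ e ∧ γ = BETA_tx R1 q2 R2 R3 κ e))
    (hv : (v / 3 = BETA_tx R1 q2 R2 R3 κ' e' ∧ δ = BETA_ty R1 q2 R2 R3 κ' e') ∨
      (v / 3 = BETA_ty R1 q2 R2 R3 κ' e' ∧ δ = BETA_tx R1 q2 R2 R3 κ' e'))
    (hk : (BETA_key1 R1 q2 R2 R3 u, BETA_key2 R1 q2 R2 R3 u γ) =
      (BETA_key1 R1 q2 R2 R3 v, BETA_key2 R1 q2 R2 R3 v δ)) : κ = κ' := by
  have key : ∀ (u γ : ℕ) (κ : Fin R1) (e : BETA_E q2 R2 R3 D1 D2 D3),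
      ((u / 3 = BETA_tx R1 q2 R2 R3 κ e ∧ γ = BETA_ty R1 q2 R2 R3 κ e) ∨
        (u / 3 = BETA_ty R1 q2 R2 R3 κ e ∧ γ = BETA_tx R1 q2 R2 R3 κ e)) →
      (BETA_key1 R1 q2 R2 R3 u = κ ∧ BETA_key2 R1 q2 R2 R3 u γ = 0) ∨
        (R1 ≤ BETA_key1 R1 q2 R2 R3 u ∧ BETA_key2 R1 q2 R2 R3 u γ = κ) := by
    intro u γ κ e h
    have g1 := BETA_ty_ge (q2 := q2) (R2 := R2) (R3 := R3) κ e
    have g2 := BETA_ty_lt h1 h2 h3 κ e
    obtain ⟨x1, t2, y2, y3, d1, d2, d3, b1, b2, b3, b4, b5, b6, b7, m1, m2, m3, e1, e2, e3, e4, e5,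
      e6, e7⟩ := BETA_coord h1 h2 h3 κ e
    rcases h with ⟨hu, -⟩ | ⟨hu, hγ⟩
    · left
      unfold BETA_tx at hu
      rw [e1, e2, e3, e4, e6, e7] at hu
      have h4 := BETA_key_X b1 b2 (by omega) (by omega) hu γ
      rw [e1]
      exact h4
    · right
      rw [← hu] at g1 g2
      rw [BETA_key_1 g1, hγ]
      refine ⟨Nat.le_add_right _ _, ?_⟩
      unfold BETA_tx
      rw [e1, e2, e3, e4, e6, e7]
      exact BETA_key_YX b1 b2 (by omega) (by omega) g1 g2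
  have k1 := key u γ κ e hu
  have k2 := key v δ κ' e' hv
  rw [Prod.mk.injEq] at hk
  obtain ⟨j1, j2⟩ := hk
  have l1 := κ.2
  have l2 := κ'.2
  exact Fin.ext (by omega)

theorem BETA_few (h1 : D1 ⊆ range R1) (h2 : D2 ⊆ range R2) (h3 : D3 ⊆ range R3)
    (c : ℕ × ℕ) (κ : Fin R1) (s : Finset (ℕ × ℕ))
    (hs : ∀ p ∈ s, (BETA_key1 R1 q2 R2 R3 p.1, BETA_key2 R1 q2 R2 R3 p.1 p.2) = c ∧
      ∃ e : BETA_E q2 R2 R3 D1 D2 D3,
        (p.1 / 3 = BETA_ty R1 q2 R2 R3 κ e ∧ p.2 = BETA_tz R1 q2 R2 R3 κ e) ∨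
        (p.1 / 3 = BETA_tz R1 q2 R2 R3 κ e ∧ p.2 = BETA_ty R1 q2 R2 R3 κ e)) :
    s.card ≤ 3 * R3 := by
  have hR : R3 ≤ 3 * R3 := by omega
  rcases s.eq_empty_or_nonempty with rfl | ⟨p0, h0⟩
  · simp
  obtain ⟨hk0, e0, h0'⟩ := hs p0 h0
  have hge : ∀ p ∈ s, BETA_key1 R1 q2 R2 R3 p.1 = R1 + p.1 := by
    intro p hp
    obtain ⟨-, e, he⟩ := hs p hp
    apply BETA_key_1
    rcases he with ⟨he, -⟩ | ⟨he, -⟩
    · rw [he]
      exact BETA_ty_ge κ e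
    · rw [he]
      exact BETA_YZ.trans (BETA_tz_ge κ e)
  have hrow : ∀ p ∈ s, p.1 = p0.1 ∧
      BETA_key2 R1 q2 R2 R3 p0.1 p.2 = BETA_key2 R1 q2 R2 R3 p0.1 p0.2 := by
    intro p hp
    have j1 := (hs p hp).1.trans hk0.symm
    rw [Prod.mk.injEq, hge p hp, hge p0 h0] at j1
    have j2 : p.1 = p0.1 := by omega
    refine ⟨j2, ?_⟩
    have j3 := j1.2
    rwa [j2] at j3
  obtain ⟨x1, t2, y2, y3, d1, d2, d3, b1, b2, b3, b4, b5, b6, b7, m1, m2, m3, e1, e2, e3, e4, e5,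
    e6, e7⟩ := BETA_coord h1 h2 h3 κ e0
  have g1 := BETA_ty_ge (q2 := q2) (R2 := R2) (R3 := R3) κ e0
  have g2 := BETA_ty_lt h1 h2 h3 κ e0
  have g3 := BETA_tz_ge (q2 := q2) (R2 := R2) (R3 := R3) κ e0
  rcases h0' with ⟨hy0, hz0⟩ | ⟨hz0, hy0⟩
  · -- a row of `Y`
    have hsub : s ⊆ (range R3).image
        (fun d => (p0.1, BETA_Z R1 q2 R2 R3 t2 (y2 + d2) (x1 + 2 * d1) (y3 + d))) := by
      intro p hp
      obtain ⟨hr1, hr2⟩ := hrow p hp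
      obtain ⟨-, e, he⟩ := hs p hp
      obtain ⟨x1', t2', y2', y3', d1', d2', d3', b1', b2', b3', b4', b5', b6', b7', m1', m2', m3',
        e1', e2', e3', e4', e5', e6', e7'⟩ := BETA_coord h1 h2 h3 κ e
      rcases he with ⟨hy, hz⟩ | ⟨hz, hy⟩
      · have j1 : BETA_ty R1 q2 R2 R3 κ e = BETA_ty R1 q2 R2 R3 κ e0 := by
          rw [← hy, hr1, hy0]
        rw [← hy0] at g1 g2
        rw [hz, hz0] at hr2
        unfold BETA_tz at hr2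
        rw [e1, e2, e3, e4, e5, e6, e7, e2', e3', e4', e5', e6', e7',
          BETA_key_YZ (by omega) (by omega) g1 g2, BETA_key_YZ (by omega) (by omega) g1 g2] at hr2
        unfold BETA_ty at j1
        rw [e1, e3, e4, e5, e3', e4', e5'] at j1
        obtain ⟨f1, f2, f3⟩ := BETA_Y_inj (by omega) (by omega) (by omega) (by omega) j1
        obtain ⟨f4, f5⟩ := BETA_two (show y2' + d2' < 2 * R2 by omega)
          (show y2 + d2 < 2 * R2 by omega) (Nat.add_left_cancel hr2)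
        rw [mem_image]
        refine ⟨d3', mem_range.mpr b7', ?_⟩
        refine Prod.ext hr1.symm ?_
        rw [hz]
        unfold BETA_tz
        rw [e1, e2', e3', e4', e5', e6', e7']
        change BETA_Z R1 q2 R2 R3 t2 (y2 + d2) (x1 + 2 * d1) (y3 + d3') = _
        congr 1 <;> omega
      · have j1 := BETA_tz_ge (q2 := q2) (R2 := R2) (R3 := R3) κ e
        rw [← hz, hr1, hy0] at j1
        omega
    calc s.card ≤ _ := card_le_card hsub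
      _ ≤ (range R3).card := card_image_le
      _ = R3 := card_range R3
      _ ≤ 3 * R3 := hR
  · -- a row of `Z`
    have hsub : s ⊆ (range R3).image
        (fun t => (p0.1, BETA_Y R1 q2 R2 R3 y2 (x1 + d1 + R1) (t + R3))) := by
      intro p hp
      obtain ⟨hr1, hr2⟩ := hrow p hp
      obtain ⟨-, e, he⟩ := hs p hp
      obtain ⟨x1', t2', y2', y3', d1', d2', d3', b1', b2', b3', b4', b5', b6', b7', m1', m2', m3',
        e1', e2', e3', e4', e5', e6', e7'⟩ := BETA_coord h1 h2 h3 κ e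
      rcases he with ⟨hy, hz⟩ | ⟨hz, hy⟩
      · have j1 := BETA_ty_lt h1 h2 h3 κ e
        rw [← hy, hr1, hz0] at j1
        omega
      · have j1 : BETA_tz R1 q2 R2 R3 κ e = BETA_tz R1 q2 R2 R3 κ e0 := by
          rw [← hz, hr1, hz0]
        rw [← hz0] at g3
        rw [hy, hy0] at hr2
        unfold BETA_ty at hr2
        rw [e1, e3, e4, e5, e3', e4', e5',
          BETA_key_ZY (by omega) (by omega) g3, BETA_key_ZY (by omega) (by omega) g3] at hr2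
        unfold BETA_tz at j1
        rw [e1, e2, e3, e4, e5, e6, e7, e2', e3', e4', e5', e6', e7'] at j1
        obtain ⟨f1, f2, f3, f4⟩ := BETA_Z_inj (by omega) (by omega) (by omega) (by omega)
          (by omega) (by omega) j1
        rw [mem_image]
        refine ⟨y3', mem_range.mpr b4', ?_⟩
        refine Prod.ext hr1.symm ?_
        rw [hy]
        unfold BETA_ty
        rw [e1, e3', e4', e5']
        change BETA_Y R1 q2 R2 R3 y2 (x1 + d1 + R1) (y3' + R3) = _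
        congr 1 <;> omega
    calc s.card ≤ _ := card_le_card hsub
      _ ≤ (range R3).card := card_image_le
      _ = R3 := card_range R3
      _ ≤ 3 * R3 := hR

/-- the size of an injective image -/
theorem BETA_card {α β : Type} [DecidableEq β] (S : Finset α) (f : α → β)
    (hf : ∀ a ∈ S, ∀ b ∈ S, f a = f b → a = b) : S.card ≤ (S.image f).card := by
  rw [card_image_of_injOn (fun a ha b hb hab => hf a ha b hb hab)]


/-- the links between `X` and `Z` -/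
def BETA_kC (R1 q2 R2 R3 : ℕ) (D1 D2 D3 : Finset ℕ) (a c : ℕ) : Prop :=
  ∃ (κ : Fin R1) (e : BETA_E q2 R2 R3 D1 D2 D3), BETA_tx R1 q2 R2 R3 κ e = a ∧
    BETA_tz R1 q2 R2 R3 κ e = c

theorem BETA_bigXY (h1 : D1 ⊆ range R1) (h2 : D2 ⊆ range R2) (h3 : D3 ⊆ range R3) (κ : Fin R1)
    (e : BETA_E q2 R2 R3 D1 D2 D3) (u : ℕ) (hu : u / 3 = BETA_tx R1 q2 R2 R3 κ e) :
    ∃ s : Finset (ℕ × ℕ), min (q2 * D2.card) D1.card * D3.card ≤ s.card ∧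
      ∀ p ∈ s, hasN (BETA_kA R1 q2 R2 R3 D1 D2 D3) (BETA_kB R1 q2 R2 R3 D1 D2 D3)
        (BETA_kC R1 q2 R2 R3 D1 D2 D3) (p.1 / 3) (p.1 % 3) p.2 ∧
        (BETA_key1 R1 q2 R2 R3 p.1, BETA_key2 R1 q2 R2 R3 p.1 p.2) =
          (BETA_key1 R1 q2 R2 R3 u, BETA_key2 R1 q2 R2 R3 u (BETA_ty R1 q2 R2 R3 κ e)) := by
  obtain ⟨x1, t2, y2, y3, d1, d2, d3, b1, b2, b3, b4, b5, b6, b7, m1, m2, m3, e1, e2, e3, e4, e5,
    e6, e7⟩ := BETA_coord h1 h2 h3 κ e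
  have D2' : ∀ x ∈ D2, x < R2 := fun x hx => mem_range.mp (h2 hx)
  have D3' : ∀ x ∈ D3, x < R3 := fun x hx => mem_range.mp (h3 hx)
  have hku : BETA_key1 R1 q2 R2 R3 u = x1 ∧
      BETA_key2 R1 q2 R2 R3 u (BETA_ty R1 q2 R2 R3 κ e) = 0 := by
    unfold BETA_tx at hu
    rw [e1, e2, e3, e4, e6, e7] at hu
    exact BETA_key_X b1 b2 (by omega) (by omega) hu _
  rw [hku.1, hku.2]
  refine ⟨_, le_trans ?_ (BETA_card (range q2 ×ˢ (D2 ×ˢ D3)) (fun t =>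
    (3 * BETA_X q2 R2 R3 x1 t.1 (t.2.1 + R2 - d2) t.2.2,
      BETA_Y R1 q2 R2 R3 t.2.1 (x1 + d1 + R1) (t.2.2 + d3))) ?_), ?_⟩
  · rw [card_product, card_product, card_range, ← mul_assoc]
    exact Nat.mul_le_mul_right _ (min_le_left _ _)
  · rintro ⟨a, b, c⟩ ha ⟨a', b', c'⟩ ha' hab
    simp only [mem_product, mem_range] at ha ha'
    have := D2' _ ha.2.1
    have := D2' _ ha'.2.1
    have := D3' _ ha.2.2
    have := D3' _ ha'.2.2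
    obtain ⟨ha0, -⟩ := ha
    obtain ⟨ha0', -⟩ := ha'
    rw [Prod.mk.injEq] at hab
    have hab1 : BETA_X q2 R2 R3 x1 a (b + R2 - d2) c = BETA_X q2 R2 R3 x1 a' (b' + R2 - d2) c' := by
      have := hab.1
      change 3 * BETA_X q2 R2 R3 x1 a (b + R2 - d2) c =
        3 * BETA_X q2 R2 R3 x1 a' (b' + R2 - d2) c' at this
      omega
    obtain ⟨-, f1, f2, f3⟩ := BETA_X_inj ha0 ha0' (by omega) (by omega) (by omega) (by omega) hab1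
    exact Prod.ext f1 (Prod.ext (by change b = b'; omega) (by change c = c'; omega))
  · intro p hp
    obtain ⟨⟨a, b, c⟩, ha, rfl⟩ := mem_image.mp hp
    simp only [mem_product, mem_range] at ha
    obtain ⟨ha0, ha1, ha2⟩ := ha
    have hb := D2' _ ha1
    have hc := D3' _ ha2
    change hasN _ _ _ (3 * BETA_X q2 R2 R3 x1 a (b + R2 - d2) c / 3)
        (3 * BETA_X q2 R2 R3 x1 a (b + R2 - d2) c % 3)
        (BETA_Y R1 q2 R2 R3 b (x1 + d1 + R1) (c + d3)) ∧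
      (BETA_key1 R1 q2 R2 R3 (3 * BETA_X q2 R2 R3 x1 a (b + R2 - d2) c),
        BETA_key2 R1 q2 R2 R3 (3 * BETA_X q2 R2 R3 x1 a (b + R2 - d2) c)
          (BETA_Y R1 q2 R2 R3 b (x1 + d1 + R1) (c + d3))) = _
    have hdiv : 3 * BETA_X q2 R2 R3 x1 a (b + R2 - d2) c / 3 =
        BETA_X q2 R2 R3 x1 a (b + R2 - d2) c := by omega
    have hmod : 3 * BETA_X q2 R2 R3 x1 a (b + R2 - d2) c % 3 = 0 := by omega
    have hk := BETA_key_X b1 ha0 (show b + R2 - d2 < 2 * R2 by omega)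
      (show c < 2 * R3 by omega) hdiv (BETA_Y R1 q2 R2 R3 b (x1 + d1 + R1) (c + d3))
    rw [hk.1, hk.2, hdiv, hmod]
    refine ⟨Or.inl ⟨Or.inl ?_, by omega⟩, rfl⟩
    exact ⟨x1, a, b + R2 - d2, c, b, d1, d2, d3, b1, ha0, by omega, by omega, hb, m1, m2, m3,
      by omega, rfl, rfl⟩

theorem BETA_bigYX (h1 : D1 ⊆ range R1) (h2 : D2 ⊆ range R2) (h3 : D3 ⊆ range R3) (κ : Fin R1)
    (e : BETA_E q2 R2 R3 D1 D2 D3) (u : ℕ) (hu : u / 3 = BETA_ty R1 q2 R2 R3 κ e)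
    (hi : u % 3 ≤ 1) :
    ∃ s : Finset (ℕ × ℕ), min (q2 * D2.card) D1.card * D3.card ≤ s.card ∧
      ∀ p ∈ s, hasN (BETA_kA R1 q2 R2 R3 D1 D2 D3) (BETA_kB R1 q2 R2 R3 D1 D2 D3)
        (BETA_kC R1 q2 R2 R3 D1 D2 D3) (p.1 / 3) (p.1 % 3) p.2 ∧
        (BETA_key1 R1 q2 R2 R3 p.1, BETA_key2 R1 q2 R2 R3 p.1 p.2) =
          (BETA_key1 R1 q2 R2 R3 u, BETA_key2 R1 q2 R2 R3 u (BETA_tx R1 q2 R2 R3 κ e)) := by
  have g1 := BETA_ty_ge (q2 := q2) (R2 := R2) (R3 := R3) κ e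
  have g2 := BETA_ty_lt h1 h2 h3 κ e
  rw [← hu] at g1 g2
  obtain ⟨x1, t2, y2, y3, d1, d2, d3, b1, b2, b3, b4, b5, b6, b7, m1, m2, m3, e1, e2, e3, e4, e5,
    e6, e7⟩ := BETA_coord h1 h2 h3 κ e
  have D2' : ∀ x ∈ D2, x < R2 := fun x hx => mem_range.mp (h2 hx)
  have D3' : ∀ x ∈ D3, x < R3 := fun x hx => mem_range.mp (h3 hx)
  unfold BETA_tx
  rw [e1, e2, e3, e4, e6, e7, BETA_key_YX b1 b2 (by omega) (by omega) g1 g2]
  unfold BETA_ty at hu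
  rw [e1, e3, e4, e5] at hu
  refine ⟨_, le_trans ?_ (BETA_card (range q2 ×ˢ (D2 ×ˢ D3)) (fun t =>
    (u, BETA_X q2 R2 R3 x1 t.1 (y2 + R2 - t.2.1) (y3 + R3 - t.2.2))) ?_), ?_⟩
  · rw [card_product, card_product, card_range, ← mul_assoc]
    exact Nat.mul_le_mul_right _ (min_le_left _ _)
  · rintro ⟨a, b, c⟩ ha ⟨a', b', c'⟩ ha' hab
    simp only [mem_product, mem_range] at ha ha'
    have := D2' _ ha.2.1
    have := D2' _ ha'.2.1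
    have := D3' _ ha.2.2
    have := D3' _ ha'.2.2
    obtain ⟨ha0, -⟩ := ha
    obtain ⟨ha0', -⟩ := ha'
    rw [Prod.mk.injEq] at hab
    have hab1 : BETA_X q2 R2 R3 x1 a (y2 + R2 - b) (y3 + R3 - c) =
      BETA_X q2 R2 R3 x1 a' (y2 + R2 - b') (y3 + R3 - c') := hab.2
    obtain ⟨-, f1, f2, f3⟩ := BETA_X_inj ha0 ha0' (by omega) (by omega) (by omega) (by omega) hab1
    exact Prod.ext f1 (Prod.ext (by change b = b'; omega) (by change c = c'; omega))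
  · intro p hp
    obtain ⟨⟨a, b, c⟩, ha, rfl⟩ := mem_image.mp hp
    simp only [mem_product, mem_range] at ha
    obtain ⟨ha0, ha1, ha2⟩ := ha
    have hb := D2' _ ha1
    have hc := D3' _ ha2
    change hasN _ _ _ (u / 3) (u % 3) (BETA_X q2 R2 R3 x1 a (y2 + R2 - b) (y3 + R3 - c)) ∧
      (BETA_key1 R1 q2 R2 R3 u,
        BETA_key2 R1 q2 R2 R3 u (BETA_X q2 R2 R3 x1 a (y2 + R2 - b) (y3 + R3 - c))) = _
    rw [BETA_key_YX b1 ha0 (by omega) (by omega) g1 g2]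
    refine ⟨Or.inl ⟨Or.inr ?_, hi⟩, rfl⟩
    refine ⟨x1, a, y2 + R2 - b, y3 + R3 - c, y2, d1, b, c, b1, ha0, by omega, by omega, b3, m1,
      ha1, ha2, by omega, rfl, ?_⟩
    rw [hu]
    congr 1
    omega

theorem BETA_bigYZ (h1 : D1 ⊆ range R1) (h2 : D2 ⊆ range R2) (h3 : D3 ⊆ range R3) (κ : Fin R1)
    (e : BETA_E q2 R2 R3 D1 D2 D3) (u : ℕ) (hu : u / 3 = BETA_ty R1 q2 R2 R3 κ e)
    (hi : u % 3 ≠ 1) :
    ∃ s : Finset (ℕ × ℕ), min (q2 * D2.card) D1.card * D3.card ≤ s.card ∧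
      ∀ p ∈ s, hasN (BETA_kA R1 q2 R2 R3 D1 D2 D3) (BETA_kB R1 q2 R2 R3 D1 D2 D3)
        (BETA_kC R1 q2 R2 R3 D1 D2 D3) (p.1 / 3) (p.1 % 3) p.2 ∧
        (BETA_key1 R1 q2 R2 R3 p.1, BETA_key2 R1 q2 R2 R3 p.1 p.2) =
          (BETA_key1 R1 q2 R2 R3 u, BETA_key2 R1 q2 R2 R3 u (BETA_tz R1 q2 R2 R3 κ e)) := by
  have g1 := BETA_ty_ge (q2 := q2) (R2 := R2) (R3 := R3) κ e
  have g2 := BETA_ty_lt h1 h2 h3 κ e
  rw [← hu] at g1 g2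
  obtain ⟨x1, t2, y2, y3, d1, d2, d3, b1, b2, b3, b4, b5, b6, b7, m1, m2, m3, e1, e2, e3, e4, e5,
    e6, e7⟩ := BETA_coord h1 h2 h3 κ e
  have D1' : ∀ x ∈ D1, x < R1 := fun x hx => mem_range.mp (h1 hx)
  have D3' : ∀ x ∈ D3, x < R3 := fun x hx => mem_range.mp (h3 hx)
  unfold BETA_tz
  rw [e1, e2, e3, e4, e5, e6, e7, BETA_key_YZ (by omega) (by omega) g1 g2]
  unfold BETA_ty at hu
  rw [e1, e3, e4, e5] at hu
  refine ⟨_, le_trans ?_ (BETA_card (D1 ×ˢ D3) (fun t =>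
    (u, BETA_Z R1 q2 R2 R3 t2 (y2 + d2) (x1 + d1 + t.1) (y3 + t.2))) ?_), ?_⟩
  · rw [card_product]
    exact Nat.mul_le_mul_right _ (min_le_right _ _)
  · rintro ⟨a, b⟩ ha ⟨a', b'⟩ ha' hab
    simp only [mem_product] at ha ha'
    have := D1' _ ha.1
    have := D1' _ ha'.1
    have := D3' _ ha.2
    have := D3' _ ha'.2
    rw [Prod.mk.injEq] at hab
    have hab1 : BETA_Z R1 q2 R2 R3 t2 (y2 + d2) (x1 + d1 + a) (y3 + b) =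
      BETA_Z R1 q2 R2 R3 t2 (y2 + d2) (x1 + d1 + a') (y3 + b') := hab.2
    obtain ⟨-, f1, f2, f3⟩ := BETA_Z_inj (by omega) (by omega) (by omega) (by omega) (by omega)
      (by omega) hab1
    exact Prod.ext (by change a = a'; omega) (by change b = b'; omega)
  · intro p hp
    obtain ⟨⟨a, b⟩, ha, rfl⟩ := mem_image.mp hp
    simp only [mem_product] at ha
    obtain ⟨ha1, ha2⟩ := ha
    have ha' := D1' _ ha1
    have hb := D3' _ ha2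
    change hasN _ _ _ (u / 3) (u % 3) (BETA_Z R1 q2 R2 R3 t2 (y2 + d2) (x1 + d1 + a) (y3 + b)) ∧
      (BETA_key1 R1 q2 R2 R3 u,
        BETA_key2 R1 q2 R2 R3 u (BETA_Z R1 q2 R2 R3 t2 (y2 + d2) (x1 + d1 + a) (y3 + b))) = _
    rw [BETA_key_YZ (by omega) (by omega) g1 g2]
    refine ⟨Or.inr (Or.inl ⟨?_, hi⟩), rfl⟩
    exact ⟨t2, y2, x1 + d1 + R1, y3 + R3, a, d2, b, x1 + d1 + a, y3 + b, b2, b3, by omega,
      by omega, by omega, by omega, ha1, m2, ha2, by omega, by omega, hu, rfl⟩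

theorem BETA_bigZY (h1 : D1 ⊆ range R1) (h2 : D2 ⊆ range R2) (h3 : D3 ⊆ range R3) (κ : Fin R1)
    (e : BETA_E q2 R2 R3 D1 D2 D3) (u : ℕ) (hu : u / 3 = BETA_tz R1 q2 R2 R3 κ e)
    (hi : u % 3 ≤ 1) :
    ∃ s : Finset (ℕ × ℕ), min (q2 * D2.card) D1.card * D3.card ≤ s.card ∧
      ∀ p ∈ s, hasN (BETA_kA R1 q2 R2 R3 D1 D2 D3) (BETA_kB R1 q2 R2 R3 D1 D2 D3)
        (BETA_kC R1 q2 R2 R3 D1 D2 D3) (p.1 / 3) (p.1 % 3) p.2 ∧
        (BETA_key1 R1 q2 R2 R3 p.1, BETA_key2 R1 q2 R2 R3 p.1 p.2) =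
          (BETA_key1 R1 q2 R2 R3 u, BETA_key2 R1 q2 R2 R3 u (BETA_ty R1 q2 R2 R3 κ e)) := by
  have g3 := BETA_tz_ge (q2 := q2) (R2 := R2) (R3 := R3) κ e
  rw [← hu] at g3
  obtain ⟨x1, t2, y2, y3, d1, d2, d3, b1, b2, b3, b4, b5, b6, b7, m1, m2, m3, e1, e2, e3, e4, e5,
    e6, e7⟩ := BETA_coord h1 h2 h3 κ e
  have D1' : ∀ x ∈ D1, x < R1 := fun x hx => mem_range.mp (h1 hx)
  have D3' : ∀ x ∈ D3, x < R3 := fun x hx => mem_range.mp (h3 hx)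
  unfold BETA_ty
  rw [e1, e3, e4, e5, BETA_key_ZY (by omega) (by omega) g3]
  unfold BETA_tz at hu
  rw [e1, e2, e3, e4, e5, e6, e7] at hu
  refine ⟨_, le_trans ?_ (BETA_card (D1 ×ˢ D3) (fun t =>
    (u, BETA_Y R1 q2 R2 R3 y2 (x1 + 2 * d1 + R1 - t.1) (y3 + d3 + R3 - t.2))) ?_), ?_⟩
  · rw [card_product]
    exact Nat.mul_le_mul_right _ (min_le_right _ _)
  · rintro ⟨a, b⟩ ha ⟨a', b'⟩ ha' hab
    simp only [mem_product] at ha ha'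
    have := D1' _ ha.1
    have := D1' _ ha'.1
    have := D3' _ ha.2
    have := D3' _ ha'.2
    rw [Prod.mk.injEq] at hab
    have hab1 : BETA_Y R1 q2 R2 R3 y2 (x1 + 2 * d1 + R1 - a) (y3 + d3 + R3 - b) =
      BETA_Y R1 q2 R2 R3 y2 (x1 + 2 * d1 + R1 - a') (y3 + d3 + R3 - b') := hab.2
    obtain ⟨-, f1, f2⟩ := BETA_Y_inj (by omega) (by omega) (by omega) (by omega) hab1
    exact Prod.ext (by change a = a'; omega) (by change b = b'; omega)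
  · intro p hp
    obtain ⟨⟨a, b⟩, ha, rfl⟩ := mem_image.mp hp
    simp only [mem_product] at ha
    obtain ⟨ha1, ha2⟩ := ha
    have ha' := D1' _ ha1
    have hb := D3' _ ha2
    change hasN _ _ _ (u / 3) (u % 3)
        (BETA_Y R1 q2 R2 R3 y2 (x1 + 2 * d1 + R1 - a) (y3 + d3 + R3 - b)) ∧
      (BETA_key1 R1 q2 R2 R3 u, BETA_key2 R1 q2 R2 R3 u
        (BETA_Y R1 q2 R2 R3 y2 (x1 + 2 * d1 + R1 - a) (y3 + d3 + R3 - b))) = _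
    rw [BETA_key_ZY (by omega) (by omega) g3]
    refine ⟨Or.inr (Or.inr (Or.inl ⟨?_, hi⟩)), rfl⟩
    exact ⟨t2, y2, x1 + 2 * d1 + R1 - a, y3 + d3 + R3 - b, a, d2, b, x1 + 2 * d1, y3 + d3, b2, b3,
      by omega, by omega, by omega, by omega, ha1, m2, ha2, by omega, by omega, rfl, hu⟩

/-- the number of cells in terms of the numbers of links -/
theorem BETA_cells_gen (kA kB kC : ℕ → ℕ → Prop) (PA PB PC : Finset (ℕ × ℕ)) (nA nB nC : ℕ)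
    (hA : ∀ a b, kA a b → (a, b) ∈ PA) (hB : ∀ a b, kB a b → (a, b) ∈ PB)
    (hC : ∀ a b, kC a b → (a, b) ∈ PC) (cA : PA.card ≤ nA) (cB : PB.card ≤ nB)
    (cC : PC.card ≤ nC) (s : Finset (ℕ × ℕ))
    (hs : ∀ p ∈ s, hasN kA kB kC (p.1 / 3) (p.1 % 3) p.2) :
    s.card ≤ 4 * nA + 4 * nB + 2 * nC := by
  have hsub : s ⊆ ((PA ×ˢ range 2).image fun t => (3 * t.1.1 + t.2, t.1.2)) ∪
      ((PA ×ˢ range 2).image fun t => (3 * t.1.2 + t.2, t.1.1)) ∪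
      ((PB ×ˢ range 2).image fun t => (3 * t.1.1 + 2 * t.2, t.1.2)) ∪
      ((PB ×ˢ range 2).image fun t => (3 * t.1.2 + t.2, t.1.1)) ∪
      (PC.image fun t => (3 * t.1, t.2)) ∪ (PC.image fun t => (3 * t.2, t.1)) := by
    intro p hp
    have h1 := hs p hp
    have h3 : p.1 % 3 < 3 := Nat.mod_lt _ (by norm_num)
    simp only [mem_union, mem_image, mem_product, mem_range]
    rcases h1 with ⟨h | h, hi⟩ | ⟨h, hi⟩ | ⟨h, hi⟩ | ⟨h | h, hi⟩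
    · left; left; left; left; left
      exact ⟨((p.1 / 3, p.2), p.1 % 3), ⟨hA _ _ h, by omega⟩,
        Prod.ext (by change 3 * (p.1 / 3) + p.1 % 3 = p.1; omega) rfl⟩
    · left; left; left; left; right
      exact ⟨((p.2, p.1 / 3), p.1 % 3), ⟨hA _ _ h, by omega⟩,
        Prod.ext (by change 3 * (p.1 / 3) + p.1 % 3 = p.1; omega) rfl⟩
    · left; left; left; right
      exact ⟨((p.1 / 3, p.2), p.1 % 3 / 2), ⟨hB _ _ h, by omega⟩,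
        Prod.ext (by change 3 * (p.1 / 3) + 2 * (p.1 % 3 / 2) = p.1; omega) rfl⟩
    · left; left; right
      exact ⟨((p.2, p.1 / 3), p.1 % 3), ⟨hB _ _ h, by omega⟩,
        Prod.ext (by change 3 * (p.1 / 3) + p.1 % 3 = p.1; omega) rfl⟩
    · left; right
      exact ⟨(p.1 / 3, p.2), hC _ _ h, Prod.ext (by change 3 * (p.1 / 3) = p.1; omega) rfl⟩
    · right
      exact ⟨(p.2, p.1 / 3), hC _ _ h, Prod.ext (by change 3 * (p.1 / 3) = p.1; omega) rfl⟩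
  have i1 : ∀ (P : Finset (ℕ × ℕ)) (f : (ℕ × ℕ) × ℕ → ℕ × ℕ),
      ((P ×ˢ range 2).image f).card ≤ P.card * 2 := by
    intro P f
    refine card_image_le.trans ?_
    rw [card_product, card_range]
  refine (card_le_card hsub).trans ((card_union_le _ _).trans ?_)
  have j1 := (card_union_le (((PA ×ˢ range 2).image fun t => (3 * t.1.1 + t.2, t.1.2)) ∪
      ((PA ×ˢ range 2).image fun t => (3 * t.1.2 + t.2, t.1.1)) ∪
      ((PB ×ˢ range 2).image fun t => (3 * t.1.1 + 2 * t.2, t.1.2)) ∪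
      ((PB ×ˢ range 2).image fun t => (3 * t.1.2 + t.2, t.1.1)))
      (PC.image fun t => (3 * t.1, t.2)))
  have j2 := (card_union_le (((PA ×ˢ range 2).image fun t => (3 * t.1.1 + t.2, t.1.2)) ∪
      ((PA ×ˢ range 2).image fun t => (3 * t.1.2 + t.2, t.1.1)) ∪
      ((PB ×ˢ range 2).image fun t => (3 * t.1.1 + 2 * t.2, t.1.2)))
      ((PB ×ˢ range 2).image fun t => (3 * t.1.2 + t.2, t.1.1)))
  have j3 := (card_union_le (((PA ×ˢ range 2).image fun t => (3 * t.1.1 + t.2, t.1.2)) ∪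
      ((PA ×ˢ range 2).image fun t => (3 * t.1.2 + t.2, t.1.1)))
      ((PB ×ˢ range 2).image fun t => (3 * t.1.1 + 2 * t.2, t.1.2)))
  have j4 := (card_union_le ((PA ×ˢ range 2).image fun t => (3 * t.1.1 + t.2, t.1.2))
      ((PA ×ˢ range 2).image fun t => (3 * t.1.2 + t.2, t.1.1)))
  have k1 := i1 PA fun t => (3 * t.1.1 + t.2, t.1.2)
  have k2 := i1 PA fun t => (3 * t.1.2 + t.2, t.1.1)
  have k3 := i1 PB fun t => (3 * t.1.1 + 2 * t.2, t.1.2)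
  have k4 := i1 PB fun t => (3 * t.1.2 + t.2, t.1.1)
  have k5 : (PC.image fun t => (3 * t.1, t.2)).card ≤ PC.card := card_image_le
  have k6 : (PC.image fun t => (3 * t.2, t.1)).card ≤ PC.card := card_image_le
  omega

theorem BETA_cells (h1 : D1 ⊆ range R1) (h2 : D2 ⊆ range R2) (h3 : D3 ⊆ range R3)
    (s : Finset (ℕ × ℕ)) (hs : ∀ p ∈ s, hasN (BETA_kA R1 q2 R2 R3 D1 D2 D3)
      (BETA_kB R1 q2 R2 R3 D1 D2 D3) (BETA_kC R1 q2 R2 R3 D1 D2 D3) (p.1 / 3) (p.1 % 3) p.2) :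
    s.card ≤ 72 * (R1 * (q2 * R2) * R3) * (R1 * R2 * R3) := by
  have c1 : D1.card ≤ R1 := (card_le_card h1).trans (card_range R1).le
  have c2 : D2.card ≤ R2 := (card_le_card h2).trans (card_range R2).le
  have c3 : D3.card ≤ R3 := (card_le_card h3).trans (card_range R3).le
  have c4 : D1.card * (D2.card * D3.card) ≤ R1 * (R2 * R3) :=
    Nat.mul_le_mul c1 (Nat.mul_le_mul c2 c3)
  have h := BETA_cells_gen _ _ _
    ((range R1 ×ˢ (range q2 ×ˢ (range (2 * R2) ×ˢ (range (2 * R3) ×ˢ (D1 ×ˢ (D2 ×ˢ D3)))))).image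
      fun t => (BETA_X q2 R2 R3 t.1 t.2.1 t.2.2.1 t.2.2.2.1,
        BETA_Y R1 q2 R2 R3 (t.2.2.1 + t.2.2.2.2.2.1 - R2) (t.1 + t.2.2.2.2.1 + R1)
          (t.2.2.2.1 + t.2.2.2.2.2.2)))
    ((range q2 ×ˢ (range (2 * R2) ×ˢ (range (3 * R1) ×ˢ (range (2 * R3) ×ˢ
      (D1 ×ˢ (D2 ×ˢ D3)))))).image
      fun t => (BETA_Y R1 q2 R2 R3 (t.2.1 - t.2.2.2.2.2.1) (t.2.2.1 + R1 - t.2.2.2.2.1)
          (t.2.2.2.1 + R3 - t.2.2.2.2.2.2),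
        BETA_Z R1 q2 R2 R3 t.1 t.2.1 t.2.2.1 t.2.2.2.1))
    ((univ : Finset (Fin R1 × BETA_E q2 R2 R3 D1 D2 D3)).image
      fun t => (BETA_tx R1 q2 R2 R3 t.1 t.2, BETA_tz R1 q2 R2 R3 t.1 t.2))
    (4 * (R1 * (q2 * R2) * R3) * (R1 * R2 * R3)) (12 * (R1 * (q2 * R2) * R3) * (R1 * R2 * R3))
    (4 * (R1 * (q2 * R2) * R3) * (R1 * R2 * R3)) ?_ ?_ ?_ ?_ ?_ ?_ s hs
  · refine h.trans (le_of_eq ?_)
    ring
  · rintro a b ⟨x1, t2, x2, x3, y2, d1, d2, d3, c1, ct, c2, c3, c4, n1, n2, n3, c5, rfl, rfl⟩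
    rw [mem_image]
    refine ⟨(x1, t2, x2, x3, d1, d2, d3), ?_, ?_⟩
    · simp only [mem_product, mem_range]
      exact ⟨c1, ct, c2, c3, n1, n2, n3⟩
    · refine Prod.ext rfl ?_
      change BETA_Y R1 q2 R2 R3 (x2 + d2 - R2) (x1 + d1 + R1) (x3 + d3) = _
      congr 1
      omega
  · rintro a b ⟨t2', y2', y1', y3', g1, g2, g3, z1, z3, it, i1, i2, i3, i4, i5, o1, o2, o3, i6, i7,
      rfl, rfl⟩
    have q5' := mem_range.mp (h2 o2)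
    rw [mem_image]
    refine ⟨(t2', y2' + g2, z1, z3, g1, g2, g3), ?_, ?_⟩
    · simp only [mem_product, mem_range]
      exact ⟨it, by omega, i4, i5, o1, o2, o3⟩
    · refine Prod.ext ?_ rfl
      change BETA_Y R1 q2 R2 R3 (y2' + g2 - g2) (z1 + R1 - g1) (z3 + R3 - g3) = _
      congr 1 <;> omega
  · rintro a b ⟨κ, e, rfl, rfl⟩
    rw [mem_image]
    exact ⟨(κ, e), mem_univ _, rfl⟩
  · refine card_image_le.trans ?_
    simp only [card_product, card_range]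
    calc R1 * (q2 * (2 * R2 * (2 * R3 * (D1.card * (D2.card * D3.card)))))
        ≤ R1 * (q2 * (2 * R2 * (2 * R3 * (R1 * (R2 * R3))))) := by gcongr
      _ = 4 * (R1 * (q2 * R2) * R3) * (R1 * R2 * R3) := by ring
  · refine card_image_le.trans ?_
    simp only [card_product, card_range]
    calc q2 * (2 * R2 * (3 * R1 * (2 * R3 * (D1.card * (D2.card * D3.card)))))
        ≤ q2 * (2 * R2 * (3 * R1 * (2 * R3 * (R1 * (R2 * R3))))) := by gcongr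
      _ = 12 * (R1 * (q2 * R2) * R3) * (R1 * R2 * R3) := by ring
  · refine card_image_le.trans ?_
    rw [card_univ]
    simp only [Fintype.card_prod, Fintype.card_coe, Fintype.card_fin]
    calc R1 * (q2 * (R2 * (R3 * (D1.card * (D2.card * D3.card)))))
        ≤ R1 * (q2 * (R2 * (R3 * (R1 * (R2 * R3))))) := by gcongr
      _ ≤ 4 * (R1 * (q2 * (R2 * (R3 * (R1 * (R2 * R3)))))) := Nat.le_mul_of_pos_left _ (by omega)
      _ = 4 * (R1 * (q2 * R2) * R3) * (R1 * R2 * R3) := by ring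

/-- the frame -/
def BETA_frame (hR3 : 0 < R3) (h1 : D1 ⊆ range R1) (h2 : D2 ⊆ range R2) (h3 : D3 ⊆ range R3)
    (f1 : ThreeAPFree (D1 : Set ℕ)) (f2 : ThreeAPFree (D2 : Set ℕ))
    (f3 : ThreeAPFree (D3 : Set ℕ)) (hl : 0 < min (q2 * D2.card) D1.card * D3.card) :
    Frame (Fin R1) (BETA_E q2 R2 R3 D1 D2 D3) where
  Γ := BETA_Γ R1 q2 R2 R3
  OY := BETA_OY R1 q2 R2 R3
  OZ := BETA_OZ R1 q2 R2 R3
  kA := BETA_kA R1 q2 R2 R3 D1 D2 D3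
  kB := BETA_kB R1 q2 R2 R3 D1 D2 D3
  kC := BETA_kC R1 q2 R2 R3 D1 D2 D3
  tx := BETA_tx R1 q2 R2 R3
  ty := BETA_ty R1 q2 R2 R3
  tz := BETA_tz R1 q2 R2 R3
  key := fun u γ => (BETA_key1 R1 q2 R2 R3 u, BETA_key2 R1 q2 R2 R3 u γ)
  len := min (q2 * D2.card) D1.card * D3.card
  b0 := 3 * R3
  Bd := 72 * (R1 * (q2 * R2) * R3) * (R1 * R2 * R3)
  hlen := hl
  hb0 := by omega
  hA := by
    rintro a b ⟨x1, t2, x2, x3, y2, d1, d2, d3, c1, ct, c2, c3, c4, n1, n2, n3, c5, rfl, rfl⟩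
    have q1 := mem_range.mp (h1 n1)
    have q3 := mem_range.mp (h3 n3)
    exact ⟨BETA_X_lt c1 ct c2 c3, BETA_Y_ge _ _ _, BETA_Y_lt c4 (by omega) (by omega)⟩
  hB := by
    rintro b c ⟨t2', y2', y1', y3', g1, g2, g3, z1, z3, it, i1, i2, i3, i4, i5, o1, o2, o3, i6, i7,
      rfl, rfl⟩
    have q1 := mem_range.mp (h2 o2)
    exact ⟨BETA_Y_ge _ _ _, BETA_Y_lt i1 i2 i3, BETA_Z_ge _ _ _ _,
      BETA_Z_lt it (by omega) i4 i5⟩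
  hC := by
    rintro a c ⟨κ, e, rfl, rfl⟩
    obtain ⟨x1, t2, y2, y3, d1, d2, d3, b1, b2, b3, b4, b5, b6, b7, m1, m2, m3, e1, e2, e3, e4, e5,
      e6, e7⟩ := BETA_coord h1 h2 h3 κ e
    unfold BETA_tx BETA_tz
    rw [e1, e2, e3, e4, e5, e6, e7]
    exact ⟨BETA_X_lt b1 b2 (by omega) (by omega), BETA_Z_ge _ _ _ _,
      BETA_Z_lt b2 (by omega) (by omega) (by omega)⟩
  hYZ := BETA_YZ
  hZ := Nat.le_add_right _ _
  pA := by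
    intro κ e
    obtain ⟨x1, t2, y2, y3, d1, d2, d3, b1, b2, b3, b4, b5, b6, b7, m1, m2, m3, e1, e2, e3, e4, e5,
      e6, e7⟩ := BETA_coord h1 h2 h3 κ e
    unfold BETA_tx BETA_ty
    rw [e1, e2, e3, e4, e5, e6, e7]
    refine ⟨x1, t2, y2 + R2 - d2, y3 + R3 - d3, y2, d1, d2, d3, b1, b2, by omega, by omega, b3, m1,
      m2, m3, by omega, rfl, ?_⟩
    congr 1
    omega
  pB := by
    intro κ e
    obtain ⟨x1, t2, y2, y3, d1, d2, d3, b1, b2, b3, b4, b5, b6, b7, m1, m2, m3, e1, e2, e3, e4, e5,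
      e6, e7⟩ := BETA_coord h1 h2 h3 κ e
    unfold BETA_ty BETA_tz
    rw [e1, e2, e3, e4, e5, e6, e7]
    exact ⟨t2, y2, x1 + d1 + R1, y3 + R3, d1, d2, d3, x1 + 2 * d1, y3 + d3, b2, b3, by omega,
      by omega, by omega, by omega, m1, m2, m3, by omega, by omega, rfl, rfl⟩
  pC := fun κ e => ⟨κ, e, rfl, rfl⟩
  injA := BETA_injA h1 h2 h3
  injB := BETA_injB h1 h2 h3
  tri := BETA_tri h1 h2 h3 f1 f2 f3
  conv := BETA_conv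
  one := BETA_one h1 h2 h3
  few := BETA_few h1 h2 h3
  bigXY := fun κ e u hu _ => BETA_bigXY h1 h2 h3 κ e u hu
  bigYX := BETA_bigYX h1 h2 h3
  bigYZ := BETA_bigYZ h1 h2 h3
  bigZY := BETA_bigZY h1 h2 h3
  cells := BETA_cells h1 h2 h3

end

/-- Dense frames exist. -/
theorem m_BETA : S_BETA := by
  intro R1 q2 R2 R3 hR1 hq2 hR2 hR3
  obtain ⟨D1, h1, c1, f1⟩ := rothNumberNat_spec R1
  obtain ⟨D2, h2, c2, f2⟩ := rothNumberNat_spec R2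
  obtain ⟨D3, h3, c3, f3⟩ := rothNumberNat_spec R3
  have hpos : ∀ m : ℕ, 0 < m → 0 < rothNumberNat m := by
    intro m hm
    have h1 : 1 ≤ rothNumberNat m :=
      ThreeAPFree.le_rothNumberNat {0} (by simp) (by simpa using hm) (by simp)
    exact h1
  have p1 := hpos R1 hR1
  have p2 := hpos R2 hR2
  have p3 := hpos R3 hR3
  have hl : 0 < min (q2 * D2.card) D1.card * D3.card := by
    rw [c1, c2, c3]
    exact Nat.mul_pos (lt_min (Nat.mul_pos hq2 p2) p1) p3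
  refine ⟨Fin R1, BETA_E q2 R2 R3 D1 D2 D3, inferInstance, inferInstance, inferInstance,
    Classical.decEq _, BETA_frame hR3 h1 h2 h3 f1 f2 f3 hl, ?_, le_rfl, ?_, rfl, Fintype.card_fin R1,
    ?_⟩
  · change BETA_Γ R1 q2 R2 R3 ≤ _
    unfold BETA_Γ BETA_OZ BETA_OY
    calc R1 * q2 * (2 * R2 * (2 * R3)) + R2 * (4 * R1 * (3 * R3)) +
          q2 * (2 * R2) * (3 * R1 * (2 * R3))
        = 16 * (R1 * (q2 * R2) * R3) + 12 * (R1 * (1 * R2) * R3) := by ring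
      _ ≤ 16 * (R1 * (q2 * R2) * R3) + 12 * (R1 * (q2 * R2) * R3) := by gcongr; omega
      _ = 28 * (R1 * (q2 * R2) * R3) := by ring
  · change min (q2 * D2.card) D1.card * D3.card = _
    rw [c1, c2, c3]
  · simp only [Fintype.card_prod, Fintype.card_coe, Fintype.card_fin, c1, c2, c3]
    ring

end Pool.Agent.HDL
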