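import Mathlib
import Pool.Agent.HDL.M_BETA

/-!
# Module HDL_ALPHA (helper28): sparse frames
-/

set_option autoImplicit false
set_option linter.unusedSectionVars false

namespace Pool.Agent.HDL

open Finset

section

variable (q1 R1 q2 q3 R3 : ℕ)

/-- the first group of `Y` -/
def ALPHA_OY : ℕ := q1 * R1 * q2 * (q3 * (2 * R3))

/-- the first group of `Z` -/
def ALPHA_OZ : ℕ := ALPHA_OY q1 R1 q2 q3 R3 + (4 * R1) * (3 * R3)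

/-- the number of groups -/
def ALPHA_Γ : ℕ := ALPHA_OZ q1 R1 q2 q3 R3 + (q2 * ((3 * R1) * (2 * R3))) * (q1 * q3)

/-- the groups of `X` -/
def ALPHA_X (t1 x1 t2 t3 x3 : ℕ) : ℕ := BETA_N q3 (2 * R3) ((t1 * R1 + x1) * q2 + t2) t3 x3

/-- the groups of `Y` -/
def ALPHA_Y (y1 y3 : ℕ) : ℕ := ALPHA_OY q1 R1 q2 q3 R3 + (y1 * (3 * R3) + y3)

/-- the groups of `Z` -/
def ALPHA_Z (t2 z1 z3 t1 t3 : ℕ) : ℕ :=
  ALPHA_OZ q1 R1 q2 q3 R3 + BETA_N q1 q3 (BETA_N (3 * R1) (2 * R3) t2 z1 z3) t1 t3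

/-- the first entry of the key -/
def ALPHA_key1 (u : ℕ) : ℕ :=
  if u / 3 < ALPHA_OY q1 R1 q2 q3 R3 then u / 3 / ((q3 * (2 * R3)) * q2)
  else if u / 3 < ALPHA_OZ q1 R1 q2 q3 R3 then q1 * R1 + u
  else q1 * R1 + 3 * ALPHA_OZ q1 R1 q2 q3 R3 + (u / 3 - ALPHA_OZ q1 R1 q2 q3 R3) / (q1 * q3)

/-- the second entry of the key -/
def ALPHA_key2 (u γ : ℕ) : ℕ :=
  if u / 3 < ALPHA_OY q1 R1 q2 q3 R3 then 0
  else if u / 3 < ALPHA_OZ q1 R1 q2 q3 R3 then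
    (if γ < ALPHA_OY q1 R1 q2 q3 R3 then γ / ((q3 * (2 * R3)) * q2)
      else q1 * R1 + (γ - ALPHA_OZ q1 R1 q2 q3 R3) / ((q1 * q3) * ((3 * R1) * (2 * R3))))
  else 0

variable {q1 R1 q2 q3 R3}

theorem ALPHA_X_lt {t1 x1 t2 t3 x3 : ℕ} (h1 : t1 < q1) (h2 : x1 < R1) (h3 : t2 < q2)
    (h4 : t3 < q3) (h5 : x3 < 2 * R3) :
    ALPHA_X R1 q2 q3 R3 t1 x1 t2 t3 x3 < ALPHA_OY q1 R1 q2 q3 R3 :=
  BETA_lt (BETA_ltwo (BETA_ltwo h1 h2) h3) h4 h5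

theorem ALPHA_Y_ge (y1 y3 : ℕ) : ALPHA_OY q1 R1 q2 q3 R3 ≤ ALPHA_Y q1 R1 q2 q3 R3 y1 y3 :=
  Nat.le_add_right _ _

theorem ALPHA_Y_lt {y1 y3 : ℕ} (h1 : y1 < 4 * R1) (h3 : y3 < 3 * R3) :
    ALPHA_Y q1 R1 q2 q3 R3 y1 y3 < ALPHA_OZ q1 R1 q2 q3 R3 :=
  Nat.add_lt_add_left (BETA_ltwo h1 h3) _

theorem ALPHA_Z_ge (t2 z1 z3 t1 t3 : ℕ) :
    ALPHA_OZ q1 R1 q2 q3 R3 ≤ ALPHA_Z q1 R1 q2 q3 R3 t2 z1 z3 t1 t3 :=
  Nat.le_add_right _ _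

theorem ALPHA_Z_lt {t2 z1 z3 t1 t3 : ℕ} (ht : t2 < q2) (h1 : z1 < 3 * R1) (h3 : z3 < 2 * R3)
    (h4 : t1 < q1) (h5 : t3 < q3) :
    ALPHA_Z q1 R1 q2 q3 R3 t2 z1 z3 t1 t3 < ALPHA_Γ q1 R1 q2 q3 R3 :=
  Nat.add_lt_add_left (BETA_lt (BETA_lt ht h1 h3) h4 h5) _

theorem ALPHA_YZ : ALPHA_OY q1 R1 q2 q3 R3 ≤ ALPHA_OZ q1 R1 q2 q3 R3 := Nat.le_add_right _ _

theorem ALPHA_X_inj {t1 x1 t2 t3 x3 t1' x1' t2' t3' x3' : ℕ} (h1 : x1 < R1) (h1' : x1' < R1)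
    (h2 : t2 < q2) (h2' : t2' < q2) (h3 : t3 < q3) (h3' : t3' < q3) (h4 : x3 < 2 * R3)
    (h4' : x3' < 2 * R3)
    (e : ALPHA_X R1 q2 q3 R3 t1 x1 t2 t3 x3 = ALPHA_X R1 q2 q3 R3 t1' x1' t2' t3' x3') :
    t1 = t1' ∧ x1 = x1' ∧ t2 = t2' ∧ t3 = t3' ∧ x3 = x3' := by
  obtain ⟨g1, g2, g3⟩ := BETA_inj h3 h3' h4 h4' e
  obtain ⟨g4, g5⟩ := BETA_two h2 h2' g1
  obtain ⟨g6, g7⟩ := BETA_two h1 h1' g4
  exact ⟨g6, g7, g5, g2, g3⟩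

theorem ALPHA_Y_inj {y1 y3 y1' y3' : ℕ} (h3 : y3 < 3 * R3) (h3' : y3' < 3 * R3)
    (e : ALPHA_Y q1 R1 q2 q3 R3 y1 y3 = ALPHA_Y q1 R1 q2 q3 R3 y1' y3') :
    y1 = y1' ∧ y3 = y3' := BETA_two h3 h3' (Nat.add_left_cancel e)

theorem ALPHA_Z_inj {t2 z1 z3 t1 t3 t2' z1' z3' t1' t3' : ℕ} (h1 : z1 < 3 * R1)
    (h1' : z1' < 3 * R1) (h2 : z3 < 2 * R3) (h2' : z3' < 2 * R3) (h3 : t1 < q1) (h3' : t1' < q1)
    (h4 : t3 < q3) (h4' : t3' < q3)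
    (e : ALPHA_Z q1 R1 q2 q3 R3 t2 z1 z3 t1 t3 = ALPHA_Z q1 R1 q2 q3 R3 t2' z1' z3' t1' t3') :
    t2 = t2' ∧ z1 = z1' ∧ z3 = z3' ∧ t1 = t1' ∧ t3 = t3' := by
  obtain ⟨g1, g2, g3⟩ := BETA_inj h3 h3' h4 h4' (Nat.add_left_cancel e)
  obtain ⟨g4, g5, g6⟩ := BETA_inj h1 h1' h2 h2' g1
  exact ⟨g4, g5, g6, g2, g3⟩

theorem ALPHA_X_div {t1 x1 t2 t3 x3 : ℕ} (h3 : t2 < q2) (h4 : t3 < q3) (h5 : x3 < 2 * R3) :
    ALPHA_X R1 q2 q3 R3 t1 x1 t2 t3 x3 / ((q3 * (2 * R3)) * q2) = t1 * R1 + x1 := by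
  rw [← Nat.div_div_eq_div_mul]
  unfold ALPHA_X
  rw [BETA_div h4 h5, BETA_dv h3]

theorem ALPHA_key_X {t1 x1 t2 t3 x3 u : ℕ} (h1 : t1 < q1) (h2 : x1 < R1) (h3 : t2 < q2)
    (h4 : t3 < q3) (h5 : x3 < 2 * R3) (hu : u / 3 = ALPHA_X R1 q2 q3 R3 t1 x1 t2 t3 x3) (γ : ℕ) :
    ALPHA_key1 q1 R1 q2 q3 R3 u = t1 * R1 + x1 ∧ ALPHA_key2 q1 R1 q2 q3 R3 u γ = 0 := by
  unfold ALPHA_key1 ALPHA_key2
  rw [hu, if_pos (ALPHA_X_lt h1 h2 h3 h4 h5), if_pos (ALPHA_X_lt h1 h2 h3 h4 h5),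
    ALPHA_X_div h3 h4 h5]
  exact ⟨rfl, rfl⟩

theorem ALPHA_key_1 {u : ℕ} (hu : ALPHA_OY q1 R1 q2 q3 R3 ≤ u / 3)
    (hu' : u / 3 < ALPHA_OZ q1 R1 q2 q3 R3) :
    ALPHA_key1 q1 R1 q2 q3 R3 u = q1 * R1 + u := by
  unfold ALPHA_key1
  rw [if_neg (not_lt.mpr hu), if_pos hu']

theorem ALPHA_key_YX {t1 x1 t2 t3 x3 u : ℕ} (h1 : t1 < q1) (h2 : x1 < R1) (h3 : t2 < q2)
    (h4 : t3 < q3) (h5 : x3 < 2 * R3) (hu : ALPHA_OY q1 R1 q2 q3 R3 ≤ u / 3)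
    (hu' : u / 3 < ALPHA_OZ q1 R1 q2 q3 R3) :
    ALPHA_key2 q1 R1 q2 q3 R3 u (ALPHA_X R1 q2 q3 R3 t1 x1 t2 t3 x3) = t1 * R1 + x1 := by
  unfold ALPHA_key2
  rw [if_neg (not_lt.mpr hu), if_pos hu', if_pos (ALPHA_X_lt h1 h2 h3 h4 h5),
    ALPHA_X_div h3 h4 h5]

theorem ALPHA_key_YZ {t2 z1 z3 t1 t3 u : ℕ} (h1 : z1 < 3 * R1) (h3 : z3 < 2 * R3)
    (h4 : t1 < q1) (h5 : t3 < q3) (hu : ALPHA_OY q1 R1 q2 q3 R3 ≤ u / 3)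
    (hu' : u / 3 < ALPHA_OZ q1 R1 q2 q3 R3) :
    ALPHA_key2 q1 R1 q2 q3 R3 u (ALPHA_Z q1 R1 q2 q3 R3 t2 z1 z3 t1 t3) = q1 * R1 + t2 := by
  unfold ALPHA_key2
  rw [if_neg (not_lt.mpr hu), if_pos hu',
    if_neg (not_lt.mpr (ALPHA_YZ.trans (ALPHA_Z_ge _ _ _ _ _)))]
  unfold ALPHA_Z
  rw [Nat.add_sub_cancel_left, ← Nat.div_div_eq_div_mul, BETA_div h4 h5, BETA_div h1 h3]

theorem ALPHA_key_Z2 {u : ℕ} (hu : ALPHA_OZ q1 R1 q2 q3 R3 ≤ u / 3) (γ : ℕ) :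
    ALPHA_key2 q1 R1 q2 q3 R3 u γ = 0 := by
  unfold ALPHA_key2
  rw [if_neg (not_lt.mpr (ALPHA_YZ.trans hu)), if_neg (not_lt.mpr hu)]

theorem ALPHA_key_Z1' {u : ℕ} (hu : ALPHA_OZ q1 R1 q2 q3 R3 ≤ u / 3) :
    ALPHA_key1 q1 R1 q2 q3 R3 u =
      q1 * R1 + 3 * ALPHA_OZ q1 R1 q2 q3 R3 + (u / 3 - ALPHA_OZ q1 R1 q2 q3 R3) / (q1 * q3) := by
  unfold ALPHA_key1
  rw [if_neg (not_lt.mpr (ALPHA_YZ.trans hu)), if_neg (not_lt.mpr hu)]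

theorem ALPHA_key_Z1 {t2 z1 z3 t1 t3 u : ℕ} (h4 : t1 < q1) (h5 : t3 < q3)
    (hu : u / 3 = ALPHA_Z q1 R1 q2 q3 R3 t2 z1 z3 t1 t3) :
    ALPHA_key1 q1 R1 q2 q3 R3 u =
      q1 * R1 + 3 * ALPHA_OZ q1 R1 q2 q3 R3 + BETA_N (3 * R1) (2 * R3) t2 z1 z3 := by
  rw [ALPHA_key_Z1' (by rw [hu]; exact ALPHA_Z_ge _ _ _ _ _), hu]
  unfold ALPHA_Z
  rw [Nat.add_sub_cancel_left, BETA_div h4 h5]

theorem ALPHA_Xdiv_lt {a : ℕ} (ha : a < ALPHA_OY q1 R1 q2 q3 R3) :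
    a / ((q3 * (2 * R3)) * q2) < q1 * R1 := by
  apply Nat.div_lt_of_lt_mul
  unfold ALPHA_OY at ha
  calc a < q1 * R1 * q2 * (q3 * (2 * R3)) := ha
    _ = q3 * (2 * R3) * q2 * (q1 * R1) := by ring

theorem ALPHA_mono1 {u u' : ℕ} (h : u < u') :
    ALPHA_key1 q1 R1 q2 q3 R3 u < ALPHA_key1 q1 R1 q2 q3 R3 u' ∨
      (ALPHA_key1 q1 R1 q2 q3 R3 u = ALPHA_key1 q1 R1 q2 q3 R3 u' ∧ ∀ γ γ',
        ALPHA_key2 q1 R1 q2 q3 R3 u γ = ALPHA_key2 q1 R1 q2 q3 R3 u' γ') := by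
  have h1 : u / 3 ≤ u' / 3 := Nat.div_le_div_right h.le
  by_cases ha : u / 3 < ALPHA_OY q1 R1 q2 q3 R3
  · by_cases ha' : u' / 3 < ALPHA_OY q1 R1 q2 q3 R3
    · have h2 : ALPHA_key1 q1 R1 q2 q3 R3 u ≤ ALPHA_key1 q1 R1 q2 q3 R3 u' := by
        unfold ALPHA_key1
        rw [if_pos ha, if_pos ha']
        exact Nat.div_le_div_right h1
      rcases h2.lt_or_eq with h3 | h3
      · exact Or.inl h3
      · refine Or.inr ⟨h3, fun γ γ' => ?_⟩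
        unfold ALPHA_key2
        rw [if_pos ha, if_pos ha']
    · left
      have h3 := ALPHA_Xdiv_lt ha
      unfold ALPHA_key1
      rw [if_pos ha, if_neg ha']
      split_ifs
      · exact h3.trans_le (Nat.le_add_right _ _)
      · exact h3.trans_le ((Nat.le_add_right _ _).trans (Nat.le_add_right _ _))
  · by_cases hb : u / 3 < ALPHA_OZ q1 R1 q2 q3 R3
    · left
      rw [ALPHA_key_1 (not_lt.mp ha) hb]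
      by_cases hb' : u' / 3 < ALPHA_OZ q1 R1 q2 q3 R3
      · rw [ALPHA_key_1 ((not_lt.mp ha).trans h1) hb']
        omega
      · rw [ALPHA_key_Z1' (not_lt.mp hb')]
        have h3 : u < 3 * ALPHA_OZ q1 R1 q2 q3 R3 := by omega
        calc q1 * R1 + u < q1 * R1 + 3 * ALPHA_OZ q1 R1 q2 q3 R3 := Nat.add_lt_add_left h3 _
          _ ≤ _ := Nat.le_add_right _ _
    · have h2 : ALPHA_key1 q1 R1 q2 q3 R3 u ≤ ALPHA_key1 q1 R1 q2 q3 R3 u' := by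
        rw [ALPHA_key_Z1' (not_lt.mp hb), ALPHA_key_Z1' ((not_lt.mp hb).trans h1)]
        exact Nat.add_le_add_left (Nat.div_le_div_right (Nat.sub_le_sub_right h1 _)) _
      rcases h2.lt_or_eq with h3 | h3
      · exact Or.inl h3
      · refine Or.inr ⟨h3, fun γ γ' => ?_⟩
        rw [ALPHA_key_Z2 (not_lt.mp hb), ALPHA_key_Z2 ((not_lt.mp hb).trans h1)]

theorem ALPHA_mono2 {u γ γ' : ℕ} (h : γ ≤ γ') :
    ALPHA_key2 q1 R1 q2 q3 R3 u γ ≤ ALPHA_key2 q1 R1 q2 q3 R3 u γ' := by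
  unfold ALPHA_key2
  by_cases h1 : u / 3 < ALPHA_OY q1 R1 q2 q3 R3
  · rw [if_pos h1, if_pos h1]
  rw [if_neg h1, if_neg h1]
  by_cases h2 : u / 3 < ALPHA_OZ q1 R1 q2 q3 R3
  · rw [if_pos h2, if_pos h2]
    by_cases h3 : γ < ALPHA_OY q1 R1 q2 q3 R3
    · rw [if_pos h3]
      by_cases h4 : γ' < ALPHA_OY q1 R1 q2 q3 R3
      · rw [if_pos h4]
        exact Nat.div_le_div_right h
      · rw [if_neg h4]
        exact (ALPHA_Xdiv_lt h3).le.trans (Nat.le_add_right _ _)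
    · rw [if_neg h3, if_neg (show ¬ γ' < ALPHA_OY q1 R1 q2 q3 R3 by omega)]
      exact Nat.add_le_add_left (Nat.div_le_div_right (by omega)) _
  · rw [if_neg h2, if_neg h2]

theorem ALPHA_mono {u γ u' γ' : ℕ} (h : u < u' ∨ (u = u' ∧ γ ≤ γ')) :
    ALPHA_key1 q1 R1 q2 q3 R3 u < ALPHA_key1 q1 R1 q2 q3 R3 u' ∨
      (ALPHA_key1 q1 R1 q2 q3 R3 u = ALPHA_key1 q1 R1 q2 q3 R3 u' ∧
        ALPHA_key2 q1 R1 q2 q3 R3 u γ ≤ ALPHA_key2 q1 R1 q2 q3 R3 u' γ') := by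
  rcases h with h | ⟨rfl, h⟩
  · rcases ALPHA_mono1 (q1 := q1) (R1 := R1) (q2 := q2) (q3 := q3) (R3 := R3) h with h1 | ⟨h1, h2⟩
    · exact Or.inl h1
    · exact Or.inr ⟨h1, (h2 γ γ').le⟩
  · exact Or.inr ⟨rfl, ALPHA_mono2 h⟩

theorem ALPHA_conv (u γ u' γ' u'' γ'' : ℕ) (h : u < u' ∨ (u = u' ∧ γ ≤ γ'))
    (h' : u' < u'' ∨ (u' = u'' ∧ γ' ≤ γ''))
    (e : (ALPHA_key1 q1 R1 q2 q3 R3 u, ALPHA_key2 q1 R1 q2 q3 R3 u γ) =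
      (ALPHA_key1 q1 R1 q2 q3 R3 u'', ALPHA_key2 q1 R1 q2 q3 R3 u'' γ'')) :
    (ALPHA_key1 q1 R1 q2 q3 R3 u', ALPHA_key2 q1 R1 q2 q3 R3 u' γ') =
      (ALPHA_key1 q1 R1 q2 q3 R3 u, ALPHA_key2 q1 R1 q2 q3 R3 u γ) := by
  have h1 := ALPHA_mono (q1 := q1) (R1 := R1) (q2 := q2) (q3 := q3) (R3 := R3) h
  have h2 := ALPHA_mono (q1 := q1) (R1 := R1) (q2 := q2) (q3 := q3) (R3 := R3) h'
  rw [Prod.mk.injEq] at e
  obtain ⟨e1, e2⟩ := e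
  exact Prod.ext (by change ALPHA_key1 q1 R1 q2 q3 R3 u' = ALPHA_key1 q1 R1 q2 q3 R3 u; omega)
    (by change ALPHA_key2 q1 R1 q2 q3 R3 u' γ' = ALPHA_key2 q1 R1 q2 q3 R3 u γ; omega)

variable (q1 R1 q2 q3 R3)

/-- the links between `X` and `Y` -/
def ALPHA_kA (D1 D3 : Finset ℕ) (a b : ℕ) : Prop :=
  ∃ t1 x1 t2 t3 x3 d1 d3 : ℕ, t1 < q1 ∧ x1 < R1 ∧ t2 < q2 ∧ t3 < q3 ∧ x3 < 2 * R3 ∧
    d1 ∈ D1 ∧ d3 ∈ D3 ∧ a = ALPHA_X R1 q2 q3 R3 t1 x1 t2 t3 x3 ∧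
    b = ALPHA_Y q1 R1 q2 q3 R3 (x1 + d1 + R1) (x3 + d3)

/-- the links between `Y` and `Z` -/
def ALPHA_kB (D1 D3 : Finset ℕ) (b c : ℕ) : Prop :=
  ∃ t2 y1 y3 d1 d3 z1 z3 t1 t3 : ℕ, t2 < q2 ∧ y1 < 4 * R1 ∧ y3 < 3 * R3 ∧ z1 < 3 * R1 ∧
    z3 < 2 * R3 ∧ t1 < q1 ∧ t3 < q3 ∧ d1 ∈ D1 ∧ d3 ∈ D3 ∧ z1 + R1 = y1 + d1 ∧
    z3 + R3 = y3 + d3 ∧ b = ALPHA_Y q1 R1 q2 q3 R3 y1 y3 ∧
    c = ALPHA_Z q1 R1 q2 q3 R3 t2 z1 z3 t1 t3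

/-- the index type of the planned triangles -/
abbrev ALPHA_E (D1 D3 : Finset ℕ) : Type :=
  Fin q2 × Fin q3 × Fin R3 × {x // x ∈ D1} × {x // x ∈ D3}

variable {D1 D3 : Finset ℕ}

/-- the vertices of the planned triangles -/
def ALPHA_tx (κ : Fin q1 × Fin R1) (e : ALPHA_E q2 q3 R3 D1 D3) : ℕ :=
  ALPHA_X R1 q2 q3 R3 κ.1 κ.2 e.1 e.2.1 (e.2.2.1 + R3 - e.2.2.2.2)

/-- the vertices of the planned triangles -/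
def ALPHA_ty (κ : Fin q1 × Fin R1) (e : ALPHA_E q2 q3 R3 D1 D3) : ℕ :=
  ALPHA_Y q1 R1 q2 q3 R3 (κ.2 + e.2.2.2.1 + R1) (e.2.2.1 + R3)

/-- the vertices of the planned triangles -/
def ALPHA_tz (κ : Fin q1 × Fin R1) (e : ALPHA_E q2 q3 R3 D1 D3) : ℕ :=
  ALPHA_Z q1 R1 q2 q3 R3 e.1 (κ.2 + 2 * e.2.2.2.1) (e.2.2.1 + e.2.2.2.2) κ.1 e.2.1

variable {q1 R1 q2 q3 R3}

/-- the coordinates of a triangle, as natural numbers with their bounds -/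
theorem ALPHA_coord (h1 : D1 ⊆ range R1) (h3 : D3 ⊆ range R3) (κ : Fin q1 × Fin R1)
    (e : ALPHA_E q2 q3 R3 D1 D3) : ∃ t1 x1 t2 t3 y3 d1 d3 : ℕ, t1 < q1 ∧ x1 < R1 ∧ t2 < q2 ∧
      t3 < q3 ∧ y3 < R3 ∧ d1 < R1 ∧ d3 < R3 ∧ d1 ∈ D1 ∧ d3 ∈ D3 ∧ (κ.1 : ℕ) = t1 ∧
      (κ.2 : ℕ) = x1 ∧ (e.1 : ℕ) = t2 ∧ (e.2.1 : ℕ) = t3 ∧ (e.2.2.1 : ℕ) = y3 ∧
      (e.2.2.2.1 : ℕ) = d1 ∧ (e.2.2.2.2 : ℕ) = d3 :=
  ⟨κ.1, κ.2, e.1, e.2.1, e.2.2.1, e.2.2.2.1, e.2.2.2.2, κ.1.2, κ.2.2, e.1.2, e.2.1.2, e.2.2.1.2,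
    mem_range.mp (h1 e.2.2.2.1.2), mem_range.mp (h3 e.2.2.2.2.2), e.2.2.2.1.2, e.2.2.2.2.2,
    rfl, rfl, rfl, rfl, rfl, rfl, rfl⟩

theorem ALPHA_ext {κ κ' : Fin q1 × Fin R1} {e e' : ALPHA_E q2 q3 R3 D1 D3}
    (h0 : (κ.1 : ℕ) = κ'.1) (h1 : (κ.2 : ℕ) = κ'.2)
    (h2 : (e.1 : ℕ) = e'.1) (h3 : (e.2.1 : ℕ) = e'.2.1) (h4 : (e.2.2.1 : ℕ) = e'.2.2.1)
    (h5 : (e.2.2.2.1 : ℕ) = e'.2.2.2.1) (h6 : (e.2.2.2.2 : ℕ) = e'.2.2.2.2) :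
    κ = κ' ∧ e = e' :=
  ⟨Prod.ext (Fin.ext h0) (Fin.ext h1), Prod.ext (Fin.ext h2) (Prod.ext (Fin.ext h3)
    (Prod.ext (Fin.ext h4) (Prod.ext (Subtype.ext h5) (Subtype.ext h6))))⟩

theorem ALPHA_ty_ge (κ : Fin q1 × Fin R1) (e : ALPHA_E q2 q3 R3 D1 D3) :
    ALPHA_OY q1 R1 q2 q3 R3 ≤ ALPHA_ty q1 R1 q2 q3 R3 κ e := ALPHA_Y_ge _ _

theorem ALPHA_ty_lt (h1 : D1 ⊆ range R1) (h3 : D3 ⊆ range R3) (κ : Fin q1 × Fin R1)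
    (e : ALPHA_E q2 q3 R3 D1 D3) : ALPHA_ty q1 R1 q2 q3 R3 κ e < ALPHA_OZ q1 R1 q2 q3 R3 := by
  obtain ⟨t1, x1, t2, t3, y3, d1, d3, b1, b2, b3, b4, b5, b6, b7, m1, m3, e1, e2, e3, e4, e5,
    e6, e7⟩ := ALPHA_coord h1 h3 κ e
  unfold ALPHA_ty
  rw [e2, e5, e6]
  exact ALPHA_Y_lt (by omega) (by omega)

theorem ALPHA_tz_ge (κ : Fin q1 × Fin R1) (e : ALPHA_E q2 q3 R3 D1 D3) :
    ALPHA_OZ q1 R1 q2 q3 R3 ≤ ALPHA_tz q1 R1 q2 q3 R3 κ e := ALPHA_Z_ge _ _ _ _ _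

theorem ALPHA_injA (h1 : D1 ⊆ range R1) (h3 : D3 ⊆ range R3) (κ : Fin q1 × Fin R1)
    (e : ALPHA_E q2 q3 R3 D1 D3) (κ' : Fin q1 × Fin R1) (e' : ALPHA_E q2 q3 R3 D1 D3)
    (hx : ALPHA_tx q1 R1 q2 q3 R3 κ e = ALPHA_tx q1 R1 q2 q3 R3 κ' e')
    (hy : ALPHA_ty q1 R1 q2 q3 R3 κ e = ALPHA_ty q1 R1 q2 q3 R3 κ' e') :
    κ = κ' ∧ e = e' := by
  obtain ⟨t1, x1, t2, t3, y3, d1, d3, b1, b2, b3, b4, b5, b6, b7, m1, m3, e1, e2, e3, e4, e5,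
    e6, e7⟩ := ALPHA_coord h1 h3 κ e
  obtain ⟨t1', x1', t2', t3', y3', d1', d3', b1', b2', b3', b4', b5', b6', b7', m1', m3', e1', e2',
    e3', e4', e5', e6', e7'⟩ := ALPHA_coord h1 h3 κ' e'
  unfold ALPHA_tx at hx
  unfold ALPHA_ty at hy
  rw [e1, e2, e3, e4, e5, e7, e1', e2', e3', e4', e5', e7'] at hx
  rw [e2, e5, e6, e2', e5', e6'] at hy
  obtain ⟨f1, f2, f3, f4, f5⟩ := ALPHA_X_inj (by omega) (by omega) (by omega) (by omega) (by omega)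
    (by omega) (by omega) (by omega) hx
  obtain ⟨f6, f7⟩ := ALPHA_Y_inj (by omega) (by omega) hy
  apply ALPHA_ext <;> omega

theorem ALPHA_injB (h1 : D1 ⊆ range R1) (h3 : D3 ⊆ range R3) (κ : Fin q1 × Fin R1)
    (e : ALPHA_E q2 q3 R3 D1 D3) (κ' : Fin q1 × Fin R1) (e' : ALPHA_E q2 q3 R3 D1 D3)
    (hy : ALPHA_ty q1 R1 q2 q3 R3 κ e = ALPHA_ty q1 R1 q2 q3 R3 κ' e')
    (hz : ALPHA_tz q1 R1 q2 q3 R3 κ e = ALPHA_tz q1 R1 q2 q3 R3 κ' e') :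
    κ = κ' ∧ e = e' := by
  obtain ⟨t1, x1, t2, t3, y3, d1, d3, b1, b2, b3, b4, b5, b6, b7, m1, m3, e1, e2, e3, e4, e5,
    e6, e7⟩ := ALPHA_coord h1 h3 κ e
  obtain ⟨t1', x1', t2', t3', y3', d1', d3', b1', b2', b3', b4', b5', b6', b7', m1', m3', e1', e2',
    e3', e4', e5', e6', e7'⟩ := ALPHA_coord h1 h3 κ' e'
  unfold ALPHA_tz at hz
  unfold ALPHA_ty at hy
  rw [e1, e2, e3, e4, e5, e6, e7, e1', e2', e3', e4', e5', e6', e7'] at hz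
  rw [e2, e5, e6, e2', e5', e6'] at hy
  obtain ⟨f1, f2, f3, f4, f5⟩ := ALPHA_Z_inj (by omega) (by omega) (by omega) (by omega) (by omega)
    (by omega) (by omega) (by omega) hz
  obtain ⟨f6, f7⟩ := ALPHA_Y_inj (by omega) (by omega) hy
  apply ALPHA_ext <;> omega

theorem ALPHA_tri (h1 : D1 ⊆ range R1) (h3 : D3 ⊆ range R3)
    (f1 : ThreeAPFree (D1 : Set ℕ)) (f3 : ThreeAPFree (D3 : Set ℕ)) (a b c : ℕ)
    (hA : ALPHA_kA q1 R1 q2 q3 R3 D1 D3 a b) (hB : ALPHA_kB q1 R1 q2 q3 R3 D1 D3 b c)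
    (hC : ∃ (κ : Fin q1 × Fin R1) (e : ALPHA_E q2 q3 R3 D1 D3),
      ALPHA_tx q1 R1 q2 q3 R3 κ e = a ∧ ALPHA_tz q1 R1 q2 q3 R3 κ e = c) :
    ∃ (κ : Fin q1 × Fin R1) (e : ALPHA_E q2 q3 R3 D1 D3), ALPHA_tx q1 R1 q2 q3 R3 κ e = a ∧
      ALPHA_ty q1 R1 q2 q3 R3 κ e = b ∧ ALPHA_tz q1 R1 q2 q3 R3 κ e = c := by
  obtain ⟨κ, e, hx, hz⟩ := hC
  refine ⟨κ, e, hx, ?_, hz⟩
  obtain ⟨T1, X1, T2, T3, Y3, u1, u3, b1, b2, b3, b4, b5, b6, b7, m1, m3, e1, e2, e3, e4, e5,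
    e6, e7⟩ := ALPHA_coord h1 h3 κ e
  obtain ⟨t1, x1, t2, t3, x3, d1, d3, c1, c2, c3, c4, c5, n1, n3, ha, hb⟩ := hA
  obtain ⟨t2', y1', y3', g1, g3, z1, z3, t1', t3', i1, i2, i3, i4, i5, i6, i7, o1, o3, i8, i9, hb',
    hc⟩ := hB
  have q1' := mem_range.mp (h1 n1)
  have q3' := mem_range.mp (h3 n3)
  have q4' := mem_range.mp (h1 o1)
  have q6' := mem_range.mp (h3 o3)
  unfold ALPHA_tx at hx
  unfold ALPHA_tz at hz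
  rw [e1, e2, e3, e4, e5, e7, ha] at hx
  rw [e1, e2, e3, e4, e5, e6, e7, hc] at hz
  rw [hb] at hb'
  obtain ⟨r1, r2, r3, r4, r5⟩ := ALPHA_X_inj (by omega) (by omega) (by omega) (by omega)
    (by omega) (by omega) (by omega) (by omega) hx
  obtain ⟨s1, s2, s3, s4, s5⟩ := ALPHA_Z_inj (by omega) (by omega) (by omega) (by omega)
    (by omega) (by omega) (by omega) (by omega) hz
  obtain ⟨r7, r8⟩ := ALPHA_Y_inj (by omega) (by omega) hb'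
  have w1 : d1 = u1 := f1 n1 m1 o1 (by omega)
  have w3 : d3 = u3 := f3 n3 m3 o3 (by omega)
  unfold ALPHA_ty
  rw [e2, e5, e6, hb]
  congr 1 <;> omega

theorem ALPHA_one (h1 : D1 ⊆ range R1) (h3 : D3 ⊆ range R3)
    (u γ v δ : ℕ) (κ : Fin q1 × Fin R1) (e : ALPHA_E q2 q3 R3 D1 D3) (κ' : Fin q1 × Fin R1)
    (e' : ALPHA_E q2 q3 R3 D1 D3)
    (hu : (u / 3 = ALPHA_tx q1 R1 q2 q3 R3 κ e ∧ γ = ALPHA_ty q1 R1 q2 q3 R3 κ e) ∨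
      (u / 3 = ALPHA_ty q1 R1 q2 q3 R3 κ e ∧ γ = ALPHA_tx q1 R1 q2 q3 R3 κ e))
    (hv : (v / 3 = ALPHA_tx q1 R1 q2 q3 R3 κ' e' ∧ δ = ALPHA_ty q1 R1 q2 q3 R3 κ' e') ∨
      (v / 3 = ALPHA_ty q1 R1 q2 q3 R3 κ' e' ∧ δ = ALPHA_tx q1 R1 q2 q3 R3 κ' e'))
    (hk : (ALPHA_key1 q1 R1 q2 q3 R3 u, ALPHA_key2 q1 R1 q2 q3 R3 u γ) =
      (ALPHA_key1 q1 R1 q2 q3 R3 v, ALPHA_key2 q1 R1 q2 q3 R3 v δ)) : κ = κ' := by
  have key : ∀ (u γ : ℕ) (κ : Fin q1 × Fin R1) (e : ALPHA_E q2 q3 R3 D1 D3),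
      ((u / 3 = ALPHA_tx q1 R1 q2 q3 R3 κ e ∧ γ = ALPHA_ty q1 R1 q2 q3 R3 κ e) ∨
        (u / 3 = ALPHA_ty q1 R1 q2 q3 R3 κ e ∧ γ = ALPHA_tx q1 R1 q2 q3 R3 κ e)) →
      (ALPHA_key1 q1 R1 q2 q3 R3 u = κ.1 * R1 + κ.2 ∧ ALPHA_key2 q1 R1 q2 q3 R3 u γ = 0) ∨
        (q1 * R1 ≤ ALPHA_key1 q1 R1 q2 q3 R3 u ∧
          ALPHA_key2 q1 R1 q2 q3 R3 u γ = κ.1 * R1 + κ.2) := by
    intro u γ κ e h
    have g1 := ALPHA_ty_ge (q2 := q2) (q3 := q3) (R3 := R3) κ e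
    have g2 := ALPHA_ty_lt h1 h3 κ e
    obtain ⟨t1, x1, t2, t3, y3, d1, d3, b1, b2, b3, b4, b5, b6, b7, m1, m3, e1, e2, e3, e4, e5,
      e6, e7⟩ := ALPHA_coord h1 h3 κ e
    rcases h with ⟨hu, -⟩ | ⟨hu, hγ⟩
    · left
      unfold ALPHA_tx at hu
      rw [e1, e2, e3, e4, e5, e7] at hu
      have h4 := ALPHA_key_X b1 b2 b3 b4 (by omega) hu γ
      rw [e1, e2]
      exact h4
    · right
      rw [← hu] at g1 g2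
      rw [ALPHA_key_1 g1 g2, hγ]
      refine ⟨Nat.le_add_right _ _, ?_⟩
      unfold ALPHA_tx
      rw [e1, e2, e3, e4, e5, e7]
      exact ALPHA_key_YX b1 b2 b3 b4 (by omega) g1 g2
  have k1 := key u γ κ e hu
  have k2 := key v δ κ' e' hv
  rw [Prod.mk.injEq] at hk
  obtain ⟨j1, j2⟩ := hk
  have l1 : (κ.1 : ℕ) * R1 + κ.2 < q1 * R1 := BETA_ltwo κ.1.2 κ.2.2
  have l2 : (κ'.1 : ℕ) * R1 + κ'.2 < q1 * R1 := BETA_ltwo κ'.1.2 κ'.2.2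
  have l3 : (κ.1 : ℕ) * R1 + κ.2 = κ'.1 * R1 + κ'.2 := by omega
  obtain ⟨l4, l5⟩ := BETA_two κ.2.2 κ'.2.2 l3
  exact Prod.ext (Fin.ext l4) (Fin.ext l5)

theorem ALPHA_few (h1 : D1 ⊆ range R1) (h3 : D3 ⊆ range R3)
    (c : ℕ × ℕ) (κ : Fin q1 × Fin R1) (s : Finset (ℕ × ℕ))
    (hs : ∀ p ∈ s, (ALPHA_key1 q1 R1 q2 q3 R3 p.1, ALPHA_key2 q1 R1 q2 q3 R3 p.1 p.2) = c ∧
      ∃ e : ALPHA_E q2 q3 R3 D1 D3,
        (p.1 / 3 = ALPHA_ty q1 R1 q2 q3 R3 κ e ∧ p.2 = ALPHA_tz q1 R1 q2 q3 R3 κ e) ∨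
        (p.1 / 3 = ALPHA_tz q1 R1 q2 q3 R3 κ e ∧ p.2 = ALPHA_ty q1 R1 q2 q3 R3 κ e)) :
    s.card ≤ 3 * (q3 * R3) := by
  rcases s.eq_empty_or_nonempty with rfl | ⟨p0, h0⟩
  · simp
  obtain ⟨hk0, e0, h0'⟩ := hs p0 h0
  obtain ⟨t1, x1, t2, t3, y3, d1, d3, b1, b2, b3, b4, b5, b6, b7, m1, m3, e1, e2, e3, e4, e5,
    e6, e7⟩ := ALPHA_coord h1 h3 κ e0
  have g1 := ALPHA_ty_ge (q2 := q2) (q3 := q3) (R3 := R3) κ e0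
  have g2 := ALPHA_ty_lt h1 h3 κ e0
  have g3 := ALPHA_tz_ge (q2 := q2) (q3 := q3) (R3 := R3) κ e0
  rcases h0' with ⟨hy0, hz0⟩ | ⟨hz0, hy0⟩
  · -- a row of `Y`
    have hsub : s ⊆ (range q3 ×ˢ range R3).image
        (fun t => (p0.1, ALPHA_Z q1 R1 q2 q3 R3 t2 (x1 + 2 * d1) (y3 + t.2) t1 t.1)) := by
      intro p hp
      obtain ⟨hk, e, he⟩ := hs p hp
      have j0 := hk.trans hk0.symm
      rw [Prod.mk.injEq] at j0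
      obtain ⟨j1, j2⟩ := j0
      rw [← hy0] at g1 g2
      rw [ALPHA_key_1 g1 g2] at j1
      have j6 : p0.1 < 3 * ALPHA_OZ q1 R1 q2 q3 R3 := by omega
      rcases he with ⟨hy, hz⟩ | ⟨hz, hy⟩
      · have k1 := ALPHA_ty_ge (q2 := q2) (q3 := q3) (R3 := R3) κ e
        have k2 := ALPHA_ty_lt h1 h3 κ e
        rw [← hy] at k1 k2
        rw [ALPHA_key_1 k1 k2] at j1
        have j3 : p.1 = p0.1 := Nat.add_left_cancel j1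
        obtain ⟨t1', x1', t2', t3', y3', d1', d3', b1', b2', b3', b4', b5', b6', b7', m1', m3',
          e1', e2', e3', e4', e5', e6', e7'⟩ := ALPHA_coord h1 h3 κ e
        have j4 : ALPHA_ty q1 R1 q2 q3 R3 κ e = ALPHA_ty q1 R1 q2 q3 R3 κ e0 := by
          rw [← hy, j3, hy0]
        unfold ALPHA_ty at j4
        rw [e2, e5, e6, e5', e6'] at j4
        obtain ⟨f1, f2⟩ := ALPHA_Y_inj (by omega) (by omega) j4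
        have e1t : t1' = t1 := e1'.symm.trans e1
        have e2t : x1' = x1 := e2'.symm.trans e2
        subst e1t e2t
        rw [j3, hz, hz0] at j2
        unfold ALPHA_tz at j2
        rw [e1, e2, e3, e4, e5, e6, e7, e3', e4', e5', e6', e7',
          ALPHA_key_YZ (by omega) (by omega) b1 b4' g1 g2,
          ALPHA_key_YZ (by omega) (by omega) b1 b4 g1 g2] at j2
        have j5 : t2' = t2 := Nat.add_left_cancel j2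
        rw [mem_image]
        refine ⟨(t3', d3'), ?_, ?_⟩
        · rw [mem_product]
          exact ⟨mem_range.mpr b4', mem_range.mpr b7'⟩
        · refine Prod.ext j3.symm ?_
          rw [hz]
          unfold ALPHA_tz
          rw [e1, e2, e3', e4', e5', e6', e7']
          change ALPHA_Z q1 R1 q2 q3 R3 t2 (x1' + 2 * d1) (y3 + d3') t1' t3' = _
          congr 1 <;> omega
      · have k3 := ALPHA_tz_ge (q2 := q2) (q3 := q3) (R3 := R3) κ e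
        rw [← hz] at k3
        rw [ALPHA_key_Z1' k3] at j1
        generalize (p.1 / 3 - ALPHA_OZ q1 R1 q2 q3 R3) / (q1 * q3) = w at j1
        omega
    calc s.card ≤ _ := card_le_card hsub
      _ ≤ (range q3 ×ˢ range R3).card := card_image_le
      _ = q3 * R3 := by rw [card_product, card_range, card_range]
      _ ≤ 3 * (q3 * R3) := Nat.le_mul_of_pos_left _ (by omega)
  · -- the rows of `Z`
    have hsub : s ⊆ (range 3 ×ˢ (range q3 ×ˢ range R3)).image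
        (fun t => (3 * ALPHA_Z q1 R1 q2 q3 R3 t2 (x1 + 2 * d1) (y3 + d3) t1 t.2.1 + t.1,
          ALPHA_Y q1 R1 q2 q3 R3 (x1 + d1 + R1) (t.2.2 + R3))) := by
      intro p hp
      obtain ⟨hk, e, he⟩ := hs p hp
      have j0 := hk.trans hk0.symm
      rw [Prod.mk.injEq] at j0
      obtain ⟨j1, -⟩ := j0
      rcases he with ⟨hy, hz⟩ | ⟨hz, hy⟩
      · have k1 := ALPHA_ty_ge (q2 := q2) (q3 := q3) (R3 := R3) κ e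
        have k2 := ALPHA_ty_lt h1 h3 κ e
        rw [← hy] at k1 k2
        rw [← hz0] at g3
        rw [ALPHA_key_1 k1 k2, ALPHA_key_Z1' g3] at j1
        generalize (p0.1 / 3 - ALPHA_OZ q1 R1 q2 q3 R3) / (q1 * q3) = w at j1
        omega
      · obtain ⟨t1', x1', t2', t3', y3', d1', d3', b1', b2', b3', b4', b5', b6', b7', m1', m3',
          e1', e2', e3', e4', e5', e6', e7'⟩ := ALPHA_coord h1 h3 κ e
        have e1t : t1' = t1 := e1'.symm.trans e1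
        have e2t : x1' = x1 := e2'.symm.trans e2
        subst e1t e2t
        unfold ALPHA_tz at hz hz0
        rw [e1, e2, e3', e4', e5', e6', e7'] at hz
        rw [e1, e2, e3, e4, e5, e6, e7] at hz0
        rw [ALPHA_key_Z1 b1 b4' hz, ALPHA_key_Z1 b1 b4 hz0] at j1
        obtain ⟨f1, f2, f3⟩ := BETA_inj (by omega) (by omega) (by omega) (by omega)
          (Nat.add_left_cancel j1)
        rw [mem_image]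
        refine ⟨(p.1 % 3, t3', y3'), ?_, ?_⟩
        · simp only [mem_product, mem_range]
          exact ⟨Nat.mod_lt _ (by norm_num), b4', b5'⟩
        · have k4 : ALPHA_Z q1 R1 q2 q3 R3 t2 (x1' + 2 * d1) (y3 + d3) t1' t3' = p.1 / 3 := by
            rw [hz]
            congr 1 <;> omega
          refine Prod.ext ?_ ?_
          · change 3 * ALPHA_Z q1 R1 q2 q3 R3 t2 (x1' + 2 * d1) (y3 + d3) t1' t3' + p.1 % 3 = p.1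
            rw [k4]
            omega
          · rw [hy]
            unfold ALPHA_ty
            rw [e2, e5', e6']
            change ALPHA_Y q1 R1 q2 q3 R3 (x1' + d1 + R1) (y3' + R3) = _
            congr 1
            omega
    calc s.card ≤ _ := card_le_card hsub
      _ ≤ (range 3 ×ˢ (range q3 ×ˢ range R3)).card := card_image_le
      _ = 3 * (q3 * R3) := by rw [card_product, card_product, card_range, card_range, card_range]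

/-- the links between `X` and `Z` -/
def ALPHA_kC (q1 R1 q2 q3 R3 : ℕ) (D1 D3 : Finset ℕ) (a c : ℕ) : Prop :=
  ∃ (κ : Fin q1 × Fin R1) (e : ALPHA_E q2 q3 R3 D1 D3), ALPHA_tx q1 R1 q2 q3 R3 κ e = a ∧
    ALPHA_tz q1 R1 q2 q3 R3 κ e = c

theorem ALPHA_bigXY (h1 : D1 ⊆ range R1) (h3 : D3 ⊆ range R3) (κ : Fin q1 × Fin R1)
    (e : ALPHA_E q2 q3 R3 D1 D3) (u : ℕ) (hu : u / 3 = ALPHA_tx q1 R1 q2 q3 R3 κ e) :
    ∃ s : Finset (ℕ × ℕ), min q2 (q1 * D1.card) * (q3 * D3.card) ≤ s.card ∧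
      ∀ p ∈ s, hasN (ALPHA_kA q1 R1 q2 q3 R3 D1 D3) (ALPHA_kB q1 R1 q2 q3 R3 D1 D3)
        (ALPHA_kC q1 R1 q2 q3 R3 D1 D3) (p.1 / 3) (p.1 % 3) p.2 ∧
        (ALPHA_key1 q1 R1 q2 q3 R3 p.1, ALPHA_key2 q1 R1 q2 q3 R3 p.1 p.2) =
          (ALPHA_key1 q1 R1 q2 q3 R3 u,
            ALPHA_key2 q1 R1 q2 q3 R3 u (ALPHA_ty q1 R1 q2 q3 R3 κ e)) := by
  obtain ⟨t1, x1, t2, t3, y3, d1, d3, b1, b2, b3, b4, b5, b6, b7, m1, m3, e1, e2, e3, e4, e5,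
    e6, e7⟩ := ALPHA_coord h1 h3 κ e
  have D3' : ∀ x ∈ D3, x < R3 := fun x hx => mem_range.mp (h3 hx)
  have hku : ALPHA_key1 q1 R1 q2 q3 R3 u = t1 * R1 + x1 ∧
      ALPHA_key2 q1 R1 q2 q3 R3 u (ALPHA_ty q1 R1 q2 q3 R3 κ e) = 0 := by
    unfold ALPHA_tx at hu
    rw [e1, e2, e3, e4, e5, e7] at hu
    exact ALPHA_key_X b1 b2 b3 b4 (by omega) hu _
  rw [hku.1, hku.2]
  refine ⟨_, le_trans ?_ (BETA_card (range q2 ×ˢ (range q3 ×ˢ D3)) (fun t =>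
    (3 * ALPHA_X R1 q2 q3 R3 t1 x1 t.1 t.2.1 t.2.2,
      ALPHA_Y q1 R1 q2 q3 R3 (x1 + d1 + R1) (t.2.2 + d3))) ?_), ?_⟩
  · rw [card_product, card_product, card_range, card_range]
    exact Nat.mul_le_mul_right _ (min_le_left _ _)
  · rintro ⟨a, b, c⟩ ha ⟨a', b', c'⟩ ha' hab
    simp only [mem_product, mem_range] at ha ha'
    have := D3' _ ha.2.2
    have := D3' _ ha'.2.2
    rw [Prod.mk.injEq] at hab
    have hab1 : ALPHA_X R1 q2 q3 R3 t1 x1 a b c = ALPHA_X R1 q2 q3 R3 t1 x1 a' b' c' := by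
      have := hab.1
      change 3 * ALPHA_X R1 q2 q3 R3 t1 x1 a b c =
        3 * ALPHA_X R1 q2 q3 R3 t1 x1 a' b' c' at this
      omega
    obtain ⟨-, -, f1, f2, f3⟩ := ALPHA_X_inj b2 b2 ha.1 ha'.1 ha.2.1 ha'.2.1 (by omega)
      (by omega) hab1
    exact Prod.ext f1 (Prod.ext f2 f3)
  · intro p hp
    obtain ⟨⟨a, b, c⟩, ha, rfl⟩ := mem_image.mp hp
    simp only [mem_product, mem_range] at ha
    obtain ⟨ha0, ha1, ha2⟩ := ha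
    have hc := D3' _ ha2
    change hasN _ _ _ (3 * ALPHA_X R1 q2 q3 R3 t1 x1 a b c / 3)
        (3 * ALPHA_X R1 q2 q3 R3 t1 x1 a b c % 3)
        (ALPHA_Y q1 R1 q2 q3 R3 (x1 + d1 + R1) (c + d3)) ∧
      (ALPHA_key1 q1 R1 q2 q3 R3 (3 * ALPHA_X R1 q2 q3 R3 t1 x1 a b c),
        ALPHA_key2 q1 R1 q2 q3 R3 (3 * ALPHA_X R1 q2 q3 R3 t1 x1 a b c)
          (ALPHA_Y q1 R1 q2 q3 R3 (x1 + d1 + R1) (c + d3))) = _
    have hdiv : 3 * ALPHA_X R1 q2 q3 R3 t1 x1 a b c / 3 = ALPHA_X R1 q2 q3 R3 t1 x1 a b c := by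
      omega
    have hmod : 3 * ALPHA_X R1 q2 q3 R3 t1 x1 a b c % 3 = 0 := by omega
    have hk := ALPHA_key_X b1 b2 ha0 ha1 (show c < 2 * R3 by omega) hdiv
      (ALPHA_Y q1 R1 q2 q3 R3 (x1 + d1 + R1) (c + d3))
    rw [hk.1, hk.2, hdiv, hmod]
    refine ⟨Or.inl ⟨Or.inl ?_, by omega⟩, rfl⟩
    exact ⟨t1, x1, a, b, c, d1, d3, b1, b2, ha0, ha1, by omega, m1, m3, rfl, rfl⟩

theorem ALPHA_bigYX (h1 : D1 ⊆ range R1) (h3 : D3 ⊆ range R3) (κ : Fin q1 × Fin R1)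
    (e : ALPHA_E q2 q3 R3 D1 D3) (u : ℕ) (hu : u / 3 = ALPHA_ty q1 R1 q2 q3 R3 κ e)
    (hi : u % 3 ≤ 1) :
    ∃ s : Finset (ℕ × ℕ), min q2 (q1 * D1.card) * (q3 * D3.card) ≤ s.card ∧
      ∀ p ∈ s, hasN (ALPHA_kA q1 R1 q2 q3 R3 D1 D3) (ALPHA_kB q1 R1 q2 q3 R3 D1 D3)
        (ALPHA_kC q1 R1 q2 q3 R3 D1 D3) (p.1 / 3) (p.1 % 3) p.2 ∧
        (ALPHA_key1 q1 R1 q2 q3 R3 p.1, ALPHA_key2 q1 R1 q2 q3 R3 p.1 p.2) =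
          (ALPHA_key1 q1 R1 q2 q3 R3 u,
            ALPHA_key2 q1 R1 q2 q3 R3 u (ALPHA_tx q1 R1 q2 q3 R3 κ e)) := by
  have g1 := ALPHA_ty_ge (q2 := q2) (q3 := q3) (R3 := R3) κ e
  have g2 := ALPHA_ty_lt h1 h3 κ e
  rw [← hu] at g1 g2
  obtain ⟨t1, x1, t2, t3, y3, d1, d3, b1, b2, b3, b4, b5, b6, b7, m1, m3, e1, e2, e3, e4, e5,
    e6, e7⟩ := ALPHA_coord h1 h3 κ e
  have D3' : ∀ x ∈ D3, x < R3 := fun x hx => mem_range.mp (h3 hx)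
  unfold ALPHA_tx
  rw [e1, e2, e3, e4, e5, e7, ALPHA_key_YX b1 b2 b3 b4 (by omega) g1 g2]
  unfold ALPHA_ty at hu
  rw [e2, e5, e6] at hu
  refine ⟨_, le_trans ?_ (BETA_card (range q2 ×ˢ (range q3 ×ˢ D3)) (fun t =>
    (u, ALPHA_X R1 q2 q3 R3 t1 x1 t.1 t.2.1 (y3 + R3 - t.2.2))) ?_), ?_⟩
  · rw [card_product, card_product, card_range, card_range]
    exact Nat.mul_le_mul_right _ (min_le_left _ _)
  · rintro ⟨a, b, c⟩ ha ⟨a', b', c'⟩ ha' hab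
    simp only [mem_product, mem_range] at ha ha'
    have := D3' _ ha.2.2
    have := D3' _ ha'.2.2
    rw [Prod.mk.injEq] at hab
    have hab1 : ALPHA_X R1 q2 q3 R3 t1 x1 a b (y3 + R3 - c) =
      ALPHA_X R1 q2 q3 R3 t1 x1 a' b' (y3 + R3 - c') := hab.2
    obtain ⟨-, -, f1, f2, f3⟩ := ALPHA_X_inj b2 b2 ha.1 ha'.1 ha.2.1 ha'.2.1 (by omega)
      (by omega) hab1
    exact Prod.ext f1 (Prod.ext f2 (by change c = c'; omega))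
  · intro p hp
    obtain ⟨⟨a, b, c⟩, ha, rfl⟩ := mem_image.mp hp
    simp only [mem_product, mem_range] at ha
    obtain ⟨ha0, ha1, ha2⟩ := ha
    have hc := D3' _ ha2
    change hasN _ _ _ (u / 3) (u % 3) (ALPHA_X R1 q2 q3 R3 t1 x1 a b (y3 + R3 - c)) ∧
      (ALPHA_key1 q1 R1 q2 q3 R3 u,
        ALPHA_key2 q1 R1 q2 q3 R3 u (ALPHA_X R1 q2 q3 R3 t1 x1 a b (y3 + R3 - c))) = _
    rw [ALPHA_key_YX b1 b2 ha0 ha1 (by omega) g1 g2]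
    refine ⟨Or.inl ⟨Or.inr ?_, hi⟩, rfl⟩
    refine ⟨t1, x1, a, b, y3 + R3 - c, d1, c, b1, b2, ha0, ha1, by omega, m1, ha2, rfl, ?_⟩
    rw [hu]
    congr 1
    omega

theorem ALPHA_bigYZ (h1 : D1 ⊆ range R1) (h3 : D3 ⊆ range R3) (κ : Fin q1 × Fin R1)
    (e : ALPHA_E q2 q3 R3 D1 D3) (u : ℕ) (hu : u / 3 = ALPHA_ty q1 R1 q2 q3 R3 κ e)
    (hi : u % 3 ≠ 1) :
    ∃ s : Finset (ℕ × ℕ), min q2 (q1 * D1.card) * (q3 * D3.card) ≤ s.card ∧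
      ∀ p ∈ s, hasN (ALPHA_kA q1 R1 q2 q3 R3 D1 D3) (ALPHA_kB q1 R1 q2 q3 R3 D1 D3)
        (ALPHA_kC q1 R1 q2 q3 R3 D1 D3) (p.1 / 3) (p.1 % 3) p.2 ∧
        (ALPHA_key1 q1 R1 q2 q3 R3 p.1, ALPHA_key2 q1 R1 q2 q3 R3 p.1 p.2) =
          (ALPHA_key1 q1 R1 q2 q3 R3 u,
            ALPHA_key2 q1 R1 q2 q3 R3 u (ALPHA_tz q1 R1 q2 q3 R3 κ e)) := by
  have g1 := ALPHA_ty_ge (q2 := q2) (q3 := q3) (R3 := R3) κ e
  have g2 := ALPHA_ty_lt h1 h3 κ e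
  rw [← hu] at g1 g2
  obtain ⟨t1, x1, t2, t3, y3, d1, d3, b1, b2, b3, b4, b5, b6, b7, m1, m3, e1, e2, e3, e4, e5,
    e6, e7⟩ := ALPHA_coord h1 h3 κ e
  have D1' : ∀ x ∈ D1, x < R1 := fun x hx => mem_range.mp (h1 hx)
  have D3' : ∀ x ∈ D3, x < R3 := fun x hx => mem_range.mp (h3 hx)
  unfold ALPHA_tz
  rw [e1, e2, e3, e4, e5, e6, e7, ALPHA_key_YZ (by omega) (by omega) b1 b4 g1 g2]
  unfold ALPHA_ty at hu
  rw [e2, e5, e6] at hu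
  refine ⟨_, le_trans ?_ (BETA_card (range q1 ×ˢ (D1 ×ˢ (range q3 ×ˢ D3))) (fun t =>
    (u, ALPHA_Z q1 R1 q2 q3 R3 t2 (x1 + d1 + t.2.1) (y3 + t.2.2.2) t.1 t.2.2.1)) ?_), ?_⟩
  · rw [card_product, card_product, card_product, card_range, card_range, ← mul_assoc q1]
    exact Nat.mul_le_mul_right _ (min_le_right _ _)
  · rintro ⟨a, b, c, d⟩ ha ⟨a', b', c', d'⟩ ha' hab
    simp only [mem_product, mem_range] at ha ha'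
    have := D1' _ ha.2.1
    have := D1' _ ha'.2.1
    have := D3' _ ha.2.2.2
    have := D3' _ ha'.2.2.2
    rw [Prod.mk.injEq] at hab
    have hab1 : ALPHA_Z q1 R1 q2 q3 R3 t2 (x1 + d1 + b) (y3 + d) a c =
      ALPHA_Z q1 R1 q2 q3 R3 t2 (x1 + d1 + b') (y3 + d') a' c' := hab.2
    obtain ⟨-, f1, f2, f3, f4⟩ := ALPHA_Z_inj (by omega) (by omega) (by omega) (by omega) ha.1
      ha'.1 ha.2.2.1 ha'.2.2.1 hab1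
    exact Prod.ext f3 (Prod.ext (by change b = b'; omega)
      (Prod.ext f4 (by change d = d'; omega)))
  · intro p hp
    obtain ⟨⟨a, b, c, d⟩, ha, rfl⟩ := mem_image.mp hp
    simp only [mem_product, mem_range] at ha
    obtain ⟨ha0, ha1, ha2, ha3⟩ := ha
    have hb := D1' _ ha1
    have hd := D3' _ ha3
    change hasN _ _ _ (u / 3) (u % 3)
        (ALPHA_Z q1 R1 q2 q3 R3 t2 (x1 + d1 + b) (y3 + d) a c) ∧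
      (ALPHA_key1 q1 R1 q2 q3 R3 u, ALPHA_key2 q1 R1 q2 q3 R3 u
        (ALPHA_Z q1 R1 q2 q3 R3 t2 (x1 + d1 + b) (y3 + d) a c)) = _
    rw [ALPHA_key_YZ (by omega) (by omega) ha0 ha2 g1 g2]
    refine ⟨Or.inr (Or.inl ⟨?_, hi⟩), rfl⟩
    exact ⟨t2, x1 + d1 + R1, y3 + R3, b, d, x1 + d1 + b, y3 + d, a, c, b3, by omega, by omega,
      by omega, by omega, ha0, ha2, ha1, ha3, by omega, by omega, hu, rfl⟩

theorem ALPHA_bigZY (h1 : D1 ⊆ range R1) (h3 : D3 ⊆ range R3) (κ : Fin q1 × Fin R1)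
    (e : ALPHA_E q2 q3 R3 D1 D3) (u : ℕ) (hu : u / 3 = ALPHA_tz q1 R1 q2 q3 R3 κ e) :
    ∃ s : Finset (ℕ × ℕ), min q2 (q1 * D1.card) * (q3 * D3.card) ≤ s.card ∧
      ∀ p ∈ s, hasN (ALPHA_kA q1 R1 q2 q3 R3 D1 D3) (ALPHA_kB q1 R1 q2 q3 R3 D1 D3)
        (ALPHA_kC q1 R1 q2 q3 R3 D1 D3) (p.1 / 3) (p.1 % 3) p.2 ∧
        (ALPHA_key1 q1 R1 q2 q3 R3 p.1, ALPHA_key2 q1 R1 q2 q3 R3 p.1 p.2) =
          (ALPHA_key1 q1 R1 q2 q3 R3 u,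
            ALPHA_key2 q1 R1 q2 q3 R3 u (ALPHA_ty q1 R1 q2 q3 R3 κ e)) := by
  have g3 := ALPHA_tz_ge (q2 := q2) (q3 := q3) (R3 := R3) κ e
  rw [← hu] at g3
  obtain ⟨t1, x1, t2, t3, y3, d1, d3, b1, b2, b3, b4, b5, b6, b7, m1, m3, e1, e2, e3, e4, e5,
    e6, e7⟩ := ALPHA_coord h1 h3 κ e
  have D1' : ∀ x ∈ D1, x < R1 := fun x hx => mem_range.mp (h1 hx)
  have D3' : ∀ x ∈ D3, x < R3 := fun x hx => mem_range.mp (h3 hx)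
  unfold ALPHA_tz at hu
  rw [e1, e2, e3, e4, e5, e6, e7] at hu
  rw [ALPHA_key_Z2 g3, ALPHA_key_Z1 b1 b4 hu]
  refine ⟨_, le_trans ?_ (BETA_card (range q1 ×ˢ (D1 ×ˢ (range q3 ×ˢ D3))) (fun t =>
    (3 * ALPHA_Z q1 R1 q2 q3 R3 t2 (x1 + 2 * d1) (y3 + d3) t.1 t.2.2.1,
      ALPHA_Y q1 R1 q2 q3 R3 (x1 + 2 * d1 + R1 - t.2.1) (y3 + d3 + R3 - t.2.2.2))) ?_), ?_⟩
  · rw [card_product, card_product, card_product, card_range, card_range, ← mul_assoc q1]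
    exact Nat.mul_le_mul_right _ (min_le_right _ _)
  · rintro ⟨a, b, c, d⟩ ha ⟨a', b', c', d'⟩ ha' hab
    simp only [mem_product, mem_range] at ha ha'
    have := D1' _ ha.2.1
    have := D1' _ ha'.2.1
    have := D3' _ ha.2.2.2
    have := D3' _ ha'.2.2.2
    rw [Prod.mk.injEq] at hab
    have hab2 : ALPHA_Y q1 R1 q2 q3 R3 (x1 + 2 * d1 + R1 - b) (y3 + d3 + R3 - d) =
      ALPHA_Y q1 R1 q2 q3 R3 (x1 + 2 * d1 + R1 - b') (y3 + d3 + R3 - d') := hab.2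
    have hab1 : ALPHA_Z q1 R1 q2 q3 R3 t2 (x1 + 2 * d1) (y3 + d3) a c =
        ALPHA_Z q1 R1 q2 q3 R3 t2 (x1 + 2 * d1) (y3 + d3) a' c' := by
      have := hab.1
      change 3 * ALPHA_Z q1 R1 q2 q3 R3 t2 (x1 + 2 * d1) (y3 + d3) a c =
        3 * ALPHA_Z q1 R1 q2 q3 R3 t2 (x1 + 2 * d1) (y3 + d3) a' c' at this
      omega
    obtain ⟨-, -, -, f3, f4⟩ := ALPHA_Z_inj (by omega) (by omega) (by omega) (by omega) ha.1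
      ha'.1 ha.2.2.1 ha'.2.2.1 hab1
    obtain ⟨f5, f6⟩ := ALPHA_Y_inj (by omega) (by omega) hab2
    exact Prod.ext f3 (Prod.ext (by change b = b'; omega)
      (Prod.ext f4 (by change d = d'; omega)))
  · intro p hp
    obtain ⟨⟨a, b, c, d⟩, ha, rfl⟩ := mem_image.mp hp
    simp only [mem_product, mem_range] at ha
    obtain ⟨ha0, ha1, ha2, ha3⟩ := ha
    have hb := D1' _ ha1
    have hd := D3' _ ha3
    change hasN _ _ _ (3 * ALPHA_Z q1 R1 q2 q3 R3 t2 (x1 + 2 * d1) (y3 + d3) a c / 3)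
        (3 * ALPHA_Z q1 R1 q2 q3 R3 t2 (x1 + 2 * d1) (y3 + d3) a c % 3)
        (ALPHA_Y q1 R1 q2 q3 R3 (x1 + 2 * d1 + R1 - b) (y3 + d3 + R3 - d)) ∧
      (ALPHA_key1 q1 R1 q2 q3 R3 (3 * ALPHA_Z q1 R1 q2 q3 R3 t2 (x1 + 2 * d1) (y3 + d3) a c),
        ALPHA_key2 q1 R1 q2 q3 R3 (3 * ALPHA_Z q1 R1 q2 q3 R3 t2 (x1 + 2 * d1) (y3 + d3) a c)
          (ALPHA_Y q1 R1 q2 q3 R3 (x1 + 2 * d1 + R1 - b) (y3 + d3 + R3 - d))) = _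
    have hdiv : 3 * ALPHA_Z q1 R1 q2 q3 R3 t2 (x1 + 2 * d1) (y3 + d3) a c / 3 =
        ALPHA_Z q1 R1 q2 q3 R3 t2 (x1 + 2 * d1) (y3 + d3) a c := by omega
    have hmod : 3 * ALPHA_Z q1 R1 q2 q3 R3 t2 (x1 + 2 * d1) (y3 + d3) a c % 3 = 0 := by omega
    rw [ALPHA_key_Z1 ha0 ha2 hdiv, ALPHA_key_Z2 (by rw [hdiv]; exact ALPHA_Z_ge _ _ _ _ _), hdiv,
      hmod]
    refine ⟨Or.inr (Or.inr (Or.inl ⟨?_, by omega⟩)), rfl⟩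
    exact ⟨t2, x1 + 2 * d1 + R1 - b, y3 + d3 + R3 - d, b, d, x1 + 2 * d1, y3 + d3, a, c, b3,
      by omega, by omega, by omega, by omega, ha0, ha2, ha1, ha3, by omega, by omega, rfl, rfl⟩

theorem ALPHA_cells (h1 : D1 ⊆ range R1) (h3 : D3 ⊆ range R3)
    (s : Finset (ℕ × ℕ)) (hs : ∀ p ∈ s, hasN (ALPHA_kA q1 R1 q2 q3 R3 D1 D3)
      (ALPHA_kB q1 R1 q2 q3 R3 D1 D3) (ALPHA_kC q1 R1 q2 q3 R3 D1 D3) (p.1 / 3) (p.1 % 3) p.2) :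
    s.card ≤ 72 * (q1 * R1 * q2 * (q3 * R3)) * (R1 * R3) := by
  have c1 : D1.card ≤ R1 := (card_le_card h1).trans (card_range R1).le
  have c3 : D3.card ≤ R3 := (card_le_card h3).trans (card_range R3).le
  have c4 : D1.card * D3.card ≤ R1 * R3 := Nat.mul_le_mul c1 c3
  have h := BETA_cells_gen _ _ _
    ((range q1 ×ˢ (range R1 ×ˢ (range q2 ×ˢ (range q3 ×ˢ (range (2 * R3) ×ˢ
      (D1 ×ˢ D3)))))).image
      fun t => (ALPHA_X R1 q2 q3 R3 t.1 t.2.1 t.2.2.1 t.2.2.2.1 t.2.2.2.2.1,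
        ALPHA_Y q1 R1 q2 q3 R3 (t.2.1 + t.2.2.2.2.2.1 + R1) (t.2.2.2.2.1 + t.2.2.2.2.2.2)))
    ((range q2 ×ˢ (range (3 * R1) ×ˢ (range (2 * R3) ×ˢ (range q1 ×ˢ (range q3 ×ˢ
      (D1 ×ˢ D3)))))).image
      fun t => (ALPHA_Y q1 R1 q2 q3 R3 (t.2.1 + R1 - t.2.2.2.2.2.1)
          (t.2.2.1 + R3 - t.2.2.2.2.2.2),
        ALPHA_Z q1 R1 q2 q3 R3 t.1 t.2.1 t.2.2.1 t.2.2.2.1 t.2.2.2.2.1))
    ((univ : Finset ((Fin q1 × Fin R1) × ALPHA_E q2 q3 R3 D1 D3)).image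
      fun t => (ALPHA_tx q1 R1 q2 q3 R3 t.1 t.2, ALPHA_tz q1 R1 q2 q3 R3 t.1 t.2))
    (2 * (q1 * R1 * q2 * (q3 * R3)) * (R1 * R3)) (6 * (q1 * R1 * q2 * (q3 * R3)) * (R1 * R3))
    (2 * (q1 * R1 * q2 * (q3 * R3)) * (R1 * R3)) ?_ ?_ ?_ ?_ ?_ ?_ s hs
  · calc s.card ≤ _ := h
      _ = 36 * ((q1 * R1 * q2 * (q3 * R3)) * (R1 * R3)) := by ring
      _ ≤ 72 * ((q1 * R1 * q2 * (q3 * R3)) * (R1 * R3)) := Nat.mul_le_mul_right _ (by omega)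
      _ = _ := by ring
  · rintro a b ⟨t1, x1, t2, t3, x3, d1, d3, c1, c2, c3, c4, c5, n1, n3, rfl, rfl⟩
    rw [mem_image]
    refine ⟨(t1, x1, t2, t3, x3, d1, d3), ?_, rfl⟩
    simp only [mem_product, mem_range]
    exact ⟨c1, c2, c3, c4, c5, n1, n3⟩
  · rintro a b ⟨t2', y1', y3', g1, g3, z1, z3, t1', t3', i1, i2, i3, i4, i5, i6, i7, o1, o3, i8,
      i9, rfl, rfl⟩
    rw [mem_image]
    refine ⟨(t2', z1, z3, t1', t3', g1, g3), ?_, ?_⟩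
    · simp only [mem_product, mem_range]
      exact ⟨i1, i4, i5, i6, i7, o1, o3⟩
    · refine Prod.ext ?_ rfl
      change ALPHA_Y q1 R1 q2 q3 R3 (z1 + R1 - g1) (z3 + R3 - g3) = _
      congr 1 <;> omega
  · rintro a b ⟨κ, e, rfl, rfl⟩
    rw [mem_image]
    exact ⟨(κ, e), mem_univ _, rfl⟩
  · refine card_image_le.trans ?_
    simp only [card_product, card_range]
    calc q1 * (R1 * (q2 * (q3 * (2 * R3 * (D1.card * D3.card)))))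
        ≤ q1 * (R1 * (q2 * (q3 * (2 * R3 * (R1 * R3))))) := by gcongr
      _ = 2 * (q1 * R1 * q2 * (q3 * R3)) * (R1 * R3) := by ring
  · refine card_image_le.trans ?_
    simp only [card_product, card_range]
    calc q2 * (3 * R1 * (2 * R3 * (q1 * (q3 * (D1.card * D3.card)))))
        ≤ q2 * (3 * R1 * (2 * R3 * (q1 * (q3 * (R1 * R3))))) := by gcongr
      _ = 6 * (q1 * R1 * q2 * (q3 * R3)) * (R1 * R3) := by ring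
  · refine card_image_le.trans ?_
    rw [card_univ]
    simp only [Fintype.card_prod, Fintype.card_coe, Fintype.card_fin]
    calc q1 * R1 * (q2 * (q3 * (R3 * (D1.card * D3.card))))
        ≤ q1 * R1 * (q2 * (q3 * (R3 * (R1 * R3)))) := by gcongr
      _ ≤ 2 * (q1 * R1 * (q2 * (q3 * (R3 * (R1 * R3))))) := Nat.le_mul_of_pos_left _ (by omega)
      _ = 2 * (q1 * R1 * q2 * (q3 * R3)) * (R1 * R3) := by ring

/-- the frame -/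
def ALPHA_frame (hb : 0 < q3 * R3) (h1 : D1 ⊆ range R1) (h3 : D3 ⊆ range R3)
    (f1 : ThreeAPFree (D1 : Set ℕ)) (f3 : ThreeAPFree (D3 : Set ℕ))
    (hl : 0 < min q2 (q1 * D1.card) * (q3 * D3.card)) :
    Frame (Fin q1 × Fin R1) (ALPHA_E q2 q3 R3 D1 D3) where
  Γ := ALPHA_Γ q1 R1 q2 q3 R3
  OY := ALPHA_OY q1 R1 q2 q3 R3
  OZ := ALPHA_OZ q1 R1 q2 q3 R3
  kA := ALPHA_kA q1 R1 q2 q3 R3 D1 D3
  kB := ALPHA_kB q1 R1 q2 q3 R3 D1 D3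
  kC := ALPHA_kC q1 R1 q2 q3 R3 D1 D3
  tx := ALPHA_tx q1 R1 q2 q3 R3
  ty := ALPHA_ty q1 R1 q2 q3 R3
  tz := ALPHA_tz q1 R1 q2 q3 R3
  key := fun u γ => (ALPHA_key1 q1 R1 q2 q3 R3 u, ALPHA_key2 q1 R1 q2 q3 R3 u γ)
  len := min q2 (q1 * D1.card) * (q3 * D3.card)
  b0 := 3 * (q3 * R3)
  Bd := 72 * (q1 * R1 * q2 * (q3 * R3)) * (R1 * R3)
  hlen := hl
  hb0 := Nat.mul_pos (by norm_num) hb
  hA := by
    rintro a b ⟨t1, x1, t2, t3, x3, d1, d3, c1, c2, c3, c4, c5, n1, n3, rfl, rfl⟩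
    have q1 := mem_range.mp (h1 n1)
    have q3 := mem_range.mp (h3 n3)
    exact ⟨ALPHA_X_lt c1 c2 c3 c4 c5, ALPHA_Y_ge _ _, ALPHA_Y_lt (by omega) (by omega)⟩
  hB := by
    rintro b c ⟨t2', y1', y3', g1, g3, z1, z3, t1', t3', i1, i2, i3, i4, i5, i6, i7, o1, o3, i8,
      i9, rfl, rfl⟩
    exact ⟨ALPHA_Y_ge _ _, ALPHA_Y_lt i2 i3, ALPHA_Z_ge _ _ _ _ _, ALPHA_Z_lt i1 i4 i5 i6 i7⟩
  hC := by
    rintro a c ⟨κ, e, rfl, rfl⟩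
    obtain ⟨t1, x1, t2, t3, y3, d1, d3, b1, b2, b3, b4, b5, b6, b7, m1, m3, e1, e2, e3, e4, e5,
      e6, e7⟩ := ALPHA_coord h1 h3 κ e
    unfold ALPHA_tx ALPHA_tz
    rw [e1, e2, e3, e4, e5, e6, e7]
    exact ⟨ALPHA_X_lt b1 b2 b3 b4 (by omega), ALPHA_Z_ge _ _ _ _ _,
      ALPHA_Z_lt b3 (by omega) (by omega) b1 b4⟩
  hYZ := ALPHA_YZ
  hZ := Nat.le_add_right _ _
  pA := by
    intro κ e
    obtain ⟨t1, x1, t2, t3, y3, d1, d3, b1, b2, b3, b4, b5, b6, b7, m1, m3, e1, e2, e3, e4, e5,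
      e6, e7⟩ := ALPHA_coord h1 h3 κ e
    unfold ALPHA_tx ALPHA_ty
    rw [e1, e2, e3, e4, e5, e6, e7]
    refine ⟨t1, x1, t2, t3, y3 + R3 - d3, d1, d3, b1, b2, b3, b4, by omega, m1, m3, rfl, ?_⟩
    congr 1
    omega
  pB := by
    intro κ e
    obtain ⟨t1, x1, t2, t3, y3, d1, d3, b1, b2, b3, b4, b5, b6, b7, m1, m3, e1, e2, e3, e4, e5,
      e6, e7⟩ := ALPHA_coord h1 h3 κ e
    unfold ALPHA_ty ALPHA_tz
    rw [e1, e2, e3, e4, e5, e6, e7]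
    exact ⟨t2, x1 + d1 + R1, y3 + R3, d1, d3, x1 + 2 * d1, y3 + d3, t1, t3, b3, by omega,
      by omega, by omega, by omega, b1, b4, m1, m3, by omega, by omega, rfl, rfl⟩
  pC := fun κ e => ⟨κ, e, rfl, rfl⟩
  injA := ALPHA_injA h1 h3
  injB := ALPHA_injB h1 h3
  tri := ALPHA_tri h1 h3 f1 f3
  conv := ALPHA_conv
  one := ALPHA_one h1 h3
  few := ALPHA_few h1 h3
  bigXY := fun κ e u hu _ => ALPHA_bigXY h1 h3 κ e u hu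
  bigYX := ALPHA_bigYX h1 h3
  bigYZ := ALPHA_bigYZ h1 h3
  bigZY := fun κ e u hu _ => ALPHA_bigZY h1 h3 κ e u hu
  cells := ALPHA_cells h1 h3

end

/-- Sparse frames exist. -/
theorem m_ALPHA : S_ALPHA := by
  intro q1 R1 q2 q3 R3 hq1 hR1 hq2 hq3 hR3
  obtain ⟨D1, h1, c1, f1⟩ := rothNumberNat_spec R1
  obtain ⟨D3, h3, c3, f3⟩ := rothNumberNat_spec R3
  have hpos : ∀ m : ℕ, 0 < m → 0 < rothNumberNat m := by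
    intro m hm
    have h1 : 1 ≤ rothNumberNat m :=
      ThreeAPFree.le_rothNumberNat {0} (by simp) (by simpa using hm) (by simp)
    exact h1
  have p1 := hpos R1 hR1
  have p3 := hpos R3 hR3
  have hl : 0 < min q2 (q1 * D1.card) * (q3 * D3.card) := by
    rw [c1, c3]
    exact Nat.mul_pos (lt_min hq2 (Nat.mul_pos hq1 p1)) (Nat.mul_pos hq3 p3)
  refine ⟨Fin q1 × Fin R1, ALPHA_E q2 q3 R3 D1 D3, inferInstance, inferInstance, inferInstance,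
    Classical.decEq _, ALPHA_frame (Nat.mul_pos hq3 hR3) h1 h3 f1 f3 hl, ?_, le_rfl, ?_, rfl, ?_,
    ?_⟩
  · change ALPHA_Γ q1 R1 q2 q3 R3 ≤ _
    unfold ALPHA_Γ ALPHA_OZ ALPHA_OY
    have g1 : 1 ≤ q1 * q2 * q3 := Nat.mul_pos (Nat.mul_pos hq1 hq2) hq3
    calc q1 * R1 * q2 * (q3 * (2 * R3)) + 4 * R1 * (3 * R3) +
          q2 * (3 * R1 * (2 * R3)) * (q1 * q3)
        = 8 * (q1 * R1 * q2 * (q3 * R3)) + 12 * (1 * (R1 * R3)) := by ring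
      _ ≤ 8 * (q1 * R1 * q2 * (q3 * R3)) + 12 * (q1 * q2 * q3 * (R1 * R3)) := by gcongr
      _ = 20 * (q1 * R1 * q2 * (q3 * R3)) := by ring
      _ ≤ 28 * (q1 * R1 * q2 * (q3 * R3)) := Nat.mul_le_mul_right _ (by omega)
  · change min q2 (q1 * D1.card) * (q3 * D3.card) = _
    rw [c1, c3]
  · rw [Fintype.card_prod, Fintype.card_fin, Fintype.card_fin]
  · simp only [Fintype.card_prod, Fintype.card_coe, Fintype.card_fin, c1, c3]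
    ring

end Pool.Agent.HDL
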