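import Pool.Agent.HDL.Main
import Pool.Agent.HDL.M_ALPHA
import Pool.Agent.HDL.M_BETA
import Pool.Agent.HDL.Exact

/-!
# The theorem
-/

namespace Pool.Agent.HDL

/-- the final theorem, without hypotheses -/
theorem main : S_MAIN := main_of m_BETA m_ALPHA m_GAD2

end Pool.Agent.HDL
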