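import Mathlib
import Pool.Agent.HDL.Avg

/-!
# Averaging over the random seed
-/

set_option linter.unusedSectionVars false

open MeasureTheory

namespace Pool.Agent.HDL

open Finset
open Pool.Agent.UT (msk ng)

/-- `M` decides with error probability at most `1 / 3` whether some core has a common bit, in
expected time at most `T`, and the expected value of the sum of `min D L.len` over all steps, in
which a head moves by `D` cells, is at most `L.len * V`. -/
structure Good {Lt k : ℕ} {W K E C Q Ω : Type} [MeasurableSpace Ω] (M : Machine Lt k W Q Ω)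
    (μ : Measure Ω) (L : Lay Lt W K E C) (T V : ℝ) : Prop where
  meas : ∀ (F : Dat K E) (t : ℕ) (c : Conf Lt k Q), MeasurableSet {ω | M.run ω (L.cont F) t = c}
  free : ∀ F : Dat K E, (∀ κ e, (F κ).1 e = true → (F κ).2 e = false) →
    2 / 3 ≤ μ.real {ω | ∃ t, M.answer (M.run ω (L.cont F) t) = some false}
  tri : ∀ F : Dat K E, (∃ κ e, (F κ).1 e = true ∧ (F κ).2 e = true) →
    2 / 3 ≤ μ.real {ω | ∃ t, M.answer (M.run ω (L.cont F) t) = some true}
  time : ∀ (F : Dat K E) (m : ℕ),
    ∑ t ∈ Finset.range m, μ.real {ω | M.answer (M.run ω (L.cont F) t) = none} ≤ T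
  moves : ∀ (F : Dat K E) (m : ℕ),
    ∑ t ∈ Finset.range m, ∑ j ∈ Finset.range L.len,
      μ.real {ω | M.answer (M.run ω (L.cont F) t) = none ∧
        j < travel (M.run ω (L.cont F) t) (M.run ω (L.cont F) (t + 1))} ≤ L.len * V

section Prob

variable {Lt k : ℕ} {W K E C Q Ω : Type} [Fintype Q] [MeasurableSpace Ω]
  (M : Machine Lt k W Q Ω) (μ : Measure Ω) [IsProbabilityMeasure μ] {L : Lay Lt W K E C} {T V : ℝ}

lemma meas_pair (hg : Good M μ L T V) (F : Dat K E) (t t' : ℕ)
    (P : Conf Lt k Q → Conf Lt k Q → Prop) :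
    MeasurableSet {ω | P (M.run ω (L.cont F) t) (M.run ω (L.cont F) t')} := by
  have e : {ω | P (M.run ω (L.cont F) t) (M.run ω (L.cont F) t')} =
      ⋃ c ∈ {c : Conf Lt k Q × Conf Lt k Q | P c.1 c.2},
        ({ω | M.run ω (L.cont F) t = c.1} ∩ {ω | M.run ω (L.cont F) t' = c.2}) := by
    ext ω
    simp
  rw [e]
  exact MeasurableSet.biUnion (Set.to_countable _)
    (fun c _ => (hg.meas F t c.1).inter (hg.meas F t' c.2))

lemma prob_none (hg : Good M μ L T V) (F : Dat K E) (m : ℕ) :
    m * μ.real {ω | M.answer (M.run ω (L.cont F) m) = none} ≤ T := by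
  refine le_trans ?_ (hg.time F m)
  rw [← nsmul_eq_mul, ← Finset.card_range m, ← Finset.sum_const, Finset.card_range]
  refine Finset.sum_le_sum fun t ht => ?_
  apply measureReal_mono
  · intro ω hω
    exact ans_none M ω _ (Finset.mem_range.1 ht).le hω
  · exact measure_ne_top _ _

lemma prob_free (hg : Good M μ L T V) (F : Dat K E)
    (hF : ∀ κ e, (F κ).1 e = true → (F κ).2 e = false) (m : ℕ) (hm : 0 < m) :
    2 / 3 - T / m ≤ μ.real {ω | M.answer (M.run ω (L.cont F) m) = some false} := by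
  have h1 := prob_none M μ hg F m
  have hm0' : (0 : ℝ) < m := by exact_mod_cast hm
  have h2 : μ.real {ω | M.answer (M.run ω (L.cont F) m) = none} ≤ T / m := by
    rw [le_div_iff₀ hm0']
    linarith
  have h3 : μ.real {ω | ∃ t, M.answer (M.run ω (L.cont F) t) = some false} ≤
      μ.real ({ω | M.answer (M.run ω (L.cont F) m) = some false} ∪
        {ω | M.answer (M.run ω (L.cont F) m) = none}) := by
    apply measureReal_mono
    · rintro ω ⟨t, hb⟩
      rcases ho : M.answer (M.run ω (L.cont F) m) with _ | b'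
      · exact Or.inr ho
      · left
        have := ans_some M ω _ hb ho
        rw [← this] at ho
        exact ho
    · exact measure_ne_top _ _
  have h4 := measureReal_union_le (μ := μ) {ω | M.answer (M.run ω (L.cont F) m) = some false}
        {ω | M.answer (M.run ω (L.cont F) m) = none}
  have h5 := hg.free F hF
  linarith

lemma prob_tri (hg : Good M μ L T V) (F : Dat K E)
    (hF : ∃ κ e, (F κ).1 e = true ∧ (F κ).2 e = true) (m : ℕ) :
    μ.real {ω | M.answer (M.run ω (L.cont F) m) = some false} ≤ 1 / 3 := by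
  have h1 : μ.real {ω | ∃ t, M.answer (M.run ω (L.cont F) t) = some true} ≤
      μ.real ({ω | M.answer (M.run ω (L.cont F) m) = some false}ᶜ) := by
    apply measureReal_mono
    · rintro ω ⟨t, hb⟩ hω
      have := ans_some M ω _ hb hω
      exact absurd this (by decide)
    · exact measure_ne_top _ _
  rw [measureReal_compl (meas_pair M μ hg F m m (fun c _ => M.answer c = some false)),
    probReal_univ] at h1
  have h5 := hg.tri F hF
  linarith

lemma int_sum {I : Type} (s : Finset I) (A : I → Set Ω) (hA : ∀ i, MeasurableSet (A i)) :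
    Integrable (fun ω => ∑ i ∈ s, (A i).indicator (fun _ => (1 : ℝ)) ω) μ ∧
      ∫ ω, ∑ i ∈ s, (A i).indicator (fun _ => (1 : ℝ)) ω ∂μ = ∑ i ∈ s, μ.real (A i) := by
  have hint : ∀ i, Integrable ((A i).indicator (fun _ => (1 : ℝ))) μ := by
    intro i
    exact (integrable_const 1).indicator (hA i)
  refine ⟨integrable_finsetSum _ fun i _ => hint i, ?_⟩
  rw [integral_finsetSum _ (fun i _ => hint i)]
  refine Finset.sum_congr rfl fun i _ => ?_
  rw [integral_indicator_const _ (hA i)]
  simp

end Prob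

section Main

variable {Lt k : ℕ} {W K E C Q Ω : Type} [Fintype K] [DecidableEq K] [Fintype E] [DecidableEq E]
  [Fintype Q] [MeasurableSpace Ω] (M : Machine Lt k W Q Ω) (μ : Measure Ω) [IsProbabilityMeasure μ]

/-- index of a random graph -/
abbrev ZZ (K E : Type) : Type := K → Q3 E

/-- index of an instance -/
abbrev II (K E : Type) : Type := ZZ K E × K × E × Q3 E

/-- the machine says no triangle on the instance -/
def setNo (L : Lay Lt W K E C) (H : ℕ) (b : Bool) (i : II K E) : Set Ω :=
  {ω | M.answer (M.run ω (L.cont (inst i.1 i.2.1 i.2.2.2 i.2.2.1 b)) H) = some false}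

/-- at time `p.1` some head moves by more than `p.2` cells -/
def setV (L : Lay Lt W K E C) (z : ZZ K E) (p : ℕ × ℕ) : Set Ω :=
  {ω | M.answer (M.run ω (L.cont (base z)) p.1) = none ∧
    p.2 < travel (M.run ω (L.cont (base z)) p.1) (M.run ω (L.cont (base z)) (p.1 + 1))}

lemma sum_pNo (L : Lay Lt W K E C) (H : ℕ) (b : Bool) (ω : Ω) :
    (∑ z : K → Q3 E, ∑ κ : K, ∑ e : E, ∑ q : Q3 E,
      pNo M ω L H (inst z κ q e b)) =
      ∑ i : II K E, (setNo M L H b i).indicator (fun _ => (1 : ℝ)) ω := by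
  symm
  rw [Fintype.sum_prod_type]
  refine Finset.sum_congr rfl fun z _ => ?_
  rw [Fintype.sum_prod_type]
  refine Finset.sum_congr rfl fun κ _ => ?_
  rw [Fintype.sum_prod_type]
  refine Finset.sum_congr rfl fun e _ => Finset.sum_congr rfl fun q _ => ?_
  unfold pNo setNo
  rw [Set.indicator_apply]
  rfl

lemma sum_cuts (L : Lay Lt W K E C) (H : ℕ) (ω : Ω) :
    (∑ z : K → Q3 E, (cuts M ω L H (base z) : ℝ)) ≤
      (∑ z : ZZ K E, ∑ p ∈ Finset.range H ×ˢ Finset.range L.len,
        (setV M L z p).indicator (fun _ => (1 : ℝ)) ω) / L.len +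
      Fintype.card (ZZ K E) := by
  classical
  have hlen : (0 : ℝ) < L.len := by exact_mod_cast L.hlen
  have h2 : ∀ z : ZZ K E, (cuts M ω L H (base z) : ℝ) ≤
      (∑ p ∈ Finset.range H ×ˢ Finset.range L.len,
        (setV M L z p).indicator (fun _ => (1 : ℝ)) ω) / L.len + 1 := by
    intro z
    have h3 := cuts_le (M := M) (ω := ω) (L := L) (H := H) (base z)
    have h5 : ((∑ t ∈ Finset.range H, ∑ j ∈ Finset.range L.len,
      (if M.answer (M.run ω (L.cont (base z)) t) = none ∧
        j < travel (M.run ω (L.cont (base z)) t) (M.run ω (L.cont (base z)) (t + 1)) then 1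
        else 0) : ℕ) : ℝ) =
        ∑ p ∈ Finset.range H ×ˢ Finset.range L.len,
        (setV M L z p).indicator (fun _ => (1 : ℝ)) ω := by
      rw [Finset.sum_product]
      push_cast
      refine Finset.sum_congr rfl fun t _ => Finset.sum_congr rfl fun j _ => ?_
      rw [Set.indicator_apply]
      exact if_congr Iff.rfl rfl rfl
    have h4 : (L.len : ℝ) * (cuts M ω L H (base z) : ℝ) ≤
        ((∑ t ∈ Finset.range H, ∑ j ∈ Finset.range L.len,
      (if M.answer (M.run ω (L.cont (base z)) t) = none ∧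
        j < travel (M.run ω (L.cont (base z)) t) (M.run ω (L.cont (base z)) (t + 1)) then 1
        else 0) : ℕ) : ℝ) + L.len := by
      exact_mod_cast h3
    rw [h5] at h4
    generalize (∑ p ∈ Finset.range H ×ˢ Finset.range L.len,
        (setV M L z p).indicator (fun _ => (1 : ℝ)) ω) = a at *
    generalize (cuts M ω L H (base z) : ℝ) = c at *
    rw [← sub_nonneg]
    have h7 : a / L.len + 1 - c = (a + L.len - L.len * c) / L.len := by
      field_simp
    rw [h7]
    apply div_nonneg _ hlen.le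
    linarith
  refine (Finset.sum_le_sum fun z _ => h2 z).trans (le_of_eq ?_)
  rw [Finset.sum_add_distrib, ← Finset.sum_div, Finset.sum_const,
    Finset.card_univ, nsmul_eq_mul, mul_one]

lemma pointwise (L : Lay Lt W K E C) (H R : ℕ) (hR : 0 < R) (r0 : ℝ) (hr0 : 0 ≤ r0) (ω : Ω) :
    9 / 16 * ((∑ i : II K E, (setNo M L H false i).indicator (fun _ => (1 : ℝ)) ω) -
      6 * k * Fintype.card E * 8 ^ Fintype.card E / R *
      ((∑ z : ZZ K E, ∑ p ∈ Finset.range H ×ˢ Finset.range L.len,
        (setV M L z p).indicator (fun _ => (1 : ℝ)) ω) / L.len +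
      Fintype.card (ZZ K E)) -
      Fintype.card (ZZ K E) * Fintype.card K * (8 * r0 * 8 ^ Fintype.card E +
        (Fintype.card (L.St H k Q × L.St H k Q) : ℝ) ^ R *
          (8 * (Fintype.card E * 8 ^ Fintype.card E * Real.exp (-r0 / 98))))) ≤
      ∑ i : II K E, (setNo M L H true i).indicator (fun _ => (1 : ℝ)) ω := by
  have h := seed_ineq (M := M) (ω := ω) (L := L) (H := H) R hR r0 hr0
  rw [sum_pNo, sum_pNo] at h
  refine le_trans ?_ h
  have e1 := sum_cuts M L H ω
  have hR' : (0 : ℝ) < R := by exact_mod_cast hR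
  have hc1' : (0 : ℝ) ≤ 6 * k * Fintype.card E * 8 ^ Fintype.card E / R := by positivity
  have e2 := mul_le_mul_of_nonneg_left e1 hc1'
  refine mul_le_mul_of_nonneg_left ?_ (by norm_num)
  linarith

lemma integrated {L : Lay Lt W K E C} {T V : ℝ} (hg : Good M μ L T V) (H : ℕ) (c1 c2 : ℝ)
    (hpt : ∀ ω, 9 / 16 * ((∑ i : II K E, (setNo M L H false i).indicator (fun _ => (1 : ℝ)) ω) -
      c1 * ((∑ z : ZZ K E, ∑ p ∈ Finset.range H ×ˢ Finset.range L.len,
        (setV M L z p).indicator (fun _ => (1 : ℝ)) ω) / L.len +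
      Fintype.card (ZZ K E)) - c2) ≤
      ∑ i : II K E, (setNo M L H true i).indicator (fun _ => (1 : ℝ)) ω) :
    9 / 16 * ((∑ i : II K E, μ.real (setNo M L H false i)) -
      c1 * ((∑ z : ZZ K E, ∑ p ∈ Finset.range H ×ˢ Finset.range L.len,
        μ.real (setV M L z p)) / L.len +
      Fintype.card (ZZ K E)) - c2) ≤ ∑ i : II K E, μ.real (setNo M L H true i) := by
  have m0 : ∀ b i, MeasurableSet (setNo M L H b i) := fun b i =>
    meas_pair M μ hg _ H H (fun c _ => M.answer c = some false)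
  have mV : ∀ z p, MeasurableSet (setV M L z p) := fun z p =>
    meas_pair M μ hg _ p.1 (p.1 + 1) (fun c c' => M.answer c = none ∧ p.2 < travel c c')
  obtain ⟨i0, v0⟩ := int_sum μ (Finset.univ : Finset (II K E)) (setNo M L H false) (m0 false)
  obtain ⟨i1, v1⟩ := int_sum μ (Finset.univ : Finset (II K E)) (setNo M L H true) (m0 true)
  have hU := fun z => int_sum μ (Finset.range H ×ˢ Finset.range L.len) (setV M L z) (mV z)
  have iU : Integrable (fun ω => ∑ z : ZZ K E, ∑ p ∈ Finset.range H ×ˢ Finset.range L.len,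
      (setV M L z p).indicator (fun _ => (1 : ℝ)) ω) μ :=
    integrable_finsetSum _ fun z _ => (hU z).1
  have vU : ∫ ω, ∑ z : ZZ K E, ∑ p ∈ Finset.range H ×ˢ Finset.range L.len,
      (setV M L z p).indicator (fun _ => (1 : ℝ)) ω ∂μ =
      ∑ z : ZZ K E, ∑ p ∈ Finset.range H ×ˢ Finset.range L.len, μ.real (setV M L z p) := by
    rw [integral_finsetSum _ (fun z _ => (hU z).1)]
    exact Finset.sum_congr rfl fun z _ => (hU z).2
  rw [← v0, ← v1, ← vU]
  set f0 : Ω → ℝ := fun ω => ∑ i : II K E, (setNo M L H false i).indicator (fun _ => (1 : ℝ)) ω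
  set f1 : Ω → ℝ := fun ω => ∑ i : II K E, (setNo M L H true i).indicator (fun _ => (1 : ℝ)) ω
  set fU : Ω → ℝ := fun ω => ∑ z : ZZ K E, ∑ p ∈ Finset.range H ×ˢ Finset.range L.len,
      (setV M L z p).indicator (fun _ => (1 : ℝ)) ω
  set cZ : ℝ := (Fintype.card (ZZ K E) : ℝ)
  have a1 : Integrable (fun ω => fU ω / L.len + cZ) μ :=
    (iU.div_const _).add (integrable_const _)
  have a2 : Integrable (fun ω => c1 * (fU ω / L.len + cZ)) μ := a1.const_mul c1
  have a3 : Integrable (fun ω => f0 ω - c1 * (fU ω / L.len + cZ)) μ := i0.sub a2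
  have a4 : Integrable (fun ω => f0 ω - c1 * (fU ω / L.len + cZ) - c2) μ :=
    a3.sub (integrable_const _)
  have a5 : Integrable (fun ω => 9 / 16 * (f0 ω - c1 * (fU ω / L.len + cZ) - c2)) μ :=
    a4.const_mul _
  have hI := integral_mono a5 i1 hpt
  have b1 : ∫ ω, (fU ω / L.len + cZ) ∂μ = (∫ ω, fU ω ∂μ) / L.len + cZ := by
    rw [integral_add (iU.div_const _) (integrable_const _), integral_div]
    simp
  have b2 : ∫ ω, 9 / 16 * (f0 ω - c1 * (fU ω / L.len + cZ) - c2) ∂μ =
      9 / 16 * (∫ ω, f0 ω ∂μ - c1 * ((∫ ω, fU ω ∂μ) / L.len + cZ) - c2) := by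
    rw [integral_const_mul, integral_sub a3 (integrable_const _), integral_sub i0 a2,
      integral_const_mul, b1]
    simp
  rw [b2] at hI
  exact hI

lemma card_I : (Fintype.card (II K E) : ℝ) =
    Fintype.card (ZZ K E) * (Fintype.card K * (Fintype.card E * 8 ^ Fintype.card E)) := by
  have h1 : Fintype.card (II K E) = Fintype.card (ZZ K E) * (Fintype.card (K) *
      (Fintype.card E * Fintype.card (Q3 E))) := by
    rw [← Fintype.card_prod, ← Fintype.card_prod, ← Fintype.card_prod]
  rw [h1, card_Q3]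
  push_cast
  ring

lemma msk_disj {E : Type} (D u v : E → Bool) (e : E) (h : msk D u e = true) :
    msk (ng D) v e = false := by
  unfold msk at h
  unfold msk ng
  cases hD : D e
  · rw [hD] at h
    simp at h
  · simp

lemma inst_free (i : II K E) : ∀ κ e,
    (inst i.1 i.2.1 i.2.2.2 i.2.2.1 false κ).1 e = true →
      (inst i.1 i.2.1 i.2.2.2 i.2.2.1 false κ).2 e = false := by
  intro κ e
  unfold inst
  by_cases hκ : κ = i.2.1
  · subst hκ
    rw [dat_eq]
    by_cases he : e = i.2.2.1
    · subst he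
      simp
    · simp only [ne_eq, he, not_false_eq_true, Function.update_of_ne]
      exact msk_disj _ _ _ e
  · rw [dat_ne _ _ _ hκ]
    exact msk_disj _ _ _ e

lemma inst_tri (i : II K E) : ∃ κ e,
    (inst i.1 i.2.1 i.2.2.2 i.2.2.1 true κ).1 e = true ∧
      (inst i.1 i.2.1 i.2.2.2 i.2.2.1 true κ).2 e = true := by
  refine ⟨i.2.1, i.2.2.1, ?_, ?_⟩
  · unfold inst
    rw [dat_eq]
    simp
  · unfold inst
    rw [dat_eq]
    simp

theorem main_ineq {T V : ℝ} {L : Lay Lt W K E C} (hg : Good M μ L T V) (H R : ℕ) (hH : 0 < H)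
    (hR : 0 < R) (hG : 0 < Fintype.card K)
    (hE : 0 < Fintype.card E) (r0 : ℝ) (hr0 : 0 ≤ r0) :
    9 / 16 * (2 / 3 - T / H - 6 * k / (R * Fintype.card K) * (V + 1) -
      8 * r0 / Fintype.card E -
      8 * (Fintype.card (L.St H k Q × L.St H k Q) : ℝ) ^ R * Real.exp (-r0 / 98)) ≤ 1 / 3 := by
  have h1 := integrated M μ hg H _ _ (pointwise M L H R hR r0 hr0)
  have hR' : (0 : ℝ) < R := by exact_mod_cast hR
  have hG' : (0 : ℝ) < Fintype.card K := by exact_mod_cast hG
  have hE' : (0 : ℝ) < Fintype.card E := by exact_mod_cast hE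
  have hlen : (0 : ℝ) < L.len := by exact_mod_cast L.hlen
  have hZ : (0 : ℝ) < Fintype.card (ZZ K E) := by
    have : Nonempty (ZZ K E) := ⟨fun _ => (fun _ => false, fun _ => false, fun _ => false)⟩
    exact_mod_cast Fintype.card_pos
  have s0 : Fintype.card (II K E) * (2 / 3 - T / H) ≤ ∑ i : II K E, μ.real (setNo M L H false i) := by
    rw [← nsmul_eq_mul, ← Finset.card_univ, ← Finset.sum_const]
    exact Finset.sum_le_sum fun i _ => prob_free M μ hg _ (inst_free i) H hH
  have s1 : ∑ i : II K E, μ.real (setNo M L H true i) ≤ Fintype.card (II K E) * (1 / 3) := by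
    rw [← nsmul_eq_mul, ← Finset.card_univ, ← Finset.sum_const]
    exact Finset.sum_le_sum fun i _ => prob_tri M μ hg _ (inst_tri i) H
  have sV : ∑ z : ZZ K E, ∑ p ∈ Finset.range H ×ˢ Finset.range L.len, μ.real (setV M L z p) ≤
      Fintype.card (ZZ K E) * (L.len * V) := by
    rw [← nsmul_eq_mul, ← Finset.card_univ, ← Finset.sum_const]
    refine Finset.sum_le_sum fun z _ => ?_
    rw [Finset.sum_product]
    exact hg.moves _ H
  generalize (∑ i : II K E, μ.real (setNo M L H false i)) = S0 at *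
  generalize (∑ i : II K E, μ.real (setNo M L H true i)) = S1 at *
  generalize (∑ z : ZZ K E, ∑ p ∈ Finset.range H ×ˢ Finset.range L.len,
    μ.real (setV M L z p)) = SU at *
  rw [card_I] at s0 s1
  generalize (Fintype.card (L.St H k Q × L.St H k Q) : ℝ) ^ R = X at *
  generalize Real.exp (-r0 / 98) = Y at *
  generalize (Fintype.card (ZZ K E) : ℝ) = z at *
  have hP : (0 : ℝ) < 8 ^ Fintype.card E := by positivity
  generalize (8 : ℝ) ^ Fintype.card E = P at *
  generalize (Fintype.card E : ℝ) = N at *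
  generalize (L.len : ℝ) = l at *
  generalize (Fintype.card K : ℝ) = g at *
  have hc1 : 0 ≤ 6 * (k : ℝ) * N * P / R := by positivity
  have hK : 0 < z * (g * (N * P)) := by positivity
  have h2 : SU / l + z ≤ z * (V + 1) := by
    have : SU / l ≤ z * V := by
      rw [div_le_iff₀ hlen]
      linarith
    linarith
  have h3 := mul_le_mul_of_nonneg_left h2 hc1
  have e1 : 6 * (k : ℝ) * N * P / R * (z * (V + 1)) =
      z * (g * (N * P)) * (6 * k / (R * g) * (V + 1)) := by
    field_simp
  have e2 : z * g * (8 * r0 * P + X * (8 * (N * P * Y))) =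
      z * (g * (N * P)) * (8 * r0 / N + 8 * X * Y) := by
    field_simp
  rw [e1] at h3
  rw [e2] at h1
  have h4 : z * (g * (N * P)) * (9 / 16 * (2 / 3 - T / H - 6 * k / (R * g) * (V + 1) -
      8 * r0 / N - 8 * X * Y)) ≤ z * (g * (N * P)) * (1 / 3) := by
    linarith
  exact le_of_mul_le_mul_left h4 hK

end Main

end Pool.Agent.HDL
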