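import Mathlib
import Pool.Agent.HDL.Rand

/-!
# The machine has to read the tape
-/

set_option linter.unusedSectionVars false

open MeasureTheory

namespace Pool.Agent.HDL

open Finset

variable {Lt k : ℕ} {W K E C Q Ω : Type} [Fintype K] [DecidableEq K] [Fintype E] [DecidableEq E]
  (M : Machine Lt k W Q Ω)

/-- data without a common bit -/
def f0 (K E : Type) : Dat K E := fun _ => (fun _ => true, fun _ => false)

/-- data with one common bit -/
def f1 (κ : K) (e : E) : Dat K E :=
  dat (f0 K E) κ (fun _ => true) (Function.update (fun _ => false) e true)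

lemma f1_cont (L : Lay Lt W K E C) (κ : K) (e : E) (p : Fin Lt)
    (h : L.adr p ≠ some (κ, e, true)) : L.cont (f1 κ e) p = L.cont (f0 K E) p := by
  apply L.congr
  · intro κ' e' _
    unfold f1
    by_cases hκ : κ' = κ
    · subst hκ
      rw [dat_eq]
      rfl
    · rw [dat_ne _ _ _ hκ]
  · intro κ' e' he'
    unfold f1
    by_cases hκ : κ' = κ
    · subst hκ
      rw [dat_eq]
      have hne : e' ≠ e := by
        rintro rfl
        exact h he'
      show Function.update (fun _ => false) e true e' = false
      rw [Function.update_of_ne hne]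
    · rw [dat_ne _ _ _ hκ]

lemma run_same (L : Lay Lt W K E C) (ω : Ω) (κ : K) (e : E) (m : ℕ)
    (hno : ∀ t < m, M.answer (M.run ω (L.cont (f0 K E)) t) = none →
      ∀ i, L.adr ((M.run ω (L.cont (f0 K E)) t).2 i) ≠ some (κ, e, true)) :
    M.run ω (L.cont (f1 κ e)) m = M.run ω (L.cont (f0 K E)) m := by
  induction m with
  | zero => rfl
  | succ m ih =>
    have h1 := ih (fun t ht => hno t (by omega))
    show (if (M.answer (M.run ω (L.cont (f1 κ e)) m)).isSome then
      M.run ω (L.cont (f1 κ e)) m else _) =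
      (if (M.answer (M.run ω (L.cont (f0 K E)) m)).isSome then M.run ω (L.cont (f0 K E)) m else _)
    rw [h1]
    split_ifs with h2
    · rfl
    · have h3 : M.answer (M.run ω (L.cont (f0 K E)) m) = none := by
        rcases ho : M.answer (M.run ω (L.cont (f0 K E)) m) with _ | b
        · rfl
        · rw [ho] at h2
          exact absurd rfl h2
      have h4 := hno m (by omega) h3
      have h5 : (fun i => L.cont (f1 κ e) ((M.run ω (L.cont (f0 K E)) m).2 i)) =
          fun i => L.cont (f0 K E) ((M.run ω (L.cont (f0 K E)) m).2 i) := by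
        funext i
        exact f1_cont L κ e _ (h4 i)
      rw [h5]

variable [Fintype Q] [MeasurableSpace Ω] (μ : Measure Ω) [IsProbabilityMeasure μ]

lemma read_cell {L : Lay Lt W K E C} {T V : ℝ} (hg : Good M μ L T V) (κ : K) (e : E) (m : ℕ)
    (hm : 0 < m) :
    1 / 3 - T / m ≤ ∑ t ∈ Finset.range m, ∑ i : Fin k,
      μ.real ({ω | M.answer (M.run ω (L.cont (f0 K E)) t) = none} ∩
        {ω | L.adr ((M.run ω (L.cont (f0 K E)) t).2 i) = some (κ, e, true)}) := by
  have h1 := prob_free M μ hg (f0 K E) (fun _ _ _ => rfl) m hm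
  have h2 := prob_tri M μ hg (f1 κ e) ⟨κ, e, by unfold f1; rw [dat_eq], by
    unfold f1
    rw [dat_eq]
    simp⟩ m
  have h3 : μ.real {ω | M.answer (M.run ω (L.cont (f0 K E)) m) = some false} ≤
      μ.real ({ω | M.answer (M.run ω (L.cont (f1 κ e)) m) = some false} ∪
        ⋃ t ∈ Finset.range m, ⋃ i ∈ (Finset.univ : Finset (Fin k)),
          ({ω | M.answer (M.run ω (L.cont (f0 K E)) t) = none} ∩
            {ω | L.adr ((M.run ω (L.cont (f0 K E)) t).2 i) = some (κ, e, true)})) := by
    apply measureReal_mono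
    · intro ω hω
      by_cases hno : ∀ t < m, M.answer (M.run ω (L.cont (f0 K E)) t) = none →
        ∀ i, L.adr ((M.run ω (L.cont (f0 K E)) t).2 i) ≠ some (κ, e, true)
      · left
        rw [Set.mem_ofPred_eq, run_same M L ω κ e m hno]
        exact hω
      · right
        push Not at hno
        obtain ⟨t, ht, hans, i, hi⟩ := hno
        simp only [Set.mem_iUnion]
        exact ⟨t, Finset.mem_range.2 ht, i, Finset.mem_univ _, hans, hi⟩
    · exact measure_ne_top _ _
  have h4 := measureReal_union_le (μ := μ)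
    {ω | M.answer (M.run ω (L.cont (f1 κ e)) m) = some false}
    (⋃ t ∈ Finset.range m, ⋃ i ∈ (Finset.univ : Finset (Fin k)),
          ({ω | M.answer (M.run ω (L.cont (f0 K E)) t) = none} ∩
            {ω | L.adr ((M.run ω (L.cont (f0 K E)) t).2 i) = some (κ, e, true)}))
  have h5 : μ.real (⋃ t ∈ Finset.range m, ⋃ i ∈ (Finset.univ : Finset (Fin k)),
          ({ω | M.answer (M.run ω (L.cont (f0 K E)) t) = none} ∩
            {ω | L.adr ((M.run ω (L.cont (f0 K E)) t).2 i) = some (κ, e, true)})) ≤
      ∑ t ∈ Finset.range m, ∑ i : Fin k,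
        μ.real ({ω | M.answer (M.run ω (L.cont (f0 K E)) t) = none} ∩
          {ω | L.adr ((M.run ω (L.cont (f0 K E)) t).2 i) = some (κ, e, true)}) := by
    refine (measureReal_biUnion_finset_le _ _).trans ?_
    exact Finset.sum_le_sum fun t _ => measureReal_biUnion_finset_le _ _
  linarith

/-- The machine has to read most of the bits. -/
theorem read_bound {L : Lay Lt W K E C} {T V : ℝ} (hg : Good M μ L T V) (m : ℕ) (hm : 0 < m) :
    (1 / 3 - T / m) * (Fintype.card K * Fintype.card E) ≤ k * T := by
  classical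
  have h2 := Finset.sum_le_sum fun p (_ : p ∈ (Finset.univ : Finset (K × E))) =>
    read_cell M μ hg p.1 p.2 m hm
  rw [Finset.sum_const, Finset.card_univ, Fintype.card_prod, nsmul_eq_mul] at h2
  have h3 : ∑ p : K × E, ∑ t ∈ Finset.range m, ∑ i : Fin k,
      μ.real ({ω | M.answer (M.run ω (L.cont (f0 K E)) t) = none} ∩
        {ω | L.adr ((M.run ω (L.cont (f0 K E)) t).2 i) = some (p.1, p.2, true)}) ≤
      ∑ t ∈ Finset.range m, ∑ i : Fin k,
        μ.real {ω | M.answer (M.run ω (L.cont (f0 K E)) t) = none} := by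
    rw [Finset.sum_comm]
    refine Finset.sum_le_sum fun t _ => ?_
    rw [Finset.sum_comm]
    refine Finset.sum_le_sum fun i _ => ?_
    rw [← measureReal_biUnion_finset]
    · apply measureReal_mono
      · intro ω hω
        simp only [Set.mem_iUnion] at hω
        obtain ⟨p, _, hp, _⟩ := hω
        exact hp
      · exact measure_ne_top _ _
    · intro p _ p' _ hpp
      rw [Function.onFun, Set.disjoint_left]
      rintro ω ⟨_, h4⟩ ⟨_, h5⟩
      apply hpp
      rw [Set.mem_ofPred_eq] at h4 h5
      rw [h4] at h5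
      simp only [Option.some.injEq, Prod.mk.injEq, and_true] at h5
      exact Prod.ext h5.1 h5.2
    · intro p _
      exact (meas_pair M μ hg _ t t (fun c _ => M.answer c = none)).inter
        (meas_pair M μ hg _ t t (fun c _ => L.adr (c.2 i) = some (p.1, p.2, true)))
  have h4 : ∑ t ∈ Finset.range m, ∑ i : Fin k,
        μ.real {ω | M.answer (M.run ω (L.cont (f0 K E)) t) = none} ≤ k * T := by
    have h5 : ∀ t, ∑ i : Fin k, μ.real {ω | M.answer (M.run ω (L.cont (f0 K E)) t) = none} =
        k * μ.real {ω | M.answer (M.run ω (L.cont (f0 K E)) t) = none} := by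
      intro t
      rw [Finset.sum_const, Finset.card_univ, Fintype.card_fin, nsmul_eq_mul]
    rw [Finset.sum_congr rfl fun t _ => h5 t, ← Finset.mul_sum]
    exact mul_le_mul_of_nonneg_left (hg.time _ m) (Nat.cast_nonneg _)
  have h5 := h2.trans (h3.trans h4)
  push_cast at h5
  linarith

end Pool.Agent.HDL
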