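import Mathlib
import Pool.Agent.HDL.Read

/-!
# Seek costs
-/

set_option linter.unusedSectionVars false

open MeasureTheory

namespace Pool.Agent.HDL

open Finset

lemma SeekCost.one_le {f : ℕ → ℝ} (hf : SeekCost f) {D : ℕ} (hD : 1 ≤ D) : 1 ≤ f D := by
  rw [← hf.1]
  exact hf.2.1 hD

lemma SeekCost.le_self {f : ℕ → ℝ} (hf : SeekCost f) {D : ℕ} (hD : 1 ≤ D) : f D ≤ D := by
  have h := hf.2.2 1 D le_rfl hD
  rw [hf.1] at h
  push_cast at h
  linarith

lemma SeekCost.min_le {f : ℕ → ℝ} (hf : SeekCost f) {D l : ℕ} (hD : 1 ≤ D) :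
    (min D l : ℕ) * f l ≤ l * f D := by
  rcases le_total D l with h | h
  · rw [min_eq_left h]
    exact hf.2.2 D l hD h
  · rw [min_eq_right h]
    exact mul_le_mul_of_nonneg_left (hf.2.1 h) (Nat.cast_nonneg _)

lemma SeekCost.scale {f : ℕ → ℝ} (hf : SeekCost f) {D l : ℕ} (hD : 1 ≤ D) (hl : 1 ≤ l) {c : ℝ}
    (hc : 1 ≤ c) (h : (D : ℝ) ≤ c * l) : f D ≤ c * f l := by
  have hl0 : (0 : ℝ) < l := by exact_mod_cast hl
  have hfl := hf.one_le hl
  rcases le_total D l with h1 | h1
  · have h2 := hf.2.1 h1
    have h3 : f l ≤ c * f l := le_mul_of_one_le_left (by linarith) hc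
    linarith
  · have h2 := hf.2.2 l D hl h1
    have h3 : (D : ℝ) * f l ≤ c * l * f l := mul_le_mul_of_nonneg_right h (by linarith)
    have h4 : (l : ℝ) * f D ≤ l * (c * f l) := by
      refine h2.trans (h3.trans (le_of_eq ?_))
      ring
    exact le_of_mul_le_mul_left h4 hl0

variable {Lt k : ℕ} {W Q Ω : Type} [Fintype Q] [MeasurableSpace Ω]
  (M : Machine Lt k W Q Ω) (μ : Measure Ω) [IsProbabilityMeasure μ] (G : Fin Lt → W)

lemma meas_two (hm : ∀ (t : ℕ) (c : Conf Lt k Q), MeasurableSet {ω | M.run ω G t = c}) (t t' : ℕ)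
    (P : Conf Lt k Q → Conf Lt k Q → Prop) :
    MeasurableSet {ω | P (M.run ω G t) (M.run ω G t')} := by
  have e : {ω | P (M.run ω G t) (M.run ω G t')} =
      ⋃ c ∈ {c : Conf Lt k Q × Conf Lt k Q | P c.1 c.2},
        ({ω | M.run ω G t = c.1} ∩ {ω | M.run ω G t' = c.2}) := by
    ext ω
    simp
  rw [e]
  exact MeasurableSet.biUnion (Set.to_countable _)
    (fun c _ => (hm t c.1).inter (hm t' c.2))

/-- functions of two configurations are integrable -/
lemma int_two (hm : ∀ (t : ℕ) (c : Conf Lt k Q), MeasurableSet {ω | M.run ω G t = c}) (t t' : ℕ)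
    (Φ : Conf Lt k Q → Conf Lt k Q → ℝ) :
    Integrable (fun ω => Φ (M.run ω G t) (M.run ω G t')) μ := by
  classical
  have e : (fun ω => Φ (M.run ω G t) (M.run ω G t')) =
      fun ω => ∑ p : Conf Lt k Q × Conf Lt k Q,
        ({ω | M.run ω G t = p.1 ∧ M.run ω G t' = p.2}).indicator (fun _ => Φ p.1 p.2) ω := by
    funext ω
    rw [Finset.sum_eq_single (M.run ω G t, M.run ω G t')]
    · rw [Set.indicator_of_mem]
      exact ⟨rfl, rfl⟩
    · intro p _ hp
      rw [Set.indicator_of_notMem]
      rintro ⟨h1, h2⟩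
      exact hp (Prod.ext h1.symm h2.symm)
    · intro h
      exact absurd (Finset.mem_univ _) h
  rw [e]
  exact integrable_finsetSum _ fun p _ =>
    (integrable_const _).indicator (meas_two M G hm t t' (fun c c' => c = p.1 ∧ c' = p.2))

theorem cost_bounds (hm : ∀ (t : ℕ) (c : Conf Lt k Q), MeasurableSet {ω | M.run ω G t = c})
    (f : ℕ → ℝ) (hf : SeekCost f) (T : ℝ) (m : ℕ)
    (hT : ∑ t ∈ Finset.range m, ∫ ω, M.cost f ω G t ∂μ ≤ T) (l : ℕ) (hl : 0 < l) :
    (∑ t ∈ Finset.range m, μ.real {ω | M.answer (M.run ω G t) = none} ≤ T) ∧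
    (∑ t ∈ Finset.range m, ∑ j ∈ Finset.range l,
      μ.real {ω | M.answer (M.run ω G t) = none ∧
        j < travel (M.run ω G t) (M.run ω G (t + 1))} ≤ l * (T / f l)) := by
  classical
  have hl0 : (0 : ℝ) < l := by exact_mod_cast hl
  have hfl : 0 < f l := lt_of_lt_of_le one_pos (hf.one_le hl)
  have hint : ∀ t, Integrable (fun ω => M.cost f ω G t) μ := by
    intro t
    exact int_two M μ G hm t (t + 1) (fun c c' => if (M.answer c).isSome then 0 else f (travel c c'))
  constructor
  · refine (Finset.sum_le_sum fun t _ => ?_).trans hT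
    have hms := meas_two M G hm t t (fun c _ => M.answer c = none)
    have h1 : μ.real {ω | M.answer (M.run ω G t) = none} =
        ∫ ω, ({ω | M.answer (M.run ω G t) = none}).indicator (fun _ => (1 : ℝ)) ω ∂μ := by
      rw [integral_indicator_const _ hms]
      simp
    rw [h1]
    refine integral_mono ((integrable_const 1).indicator hms) (hint t) ?_
    intro ω
    simp only
    unfold Machine.cost
    rw [Set.indicator_apply]
    by_cases h2 : M.answer (M.run ω G t) = none
    · have h3 : ω ∈ {ω | M.answer (M.run ω G t) = none} := h2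
      rw [if_pos h3, if_neg (by rw [h2]; simp)]
      exact hf.one_le (le_max_left _ _)
    · have h3 : ω ∉ {ω | M.answer (M.run ω G t) = none} := h2
      rw [if_neg h3, if_pos (Option.ne_none_iff_isSome.1 h2)]
  · have key : ∀ t, ∑ j ∈ Finset.range l,
      μ.real {ω | M.answer (M.run ω G t) = none ∧
        j < travel (M.run ω G t) (M.run ω G (t + 1))} ≤ l / f l * ∫ ω, M.cost f ω G t ∂μ := by
      intro t
      obtain ⟨i1, v1⟩ := int_sum μ (Finset.range l)
        (fun j => {ω | M.answer (M.run ω G t) = none ∧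
          j < travel (M.run ω G t) (M.run ω G (t + 1))})
        (fun j => meas_two M G hm t (t + 1) (fun c c' => M.answer c = none ∧ j < travel c c'))
      rw [← v1, ← integral_const_mul]
      refine integral_mono i1 ((hint t).const_mul _) ?_
      intro ω
      simp only
      unfold Machine.cost
      by_cases h2 : M.answer (M.run ω G t) = none
      · rw [if_neg (by rw [h2]; simp)]
        have h3 : ∑ j ∈ Finset.range l, ({ω | M.answer (M.run ω G t) = none ∧
          j < travel (M.run ω G t) (M.run ω G (t + 1))}).indicator (fun _ => (1 : ℝ)) ω =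
            (min (travel (M.run ω G t) (M.run ω G (t + 1))) l : ℕ) := by
          rw [min_eq_sum]
          push_cast
          refine Finset.sum_congr rfl fun j _ => ?_
          rw [Set.indicator_apply]
          refine if_congr ?_ rfl rfl
          exact ⟨fun h => h.2, fun h => ⟨h2, h⟩⟩
        rw [h3]
        have h4 := hf.min_le (D := travel (M.run ω G t) (M.run ω G (t + 1))) (l := l)
          (le_max_left _ _)
        have h5 : (l : ℝ) / f l * f (travel (M.run ω G t) (M.run ω G (t + 1))) =
            l * f (travel (M.run ω G t) (M.run ω G (t + 1))) / f l := by ring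
        rw [h5, le_div_iff₀ hfl]
        exact h4
      · rw [if_pos (Option.ne_none_iff_isSome.1 h2), mul_zero]
        apply le_of_eq
        apply Finset.sum_eq_zero
        intro j _
        rw [Set.indicator_of_notMem]
        rintro ⟨h3, _⟩
        exact h2 h3
    refine (Finset.sum_le_sum fun t _ => key t).trans ?_
    rw [← Finset.mul_sum]
    have h1 := mul_le_mul_of_nonneg_left hT (by positivity : (0 : ℝ) ≤ l / f l)
    refine h1.trans (le_of_eq ?_)
    ring

end Pool.Agent.HDL
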