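import Mathlib
import Pool.Agent.HDL.Cost
import Pool.Agent.HDL.St

/-!
# Numerical estimates
-/

set_option linter.unusedSectionVars false

open MeasureTheory

namespace Pool.Agent.HDL

/-- the loss of Behrend's construction -/
noncomputable def EE (n : ℕ) : ℝ := Real.exp (4 * √(Real.log n))

lemma EE_pos (n : ℕ) : 0 < EE n := Real.exp_pos _

lemma one_le_EE (n : ℕ) : 1 ≤ EE n := by
  unfold EE
  rw [← Real.exp_zero]
  apply Real.exp_le_exp.2
  positivity

lemma roth_ge {m n : ℕ} (hm : 1 ≤ m) (hmn : m ≤ n) : (m : ℝ) / EE n ≤ rothNumberNat m := by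
  refine le_trans ?_ (Behrend.roth_lower_bound (N := m))
  rw [div_eq_mul_inv]
  apply mul_le_mul_of_nonneg_left _ (Nat.cast_nonneg m)
  unfold EE
  rw [← Real.exp_neg]
  apply Real.exp_le_exp.2
  have h1 : Real.log m ≤ Real.log n :=
    Real.log_le_log (by exact_mod_cast hm) (by exact_mod_cast hmn)
  have h2 : √(Real.log m) ≤ √(Real.log n) := Real.sqrt_le_sqrt h1
  linarith

lemma exp_const : Real.exp 36 ≤ 2 ^ 58 := by
  have h1 : Real.exp 1 ≤ 3 := by
    have := Real.exp_one_lt_d9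
    linarith
  have h2 : Real.exp 36 = Real.exp 1 ^ 36 := by
    rw [← Real.exp_nat_mul]
    norm_num
  rw [h2]
  calc Real.exp 1 ^ 36 ≤ 3 ^ 36 := pow_le_pow_left₀ (Real.exp_pos _).le h1 36
    _ ≤ 2 ^ 58 := by norm_num

/-- the loss is small in comparison with the density -/
lemma EE_cube (r : ℕ) (hr : 1 ≤ r) : EE r ^ 3 ≤ 2 ^ 58 * r := by
  have hr0 : (0 : ℝ) < r := by exact_mod_cast hr
  set y := √(Real.log r) with hy
  have hlog : 0 ≤ Real.log r := Real.log_nonneg (by exact_mod_cast hr)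
  have hyy : y ^ 2 = Real.log r := Real.sq_sqrt hlog
  have h1 : EE r ^ 3 = Real.exp (12 * y) := by
    unfold EE
    rw [← Real.exp_nat_mul]
    congr 1
    push_cast
    ring
  have h2 : (r : ℝ) = Real.exp (y ^ 2) := by rw [hyy, Real.exp_log hr0]
  rw [h1, h2]
  have h3 : Real.exp (12 * y) ≤ Real.exp (36 + y ^ 2) := by
    apply Real.exp_le_exp.2
    have : 0 ≤ (y - 6) ^ 2 := sq_nonneg _
    linarith [(by ring : (y - 6) ^ 2 = y ^ 2 - 12 * y + 36)]
  refine h3.trans ?_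
  rw [Real.exp_add]
  exact mul_le_mul_of_nonneg_right exp_const (Real.exp_pos _).le

/-- the loss in terms of the number of edges -/
lemma EE_five (r n m : ℕ) (hr : 1 ≤ r) (hn : 0 < n) (hnm : n ≤ m) (h : r * n ≤ 10 * m) :
    EE r ^ 5 * Real.exp (-20 * √(Real.log ((m : ℝ) / n))) ≤ 2 ^ 87 := by
  have hr0 : (0 : ℝ) < r := by exact_mod_cast hr
  have hn0 : (0 : ℝ) < n := by exact_mod_cast hn
  have hm0 : (0 : ℝ) < m := by
    have : 0 < m := by omega
    exact_mod_cast this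
  have hq1 : 1 ≤ (m : ℝ) / n := by
    rw [one_le_div hn0]
    exact_mod_cast hnm
  have h1 : (r : ℝ) ≤ 10 * ((m : ℝ) / n) := by
    have h2 : (r : ℝ) * n ≤ 10 * m := by exact_mod_cast h
    have h3 : 10 * ((m : ℝ) / n) = 10 * m / n := by ring
    rw [h3, le_div_iff₀ hn0]
    exact h2
  have hlog : Real.log r ≤ Real.log 10 + Real.log ((m : ℝ) / n) := by
    rw [← Real.log_mul (by norm_num) (by positivity)]
    exact Real.log_le_log hr0 h1
  have hl10 : Real.log 10 ≤ 9 := by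
    have h2 := Real.log_le_sub_one_of_pos (by norm_num : (0 : ℝ) < 10)
    linarith
  have hlq : 0 ≤ Real.log ((m : ℝ) / n) := Real.log_nonneg hq1
  have hs : √(Real.log r) ≤ 3 / 2 * 2 + √(Real.log ((m : ℝ) / n)) := by
    rw [Real.sqrt_le_left (by positivity)]
    have h2 := Real.sq_sqrt hlq
    have h3 := Real.sqrt_nonneg (Real.log ((m : ℝ) / n))
    have h4 : (3 / 2 * 2 + √(Real.log ((m : ℝ) / n))) ^ 2 =
        9 + 6 * √(Real.log ((m : ℝ) / n)) + √(Real.log ((m : ℝ) / n)) ^ 2 := by ring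
    rw [h4, h2]
    linarith
  have h5 : EE r ^ 5 = Real.exp (20 * √(Real.log r)) := by
    unfold EE
    rw [← Real.exp_nat_mul]
    congr 1
    push_cast
    ring
  rw [h5, ← Real.exp_add]
  have h6 : Real.exp (20 * √(Real.log r) + -20 * √(Real.log ((m : ℝ) / n))) ≤ Real.exp 60 := by
    apply Real.exp_le_exp.2
    linarith
  refine h6.trans ?_
  have h7 : Real.exp 60 = Real.exp 1 ^ 60 := by
    rw [← Real.exp_nat_mul]
    norm_num
  have h8 : Real.exp 1 ≤ 2.719 := by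
    have := Real.exp_one_lt_d9
    linarith
  rw [h7]
  calc Real.exp 1 ^ 60 ≤ (2.719 : ℝ) ^ 60 := pow_le_pow_left₀ (Real.exp_pos _).le h8 60
    _ ≤ 2 ^ 87 := by norm_num

lemma sq_lt_aux {a b : ℝ} (hb : 0 ≤ b) (h : a ^ 2 ≤ b ^ 2) : a ≤ b := by
  by_contra hcon
  push Not at hcon
  have := pow_lt_pow_left₀ hcon hb (n := 2) (by norm_num)
  linarith

/-- the final computation -/
lemma numcore {ν m k σ g h r C E FD FL V R N : ℝ} (hk : 1 ≤ k)
    (hσ : 1 ≤ σ) (hg : 1 ≤ g) (hh : 1 ≤ h) (hr : 1 ≤ r) (h1 : ν ≤ 336 * (g ^ 2 * h))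
    (h1' : m ≤ 336 * (ν * r)) (h2 : σ ≤ 2 * k * h) (hC : 0 ≤ C) (hE : 1 ≤ E)
    (hEr : E ^ 3 ≤ 2 ^ 58 * r)
    (ha : k * σ * C * (2 ^ 60 * E ^ 5) ≤ m * FD) (hFD : FD ≤ 26 * E ^ 2 * FL) (hFD0 : 0 ≤ FD)
    (hFL : 1 ≤ FL) (hc : k * σ * 2 ^ 200 ≤ ν) (hN : g * h * r ≤ N * E ^ 3)
    (hV : V ≤ 6 * k / g * (C / FL + 1)) (hR : R ≤ 100 * V + 2)
    (hmain : N / 39200 ≤ R * (50 * σ) + 6) : False := by
  have hk0 : 0 < k := by linarith
  have hσ0 : 0 < σ := by linarith
  have hg0 : 0 < g := by linarith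
  have hh0 : 0 < h := by linarith
  have hr0 : 0 < r := by linarith
  have hE0 : 0 < E := by linarith
  have hE3 : 0 < E ^ 3 := by positivity
  have hFL0 : 0 < FL := by linarith
  set G := g * h * r / E ^ 3 with hGdef
  have hG : 0 < G := by positivity
  have hGN : G ≤ N := by
    rw [hGdef, div_le_iff₀ hE3]
    exact hN
  have hghG : g * h ≤ 2 ^ 58 * G := by
    have e1 : 2 ^ 58 * G = g * h * (2 ^ 58 * r) / E ^ 3 := by
      rw [hGdef]
      ring
    rw [e1, le_div_iff₀ hE3]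
    exact mul_le_mul_of_nonneg_left hEr (by positivity)
  -- first term
  have x1 : k * σ * (C / FL) / g * 2 ^ 60 ≤ 2 ^ 22 * G := by
    have e3 : 336 * (ν * r) ≤ 336 * ((336 * (g ^ 2 * h)) * r) :=
      mul_le_mul_of_nonneg_left (mul_le_mul_of_nonneg_right h1 hr0.le) (by norm_num)
    have e4 : m * FD ≤ (336 * ((336 * (g ^ 2 * h)) * r)) * (26 * E ^ 2 * FL) :=
      mul_le_mul (h1'.trans e3) hFD hFD0 (by positivity)
    have e5 : (336 * ((336 * (g ^ 2 * h)) * r)) * (26 * E ^ 2 * FL) =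
        (336 ^ 2 * 26) * (G * (g * FL * E ^ 5)) := by
      rw [hGdef]
      field_simp
    have e6 : ((336 : ℝ) ^ 2 * 26) * (G * (g * FL * E ^ 5)) ≤ 2 ^ 22 * (G * (g * FL * E ^ 5)) :=
      mul_le_mul_of_nonneg_right (by norm_num) (by positivity)
    rw [e5] at e4
    have e7 : k * σ * C * (2 ^ 60 * E ^ 5) ≤ 2 ^ 22 * (G * (g * FL * E ^ 5)) :=
      ha.trans (e4.trans e6)
    have e8 : k * σ * (C / FL) / g * 2 ^ 60 = k * σ * C * (2 ^ 60 * E ^ 5) / (g * FL * E ^ 5) := by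
      field_simp
    rw [e8, div_le_iff₀ (by positivity)]
    refine e7.trans (le_of_eq ?_)
    ring
  -- second term
  have x2 : k * σ / g * 2 ^ 200 ≤ 336 * (2 ^ 58 * G) := by
    have e2 : k * σ / g * 2 ^ 200 = k * σ * 2 ^ 200 / g := by ring
    rw [e2, div_le_iff₀ hg0]
    have e3 : 336 * (g ^ 2 * h) = 336 * (g * h) * g := by ring
    rw [e3] at h1
    refine (hc.trans h1).trans ?_
    exact mul_le_mul_of_nonneg_right (mul_le_mul_of_nonneg_left hghG (by norm_num)) hg0.le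
  -- third term
  have x3 : σ * 2 ^ 100 ≤ 26 * (2 ^ 58 * G) := by
    have e1 : σ * 2 ^ 100 ≤ 26 * (g * h) := by
      apply sq_lt_aux (by positivity)
      have e2 : (σ * 2 ^ 100) ^ 2 ≤ 2 * h * (k * σ * 2 ^ 200) := by
        have : (σ * 2 ^ 100) ^ 2 = σ * (σ * 2 ^ 200) := by ring
        rw [this]
        have e3 := mul_le_mul_of_nonneg_right h2 (by positivity : 0 ≤ σ * 2 ^ 200)
        refine e3.trans (le_of_eq ?_)
        ring
      have e3 : 2 * h * (k * σ * 2 ^ 200) ≤ 2 * h * (336 * (g ^ 2 * h)) :=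
        mul_le_mul_of_nonneg_left (hc.trans h1) (by positivity)
      have e4 : 2 * h * (336 * (g ^ 2 * h)) = 672 * (g * h) ^ 2 := by ring
      have e5 : (26 * (g * h)) ^ 2 = 676 * (g * h) ^ 2 := by ring
      have e6 : 0 ≤ (g * h) ^ 2 := by positivity
      linarith
    exact e1.trans (mul_le_mul_of_nonneg_left hghG (by norm_num))
  -- all terms together
  have y1 : R * (50 * σ) ≤ 30000 * (k * σ * (C / FL) / g) + 30000 * (k * σ / g) + 100 * σ := by
    have e1 : R ≤ 100 * (6 * k / g * (C / FL + 1)) + 2 := by linarith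
    have e2 := mul_le_mul_of_nonneg_right e1 (by positivity : (0 : ℝ) ≤ 50 * σ)
    refine e2.trans (le_of_eq ?_)
    ring
  generalize k * σ * (C / FL) / g = A at *
  generalize k * σ / g = B at *
  norm_num at x1 x2 x3 y1 hmain
  linarith

end Pool.Agent.HDL
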