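import Mathlib
import Pool.Agent.HDL.Num
import Pool.Agent.HDL.Exact

/-!
# The trade-off
-/

set_option linter.unusedSectionVars false

open MeasureTheory

namespace Pool.Agent.HDL

lemma set_false {n : ℕ} {d : Fin n → ℕ} {k : ℕ} {Q Ω : Type} [MeasurableSpace Ω]
    (M : LMachine d k Q Ω) (μ : Measure Ω) [IsProbabilityMeasure μ] (G : SimpleGraph (Fin n))
    (hG : G.CliqueFree 3) :
    μ.real {ω | ∃ t b, M.answer (M.run ω (tape d G) t) = some b ∧ (b = true ↔ ¬ G.CliqueFree 3)} ≤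
      μ.real {ω | ∃ t, M.answer (M.run ω (tape d G) t) = some false} := by
  apply measureReal_mono
  · rintro ω ⟨t, b, hb, hb'⟩
    have hbf : b = false := by
      cases b
      · rfl
      · exact absurd hG (hb'.1 rfl)
    subst hbf
    exact ⟨t, hb⟩
  · exact measure_ne_top _ _

lemma set_true {n : ℕ} {d : Fin n → ℕ} {k : ℕ} {Q Ω : Type} [MeasurableSpace Ω]
    (M : LMachine d k Q Ω) (μ : Measure Ω) [IsProbabilityMeasure μ] (G : SimpleGraph (Fin n))
    (hG : ¬ G.CliqueFree 3) :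
    μ.real {ω | ∃ t b, M.answer (M.run ω (tape d G) t) = some b ∧ (b = true ↔ ¬ G.CliqueFree 3)} ≤
      μ.real {ω | ∃ t, M.answer (M.run ω (tape d G) t) = some true} := by
  apply measureReal_mono
  · rintro ω ⟨t, b, hb, hb'⟩
    have hbt : b = true := hb'.2 hG
    subst hbt
    exact ⟨t, hb⟩
  · exact measure_ne_top _ _

lemma div_pow_le {x y E : ℝ} {i j : ℕ} (hx : 0 ≤ x) (hE : 1 ≤ E) (hij : i ≤ j)
    (h : x ≤ y * E ^ i) (hy : 0 ≤ y) : x ≤ y * E ^ j :=
  h.trans (mul_le_mul_of_nonneg_left (pow_le_pow_right₀ hE hij) hy)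

/-- the frames used -/
theorem frame_exists (hB : S_BETA) (hA : S_ALPHA) (a b c : ℕ) (hc : c ≤ 2 * a + b) :
    ∃ (K E : Type) (_ : Fintype K) (_ : DecidableEq K) (_ : Fintype E) (_ : DecidableEq E)
      (Fr : Frame K E),
      Fr.Γ ≤ 28 * 2 ^ (2 * a + b) ∧ Fr.Bd ≤ 72 * 2 ^ (2 * a + b) * 2 ^ c ∧
      Fr.len ≤ 2 ^ a * 2 ^ b ∧ Fr.b0 = 3 * 2 ^ b ∧ Fintype.card K = 2 ^ a ∧
      (2 : ℝ) ^ a * 2 ^ b ≤ Fr.len * EE (2 ^ c) ^ 2 ∧
      (2 : ℝ) ^ a * 2 ^ b * 2 ^ c ≤ Fintype.card E * EE (2 ^ c) ^ 3 := by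
  have hE1 := one_le_EE (2 ^ c)
  have hE0 := EE_pos (2 ^ c)
  -- lower bounds for the sizes of progression-free sets
  have hroth : ∀ i, i ≤ c → (2 : ℝ) ^ i ≤ rothNumberNat (2 ^ i) * EE (2 ^ c) := by
    intro i hi
    have h1 := roth_ge (m := 2 ^ i) (n := 2 ^ c) (Nat.one_le_two_pow)
      (Nat.pow_le_pow_right (by norm_num) hi)
    rw [div_le_iff₀ hE0] at h1
    push_cast at h1
    exact h1
  rcases le_or_gt (a + b) c with hcase | hcase
  · -- dense graphs
    obtain ⟨K, E, i1, i2, i3, i4, Fr, h1, h2, h3, h4, h5, h6⟩ :=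
      hB (2 ^ a) (2 ^ (2 * a + b - c)) (2 ^ (c - (a + b))) (2 ^ b) (by positivity) (by positivity)
        (by positivity) (by positivity)
    have e1 : 2 ^ (2 * a + b - c) * 2 ^ (c - (a + b)) = 2 ^ a := by
      rw [← pow_add]
      congr 1
      omega
    have e2 : 2 ^ a * 2 ^ a * 2 ^ b = 2 ^ (2 * a + b) := by
      rw [← pow_add, ← pow_add]
      congr 1
      omega
    have e3 : 2 ^ a * 2 ^ (c - (a + b)) * 2 ^ b = 2 ^ c := by
      rw [← pow_add, ← pow_add]
      congr 1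
      omega
    have g1 := hroth a (by omega)
    have g2 := hroth (c - (a + b)) (by omega)
    have g3 := hroth b (by omega)
    refine ⟨K, E, i1, i2, i3, i4, Fr, ?_, ?_, ?_, h4, h5, ?_, ?_⟩
    · rw [e1, e2] at h1
      exact h1
    · rw [e1, e2, e3] at h2
      exact h2
    · rw [h3]
      have f1 : rothNumberNat (2 ^ a) ≤ 2 ^ a := rothNumberNat_le _
      have f2 : rothNumberNat (2 ^ b) ≤ 2 ^ b := rothNumberNat_le _
      exact Nat.mul_le_mul ((min_le_right _ _).trans f1) f2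
    · have f1 : (2 : ℝ) ^ a ≤ (min (2 ^ (2 * a + b - c) * rothNumberNat (2 ^ (c - (a + b))))
          (rothNumberNat (2 ^ a)) : ℕ) * EE (2 ^ c) := by
        rcases min_choice (2 ^ (2 * a + b - c) * rothNumberNat (2 ^ (c - (a + b))))
          (rothNumberNat (2 ^ a)) with hm | hm
        · rw [hm]
          have e4 : (2 : ℝ) ^ a = 2 ^ (2 * a + b - c) * 2 ^ (c - (a + b)) := by
            rw [← pow_add]
            congr 1
            omega
          rw [e4]
          push_cast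
          rw [mul_assoc]
          exact mul_le_mul_of_nonneg_left g2 (by positivity)
        · rw [hm]
          exact g1
      have f2 := mul_le_mul f1 g3 (by positivity) (by positivity)
      rw [h3]
      push_cast at f2 ⊢
      refine f2.trans (le_of_eq ?_)
      ring
    · have f1 := mul_le_mul (mul_le_mul g1 g2 (by positivity) (by positivity)) g3 (by positivity)
        (by positivity)
      have e5 : (2 : ℝ) ^ a * 2 ^ (c - (a + b)) * 2 ^ b = 2 ^ c := by
        rw [← pow_add, ← pow_add]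
        congr 1
        omega
      have e6 : (2 : ℝ) ^ (2 * a + b - c) * 2 ^ (c - (a + b)) = 2 ^ a := by
        rw [← pow_add]
        congr 1
        omega
      rw [e5] at f1
      have f2 := mul_le_mul_of_nonneg_left f1 (by positivity : (0 : ℝ) ≤ 2 ^ a * 2 ^ b)
      refine f2.trans (le_of_eq ?_)
      rw [h6]
      push_cast
      rw [← e6]
      ring
  · -- sparse graphs
    set i := min c a with hi
    have hia : i ≤ a := min_le_right _ _
    have hic : i ≤ c := min_le_left _ _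
    have hib : c - i ≤ b := by omega
    obtain ⟨K, E, i1, i2, i3, i4, Fr, h1, h2, h3, h4, h5, h6⟩ :=
      hA (2 ^ (a - i)) (2 ^ i) (2 ^ a) (2 ^ (b - (c - i))) (2 ^ (c - i)) (by positivity)
        (by positivity) (by positivity) (by positivity) (by positivity)
    have e1 : 2 ^ (a - i) * 2 ^ i = 2 ^ a := by
      rw [← pow_add]
      congr 1
      omega
    have e1' : 2 ^ (b - (c - i)) * 2 ^ (c - i) = 2 ^ b := by
      rw [← pow_add]
      congr 1
      omega
    have e2 : 2 ^ a * 2 ^ a * 2 ^ b = 2 ^ (2 * a + b) := by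
      rw [← pow_add, ← pow_add]
      congr 1
      omega
    have e3 : 2 ^ i * 2 ^ (c - i) = 2 ^ c := by
      rw [← pow_add]
      congr 1
      omega
    have g1 := hroth i (by omega)
    have g3 := hroth (c - i) (by omega)
    have f0 : (2 : ℝ) ^ b ≤ (2 ^ (b - (c - i)) * rothNumberNat (2 ^ (c - i)) : ℕ) *
        EE (2 ^ c) := by
      have e4 : (2 : ℝ) ^ b = 2 ^ (b - (c - i)) * 2 ^ (c - i) := by
        rw [← pow_add]
        congr 1
        omega
      rw [e4]
      push_cast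
      rw [mul_assoc]
      exact mul_le_mul_of_nonneg_left g3 (by positivity)
    refine ⟨K, E, i1, i2, i3, i4, Fr, ?_, ?_, ?_, ?_, h5.trans e1, ?_, ?_⟩
    · rw [e1, e1', e2] at h1
      exact h1
    · rw [e1, e1', e2, e3] at h2
      exact h2
    · rw [h3]
      have f2 : 2 ^ (b - (c - i)) * rothNumberNat (2 ^ (c - i)) ≤ 2 ^ b := by
        rw [← e1']
        exact Nat.mul_le_mul_left _ (rothNumberNat_le _)
      exact Nat.mul_le_mul (min_le_left _ _) f2
    · rw [h4, e1']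
    · have f1 : (2 : ℝ) ^ a ≤ (min (2 ^ a) (2 ^ (a - i) * rothNumberNat (2 ^ i)) : ℕ) *
          EE (2 ^ c) := by
        rcases min_choice (2 ^ a) (2 ^ (a - i) * rothNumberNat (2 ^ i)) with hm | hm
        · rw [hm]
          push_cast
          exact le_mul_of_one_le_right (by positivity) hE1
        · rw [hm]
          have e4 : (2 : ℝ) ^ a = 2 ^ (a - i) * 2 ^ i := by
            rw [← pow_add]
            congr 1
            omega
          rw [e4]
          push_cast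
          rw [mul_assoc]
          exact mul_le_mul_of_nonneg_left g1 (by positivity)
      have f2 := mul_le_mul f1 f0 (by positivity) (by positivity)
      rw [h3]
      push_cast at f2 ⊢
      refine f2.trans (le_of_eq ?_)
      ring
    · have f1 := mul_le_mul g1 g3 (by positivity) (by positivity)
      have e5 : (2 : ℝ) ^ i * 2 ^ (c - i) = 2 ^ c := by
        rw [← pow_add]
        congr 1
        omega
      have e6 : (2 : ℝ) ^ (b - (c - i)) * 2 ^ (c - i) = 2 ^ b := by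
        rw [← pow_add]
        congr 1
        omega
      rw [e5] at f1
      have f2 := mul_le_mul_of_nonneg_left f1 (by positivity : (0 : ℝ) ≤ 2 ^ a * 2 ^ b)
      have f3 : (2 : ℝ) ^ a * 2 ^ b * 2 ^ c ≤ Fintype.card E * EE (2 ^ c) ^ 2 := by
        refine f2.trans (le_of_eq ?_)
        rw [h6]
        push_cast
        rw [← e6]
        ring
      exact div_pow_le (by positivity) hE1 (by norm_num) f3 (by positivity)

/-- the hard graphs for given parameters -/
theorem inst_exists (hB : S_BETA) (hA : S_ALPHA) (hD : S_GAD2) (n m a b c : ℕ)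
    (hc : c ≤ 2 * a + b) (hn : 84 * 2 ^ (2 * a + b) ≤ n)
    (hm : 36 * 2 ^ (2 * a + b) * 2 ^ c ≤ m) :
    ∃ (v : ℕ) (d : Fin v → ℕ) (K E : Type) (_ : Fintype K) (_ : DecidableEq K) (_ : Fintype E)
      (_ : DecidableEq E) (L : Lay (∑ i, d i) (Option (Fin v)) K E (Option (ℕ × ℕ))),
      v + (∑ i, d i) / 2 = n + m ∧ ∑ i, d i ≤ 2 * m ∧
      (∃ G H : SimpleGraph (Fin v), HasDegrees G d ∧ HasDegrees H d ∧ ¬ G.CliqueFree 3 ∧
        H.CliqueFree 3) ∧
      L.len ≤ 2 ^ a * 2 ^ b ∧ L.b0 = 3 * 2 ^ b ∧ Fintype.card K = 2 ^ a ∧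
      (2 : ℝ) ^ a * 2 ^ b ≤ L.len * EE (2 ^ c) ^ 2 ∧
      (2 : ℝ) ^ a * 2 ^ b * 2 ^ c ≤ Fintype.card E * EE (2 ^ c) ^ 3 ∧
      ∀ (f : ℕ → ℝ), SeekCost f → ∀ (k : ℕ) (T : ℝ) (Q Ω : Type) [Fintype Q] [MeasurableSpace Ω]
        (μ : Measure Ω) [IsProbabilityMeasure μ] (M : LMachine d k Q Ω),
        DetectsTriangles M μ → ExpectedCostLE M μ f T → Good M μ L T (T / f L.len) := by
  obtain ⟨K, E, i1, i2, i3, i4, Fr, g1, g2, g3, g4, g5, g6, g7⟩ :=
    frame_exists hB hA a b c hc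
  obtain ⟨D0, hD0, hall⟩ := hD K E Fr
  have hD0m : D0 ≤ 2 * m := by
    refine hD0.trans (g2.trans ?_)
    calc 72 * 2 ^ (2 * a + b) * 2 ^ c = 2 * (36 * 2 ^ (2 * a + b) * 2 ^ c) := by ring
      _ ≤ 2 * m := Nat.mul_le_mul_left _ hm
  obtain ⟨d, L, Gr, h1, h2, h3, h4, h5, h6⟩ := hall (n + m - D0 / 2) (by omega)
  refine ⟨n + m - D0 / 2, d, K, E, i1, i2, i3, i4, L, ?_, ?_, ?_, ?_, ?_, g5, ?_, g7, ?_⟩
  · rw [h3]
    omega
  · rw [h3]
    exact hD0m
  · have hK : 0 < Fintype.card K := by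
      rw [g5]
      positivity
    have hE : 0 < Fintype.card E := by
      by_contra hcon
      have h7 : Fintype.card E = 0 := by omega
      rw [h7, Nat.cast_zero, zero_mul] at g7
      have h8 : (0 : ℝ) < 2 ^ a * 2 ^ b * 2 ^ c := by positivity
      linarith
    obtain ⟨κ⟩ := Fintype.card_pos_iff.1 hK
    obtain ⟨e⟩ := Fintype.card_pos_iff.1 hE
    refine ⟨Gr fun _ => (fun _ => true, fun _ => true), Gr fun _ => (fun _ => false, fun _ => false),
      h4 _, h4 _, ?_, (h6 _).2 fun _ _ _ => rfl⟩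
    intro hfree
    exact Bool.noConfusion ((h6 _).1 hfree κ e rfl)
  · rw [h1]
    exact g3
  · rw [h2]
    exact g4
  · rw [h1]
    exact g6
  · intro f hf k T Q Ω _ _ μ _ M hd hT
    have hcb := fun F m => cost_bounds M μ (L.cont F) (fun t c => by
      rw [h5 F]
      exact hd.1 (Gr F) (h4 F) t c) f hf T m (by
      rw [h5 F]
      exact hT (Gr F) (h4 F) m) L.len L.hlen
    refine ⟨?_, ?_, ?_, fun F m => (hcb F m).1, fun F m => (hcb F m).2⟩
    · intro F t c
      rw [h5 F]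
      exact hd.1 (Gr F) (h4 F) t c
    · intro F hF
      rw [h5 F]
      exact (hd.2 (Gr F) (h4 F)).trans (set_false M μ (Gr F) ((h6 F).2 hF))
    · intro F hF
      rw [h5 F]
      refine (hd.2 (Gr F) (h4 F)).trans (set_true M μ (Gr F) ?_)
      intro hfree
      obtain ⟨κ, e, hx, hy⟩ := hF
      have := (h6 F).1 hfree κ e hx
      rw [hy] at this
      exact absurd this (by decide)

lemma card_St {Lt k : ℕ} {W K E C Q : Type} [Fintype Q] (L : Lay Lt W K E C) (H : ℕ) :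
    Fintype.card (L.St H k Q) = (H + 1) * ((Fintype.card Q * Lt ^ k) *
      ((L.len + 1) * (Lt ^ k * 2 ^ (3 * (L.b0 * k)) + 2))) := by
  have h1 : Fintype.card (L.St H k Q) = Fintype.card (Fin (H + 1)) *
      ((Fintype.card Q * Fintype.card (Fin k → Fin Lt)) * (Fintype.card (Fin (L.len + 1)) *
        Fintype.card (Option (Option (L.Bits k))))) := by
    rw [← Fintype.card_prod, ← Fintype.card_prod, ← Fintype.card_prod, ← Fintype.card_prod]
  have h2 : Fintype.card (L.Bits k) = Lt ^ k * 2 ^ (3 * (L.b0 * k)) := by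
    have h3 : Fintype.card (L.Bits k) = Fintype.card (Fin k → Fin Lt) *
        Fintype.card (Fin k → Fin (3 * L.b0) → Bool) := by
      rw [← Fintype.card_prod]
    rw [h3]
    simp only [Fintype.card_fun, Fintype.card_bool, Fintype.card_fin]
    rw [← pow_mul]
    congr 2
    ring
  rw [h1, Fintype.card_option, Fintype.card_option, h2, Fintype.card_fin, Fintype.card_fin,
    Fintype.card_fun, Fintype.card_fin, Fintype.card_fin]

lemma two_pow_le_exp (a : ℕ) : (2 : ℝ) ^ a ≤ Real.exp a := by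
  have h1 : (2 : ℝ) ≤ Real.exp 1 := by
    have := Real.add_one_le_exp (1 : ℝ)
    linarith
  calc (2 : ℝ) ^ a ≤ Real.exp 1 ^ a := pow_le_pow_left₀ (by norm_num) h1 a
    _ = Real.exp a := by
      rw [← Real.exp_nat_mul, mul_one]

lemma card_St_exp {s Lt k : ℕ} {W K E C Q : Type} [Fintype Q] (L : Lay Lt W K E C) (H S : ℕ)
    (hs : 3 ≤ s) (hk : 1 ≤ k) (hQ : Fintype.card Q ≤ 2 ^ S) (hH : H + 1 ≤ s ^ 3)
    (hlen : L.len + 1 ≤ s ^ 3) (hLt : Lt ≤ s ^ 3)
    (hb : (L.b0 : ℝ) * k ≤ 3 * (S + k * Real.log s)) :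
    (Fintype.card (L.St H k Q) : ℝ) ≤ Real.exp (25 * ((S : ℝ) + k * Real.log s)) := by
  have hs0 : (0 : ℝ) < s := by
    have : 0 < s := by omega
    exact_mod_cast this
  set l := Real.log s with hl
  have hsl : (s : ℝ) = Real.exp l := (Real.exp_log hs0).symm
  have hl1 : 1 ≤ l := by
    rw [hl, Real.le_log_iff_exp_le hs0]
    have h1 := Real.exp_one_lt_d9
    have h2 : (3 : ℝ) ≤ s := by exact_mod_cast hs
    linarith
  have hs2 : ((s ^ 3 : ℕ) : ℝ) = Real.exp (3 * l) := by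
    push_cast
    rw [hsl, ← Real.exp_nat_mul]
    norm_num
  have h0 : (Fintype.card (L.St H k Q) : ℝ) = ((H + 1 : ℕ) : ℝ) *
      ((((Fintype.card Q : ℕ) : ℝ) * ((Lt : ℕ) : ℝ) ^ k) *
      ((((L.len + 1 : ℕ) : ℝ)) * (((Lt : ℕ) : ℝ) ^ k * 2 ^ (3 * (L.b0 * k)) + 2))) := by
    rw [card_St]
    push_cast
    ring
  have f1 : ((H + 1 : ℕ) : ℝ) ≤ Real.exp (3 * l) := by
    rw [← hs2]
    exact_mod_cast hH
  have f2 : ((Fintype.card Q : ℕ) : ℝ) ≤ Real.exp S := by
    have h1 : ((Fintype.card Q : ℕ) : ℝ) ≤ (2 : ℝ) ^ S := by exact_mod_cast hQ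
    exact h1.trans (two_pow_le_exp S)
  have f3 : ((Lt : ℕ) : ℝ) ^ k ≤ Real.exp (3 * k * l) := by
    have h1 : ((Lt : ℕ) : ℝ) ≤ Real.exp (3 * l) := by
      rw [← hs2]
      exact_mod_cast hLt
    refine (pow_le_pow_left₀ (Nat.cast_nonneg _) h1 k).trans (le_of_eq ?_)
    rw [← Real.exp_nat_mul]
    congr 1
    ring
  have f4 : ((L.len + 1 : ℕ) : ℝ) ≤ Real.exp (3 * l) := by
    rw [← hs2]
    exact_mod_cast hlen
  have f5 : ((Lt : ℕ) : ℝ) ^ k * 2 ^ (3 * (L.b0 * k)) + 2 ≤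
      Real.exp (3 * k * l + 9 * ((S : ℝ) + k * l) + 2) := by
    have h1 : (2 : ℝ) ^ (3 * (L.b0 * k)) ≤ Real.exp (9 * ((S : ℝ) + k * l)) := by
      refine (two_pow_le_exp _).trans ?_
      apply Real.exp_le_exp.2
      push_cast
      linarith
    have h2 : ((Lt : ℕ) : ℝ) ^ k * 2 ^ (3 * (L.b0 * k)) ≤
        Real.exp (3 * k * l + 9 * ((S : ℝ) + k * l)) := by
      rw [Real.exp_add]
      exact mul_le_mul f3 h1 (by positivity) (Real.exp_pos _).le
    have h3 : (1 : ℝ) ≤ Real.exp (3 * k * l + 9 * ((S : ℝ) + k * l)) := by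
      rw [← Real.exp_zero]
      apply Real.exp_le_exp.2
      have : 0 ≤ l := by linarith
      positivity
    have h4 : (3 : ℝ) ≤ Real.exp 2 := by
      have := Real.add_one_le_exp (2 : ℝ)
      linarith
    have h5 : Real.exp (3 * k * l + 9 * ((S : ℝ) + k * l) + 2) =
        Real.exp (3 * k * l + 9 * ((S : ℝ) + k * l)) * Real.exp 2 := Real.exp_add _ _
    rw [h5]
    have h6 := mul_le_mul_of_nonneg_left h4
      (Real.exp_pos (3 * k * l + 9 * ((S : ℝ) + k * l))).le
    linarith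
  rw [h0]
  calc ((H + 1 : ℕ) : ℝ) * ((((Fintype.card Q : ℕ) : ℝ) * ((Lt : ℕ) : ℝ) ^ k) *
      ((((L.len + 1 : ℕ) : ℝ)) * (((Lt : ℕ) : ℝ) ^ k * 2 ^ (3 * (L.b0 * k)) + 2)))
      ≤ Real.exp (3 * l) * ((Real.exp S * Real.exp (3 * k * l)) *
        (Real.exp (3 * l) * Real.exp (3 * k * l + 9 * ((S : ℝ) + k * l) + 2))) := by
        gcongr
    _ = Real.exp (3 * l + ((S + 3 * k * l) +
        (3 * l + (3 * k * l + 9 * ((S : ℝ) + k * l) + 2)))) := by
        rw [← Real.exp_add, ← Real.exp_add, ← Real.exp_add, ← Real.exp_add]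
    _ ≤ Real.exp (25 * ((S : ℝ) + k * l)) := by
        apply Real.exp_le_exp.2
        have hk1 : (1 : ℝ) ≤ k := by exact_mod_cast hk
        have hS : (0 : ℝ) ≤ S := Nat.cast_nonneg _
        have a3 : l ≤ k * l := by
          have := mul_le_mul_of_nonneg_right hk1 (by linarith : (0 : ℝ) ≤ l)
          linarith
        have a6 : 3 * (k : ℝ) * l = 3 * (k * l) := by ring
        rw [a6]
        linarith

end Pool.Agent.HDL
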