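import Pool.Agent.HDL.M_GAD1

/-!
# GAD, part 2: the adjacency lists and the layout
-/

set_option linter.unusedSectionVars false

namespace Pool.Agent.HDL

section GAD

variable {K E : Type} (Fr : Frame K E)

open Classical in
/-- the groups in which `u` has a neighbour -/
noncomputable def GAD_gl (u : ℕ) : List ℕ :=
  (List.range Fr.Γ).filter fun γ => decide (GAD_has Fr (u / 3) (u % 3) γ)

lemma GAD_mem_gl {u γ : ℕ} : γ ∈ GAD_gl Fr u ↔ GAD_has Fr (u / 3) (u % 3) γ := by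
  classical
  unfold GAD_gl
  rw [List.mem_filter, List.mem_range, decide_eq_true_iff]
  exact ⟨fun h => h.2, fun h => ⟨(GAD_has_lt Fr h).2.1, h⟩⟩

lemma GAD_gl_lt (u : ℕ) : (GAD_gl Fr u).Pairwise (· < ·) :=
  List.pairwise_lt_range.filter _

lemma GAD_gl_length_le (u : ℕ) : (GAD_gl Fr u).length ≤ Fr.Γ := by
  unfold GAD_gl
  refine (List.length_filter_le _ _).trans ?_
  rw [List.length_range]

lemma GAD_gl_nil {u : ℕ} (h : 3 * Fr.Γ ≤ u) : GAD_gl Fr u = [] := by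
  rw [List.eq_nil_iff_forall_not_mem]
  intro γ hγ
  rw [GAD_mem_gl] at hγ
  have := (GAD_has_lt Fr hγ).1
  omega

/-- the cells of the tape -/
noncomputable def GAD_L0 (n : ℕ) : List (ℕ × ℕ) :=
  (List.range n).flatMap fun u => (GAD_gl Fr u).map fun γ => (u, γ)

lemma GAD_mem_L0 {n : ℕ} {c : ℕ × ℕ} : c ∈ GAD_L0 Fr n ↔
    c.1 < n ∧ GAD_has Fr (c.1 / 3) (c.1 % 3) c.2 := by
  unfold GAD_L0
  rw [List.mem_flatMap]
  constructor
  · rintro ⟨u, hu, hc⟩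
    obtain ⟨γ, hγ, rfl⟩ := List.mem_map.1 hc
    exact ⟨List.mem_range.1 hu, (GAD_mem_gl Fr).1 hγ⟩
  · rintro ⟨h1, h2⟩
    exact ⟨c.1, List.mem_range.2 h1, List.mem_map.2 ⟨c.2, (GAD_mem_gl Fr).2 h2, rfl⟩⟩

/-- the lexicographic order -/
def GAD_lex (c c' : ℕ × ℕ) : Prop := c.1 < c'.1 ∨ (c.1 = c'.1 ∧ c.2 < c'.2)

lemma GAD_L0_lex (n : ℕ) : (GAD_L0 Fr n).Pairwise GAD_lex := by
  unfold GAD_L0
  rw [List.pairwise_flatMap]
  constructor
  · intro u _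
    rw [List.pairwise_map]
    exact (GAD_gl_lt Fr u).imp fun h => Or.inr ⟨rfl, h⟩
  · refine List.pairwise_lt_range.imp fun {a b} h c hc c' hc' => ?_
    obtain ⟨γ, _, rfl⟩ := List.mem_map.1 hc
    obtain ⟨γ', _, rfl⟩ := List.mem_map.1 hc'
    exact Or.inl h

lemma GAD_sum_range (f : ℕ → ℕ) (n : ℕ) :
    ((List.range n).map f).sum = ∑ i ∈ Finset.range n, f i := by
  induction n with
  | zero => rfl
  | succ n ih =>
    rw [List.range_succ, List.map_append, List.sum_append, ih, Finset.sum_range_succ]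
    simp

lemma GAD_L0_length (n : ℕ) :
    (GAD_L0 Fr n).length = ∑ v : Fin n, (GAD_gl Fr (v : ℕ)).length := by
  unfold GAD_L0
  rw [List.length_flatMap, Finset.sum_fin_eq_sum_range, GAD_sum_range]
  refine Finset.sum_congr rfl fun u hu => ?_
  rw [dif_pos (Finset.mem_range.1 hu), List.length_map]

/-- the symbol in a cell -/
noncomputable def GAD_nb (F : Dat K E) (c : ℕ × ℕ) : ℕ :=
  3 * c.2 + GAD_mb Fr F (c.1 / 3) (c.1 % 3) c.2

lemma GAD_sort {n : ℕ} (hn : 3 * Fr.Γ ≤ n) (F : Dat K E) (v : Fin n)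
    [Fintype ((GAD_G Fr n F).neighborSet v)] :
    (((GAD_G Fr n F).neighborFinset v).sort (· ≤ ·)).map Fin.val =
      (GAD_gl Fr (v : ℕ)).map fun γ => GAD_nb Fr F ((v : ℕ), γ) := by
  have h3 : (v : ℕ) % 3 < 3 := Nat.mod_lt _ (by norm_num)
  apply List.Pairwise.eq_of_mem_iff (r := fun a b : ℕ => a < b)
  · rw [List.pairwise_map]
    exact (Finset.sortedLT_sort _).pairwise.imp fun h => h
  · rw [List.pairwise_map]
    refine (GAD_gl_lt Fr (v : ℕ)).imp_of_mem fun {γ γ'} h1 h2 h => ?_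
    have h4 := GAD_mb_lt Fr F ((GAD_mem_gl Fr).1 h1) h3
    show 3 * γ + GAD_mb Fr F ((v : ℕ) / 3) ((v : ℕ) % 3) γ <
      3 * γ' + GAD_mb Fr F ((v : ℕ) / 3) ((v : ℕ) % 3) γ'
    omega
  · intro a
    rw [List.mem_map, List.mem_map]
    constructor
    · rintro ⟨w, hw, rfl⟩
      rw [Finset.mem_sort, SimpleGraph.mem_neighborFinset] at hw
      obtain ⟨h1, h2⟩ := hw
      refine ⟨(w : ℕ) / 3, (GAD_mem_gl Fr).2 h1, ?_⟩
      show 3 * ((w : ℕ) / 3) + GAD_mb Fr F ((v : ℕ) / 3) ((v : ℕ) % 3) ((w : ℕ) / 3) = w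
      rw [h2]
      omega
    · rintro ⟨γ, hγ, rfl⟩
      rw [GAD_mem_gl] at hγ
      have h1 := GAD_mb_lt Fr F hγ h3
      have h2 := GAD_has_lt Fr hγ
      have h4 : GAD_nb Fr F ((v : ℕ), γ) < n := by
        show 3 * γ + GAD_mb Fr F ((v : ℕ) / 3) ((v : ℕ) % 3) γ < n
        omega
      refine ⟨⟨_, h4⟩, ?_, rfl⟩
      rw [Finset.mem_sort, SimpleGraph.mem_neighborFinset]
      have h5 : (3 * γ + GAD_mb Fr F ((v : ℕ) / 3) ((v : ℕ) % 3) γ) / 3 = γ := by omega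
      have h6 : (3 * γ + GAD_mb Fr F ((v : ℕ) / 3) ((v : ℕ) % 3) γ) % 3 =
          GAD_mb Fr F ((v : ℕ) / 3) ((v : ℕ) % 3) γ := by omega
      show GAD_has Fr ((v : ℕ) / 3) ((v : ℕ) % 3)
          ((3 * γ + GAD_mb Fr F ((v : ℕ) / 3) ((v : ℕ) % 3) γ) / 3) ∧
        GAD_mb Fr F ((v : ℕ) / 3) ((v : ℕ) % 3)
          ((3 * γ + GAD_mb Fr F ((v : ℕ) / 3) ((v : ℕ) % 3) γ) / 3) =
          (3 * γ + GAD_mb Fr F ((v : ℕ) / 3) ((v : ℕ) % 3) γ) % 3
      rw [h5, h6]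
      exact ⟨hγ, rfl⟩

lemma GAD_deg {n : ℕ} (hn : 3 * Fr.Γ ≤ n) (F : Dat K E) :
    HasDegrees (GAD_G Fr n F) fun v : Fin n => (GAD_gl Fr (v : ℕ)).length := by
  classical
  intro v
  have h := congrArg List.length (GAD_sort Fr hn F v)
  rw [List.length_map, Finset.length_sort, List.length_map] at h
  show ((GAD_G Fr n F).neighborSet v).ncard = (GAD_gl Fr (v : ℕ)).length
  rw [← h, Set.ncard_eq_toFinset_card']
  rfl

lemma GAD_lists {n : ℕ} (hn : 3 * Fr.Γ ≤ n) (F : Dat K E) :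
    (lists (GAD_G Fr n F)).map Fin.val = (GAD_L0 Fr n).map (GAD_nb Fr F) := by
  have h : List.range n = (List.finRange n).map Fin.val :=
    List.ext_getElem (by simp) (by intros; simp)
  unfold lists GAD_L0
  rw [List.map_flatMap, List.map_flatMap, h, List.flatMap_map]
  congr 1
  funext v
  rw [List.map_map]
  classical
  exact GAD_sort Fr hn F v

lemma GAD_tape {n : ℕ} (hn : 3 * Fr.Γ ≤ n) (F : Dat K E)
    (p : Fin (∑ v : Fin n, (GAD_gl Fr (v : ℕ)).length)) :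
    (tape (fun v : Fin n => (GAD_gl Fr (v : ℕ)).length) (GAD_G Fr n F) p).map Fin.val =
      ((GAD_L0 Fr n)[(p : ℕ)]?).map (GAD_nb Fr F) := by
  unfold tape
  rw [← List.getElem?_map, GAD_lists Fr hn, List.getElem?_map]

/-- vertex and group of a cell -/
noncomputable def GAD_cl {n : ℕ} (p : Fin (∑ v : Fin n, (GAD_gl Fr (v : ℕ)).length)) : ℕ × ℕ :=
  (GAD_L0 Fr n)[(p : ℕ)]'(by rw [GAD_L0_length]; exact p.2)

lemma GAD_cl_get {n : ℕ} (p : Fin (∑ v : Fin n, (GAD_gl Fr (v : ℕ)).length)) :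
    (GAD_L0 Fr n)[(p : ℕ)]? = some (GAD_cl Fr p) :=
  List.getElem?_eq_getElem _

lemma GAD_cl_mem {n : ℕ} (p : Fin (∑ v : Fin n, (GAD_gl Fr (v : ℕ)).length)) :
    (GAD_cl Fr p).1 < n ∧ GAD_has Fr ((GAD_cl Fr p).1 / 3) ((GAD_cl Fr p).1 % 3) (GAD_cl Fr p).2 :=
  (GAD_mem_L0 Fr).1 (List.getElem_mem _)

lemma GAD_cl_lex {n : ℕ} {p q : Fin (∑ v : Fin n, (GAD_gl Fr (v : ℕ)).length)} (h : p < q) :
    GAD_lex (GAD_cl Fr p) (GAD_cl Fr q) :=
  List.pairwise_iff_getElem.1 (GAD_L0_lex Fr n) p q _ _ h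

lemma GAD_cl_inj {n : ℕ} {p q : Fin (∑ v : Fin n, (GAD_gl Fr (v : ℕ)).length)}
    (h : GAD_cl Fr p = GAD_cl Fr q) : p = q := by
  by_contra hpq
  rcases lt_or_gt_of_ne hpq with h1 | h1
  · have h2 := GAD_cl_lex Fr h1
    rw [h] at h2
    unfold GAD_lex at h2
    omega
  · have h2 := GAD_cl_lex Fr h1
    rw [h] at h2
    unfold GAD_lex at h2
    omega

lemma GAD_cl_surj {n : ℕ} {c : ℕ × ℕ} (h1 : c.1 < n) (h2 : GAD_has Fr (c.1 / 3) (c.1 % 3) c.2) :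
    ∃ p : Fin (∑ v : Fin n, (GAD_gl Fr (v : ℕ)).length), GAD_cl Fr p = c := by
  obtain ⟨i, hi, h⟩ := List.getElem_of_mem ((GAD_mem_L0 Fr).2 ⟨h1, h2⟩)
  have hi' : i < ∑ v : Fin n, (GAD_gl Fr (v : ℕ)).length := by
    rw [← GAD_L0_length]
    exact hi
  exact ⟨⟨i, hi'⟩, h⟩

lemma GAD_big {n : ℕ} (p : Fin (∑ v : Fin n, (GAD_gl Fr (v : ℕ)).length))
    (hp : GAD_ad Fr ((GAD_cl Fr p).1 / 3) (GAD_cl Fr p).2 ≠ none) :
    ∃ S : Finset (ℕ × ℕ), Fr.len ≤ S.card ∧ ∀ c ∈ S,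
      GAD_has Fr (c.1 / 3) (c.1 % 3) c.2 ∧
        Fr.key c.1 c.2 = Fr.key (GAD_cl Fr p).1 (GAD_cl Fr p).2 := by
  obtain ⟨⟨κ, e, s⟩, hx⟩ := Option.ne_none_iff_exists'.1 hp
  rw [GAD_ad_iff] at hx
  have hh := (GAD_cl_mem Fr p).2
  have r := GAD_rng Fr κ e
  have hYZ := Fr.hYZ
  generalize GAD_cl Fr p = c at hx hh ⊢
  obtain ⟨u, γ0⟩ := c
  simp only at hx hh ⊢
  unfold GAD_Key at hx
  simp only at hx
  rcases hx with ⟨rfl, ⟨h1, h2⟩ | ⟨h1, h2⟩⟩ | ⟨rfl, ⟨h1, h2⟩ | ⟨h1, h2⟩⟩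
  · obtain ⟨-, hi⟩ := GAD_has_XY Fr hh (by omega) (by omega) (by omega)
    obtain ⟨S, hS, hS'⟩ := Fr.bigXY κ e u h1.symm hi
    rw [h2] at hS'
    exact ⟨S, hS, hS'⟩
  · have hi : u % 3 ≤ 1 := by
      rcases hh with ⟨h | h, h3⟩ | ⟨h, h3⟩ | ⟨h, h3⟩ | ⟨h | h, h3⟩
      · exact h3
      · exact h3
      · have := Fr.hB _ _ h
        omega
      · exact h3
      · omega
      · omega
    obtain ⟨S, hS, hS'⟩ := Fr.bigYX κ e u h2.symm hi
    rw [h1] at hS'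
    exact ⟨S, hS, hS'⟩
  · obtain ⟨-, hi⟩ := GAD_has_YZ Fr hh (by omega) (by omega) (by omega)
    obtain ⟨S, hS, hS'⟩ := Fr.bigYZ κ e u h1.symm hi
    rw [h2] at hS'
    exact ⟨S, hS, hS'⟩
  · have hi : u % 3 ≤ 1 := by
      rcases hh with ⟨h | h, h3⟩ | ⟨h, h3⟩ | ⟨h, h3⟩ | ⟨h | h, h3⟩
      · exact h3
      · exact h3
      · have := Fr.hB _ _ h
        omega
      · exact h3
      · omega
      · omega
    obtain ⟨S, hS, hS'⟩ := Fr.bigZY κ e u h2.symm hi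
    rw [h1] at hS'
    exact ⟨S, hS, hS'⟩

/-- the layout -/
noncomputable def GAD_Lay {n : ℕ} (hn : 3 * Fr.Γ ≤ n) :
    Lay (∑ v : Fin n, (GAD_gl Fr (v : ℕ)).length) (Option (Fin n)) K E (Option (ℕ × ℕ)) where
  len := Fr.len
  b0 := Fr.b0
  cont F := tape (fun v : Fin n => (GAD_gl Fr (v : ℕ)).length) (GAD_G Fr n F)
  adr p := GAD_ad Fr ((GAD_cl Fr p).1 / 3) (GAD_cl Fr p).2
  sc p := some (Fr.key (GAD_cl Fr p).1 (GAD_cl Fr p).2)
  hlen := Fr.hlen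
  hb0 := Fr.hb0
  congr := by
    intro F F' p h1 h2
    apply Option.map_injective Fin.val_injective
    rw [GAD_tape Fr hn, GAD_tape Fr hn, GAD_cl_get]
    show some (GAD_nb Fr F (GAD_cl Fr p)) = some (GAD_nb Fr F' (GAD_cl Fr p))
    unfold GAD_nb
    rw [GAD_mb_congr Fr (GAD_bt_congr Fr h1 h2)]
  conv := by
    intro p q r hpq hqr h
    rcases hpq.eq_or_lt with rfl | hpq
    · rfl
    rcases hqr.eq_or_lt with rfl | hqr
    · exact h.symm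
    have h1 := GAD_cl_lex Fr hpq
    have h2 := GAD_cl_lex Fr hqr
    have h3 := Option.some.inj h
    unfold GAD_lex at h1 h2
    rw [Fr.conv (GAD_cl Fr p).1 (GAD_cl Fr p).2 (GAD_cl Fr q).1 (GAD_cl Fr q).2
      (GAD_cl Fr r).1 (GAD_cl Fr r).2 (by omega) (by omega) h3]
  big := by
    intro p hp
    obtain ⟨S, hS, hS'⟩ := GAD_big Fr p hp
    classical
    refine ⟨Finset.univ.filter fun q => GAD_cl Fr q ∈ S, hS.trans ?_, ?_⟩
    · apply Finset.card_le_card_of_surjOn fun q => GAD_cl Fr q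
      intro c hc
      have h1 := (hS' c hc).1
      have h2 := (GAD_has_lt Fr h1).1
      obtain ⟨q, hq⟩ := GAD_cl_surj Fr (n := n) (c := c) (by omega) h1
      refine ⟨q, ?_, hq⟩
      rw [Finset.mem_coe, Finset.mem_filter, hq]
      exact ⟨Finset.mem_univ _, hc⟩
    · intro q hq
      obtain ⟨-, h1⟩ := Finset.mem_filter.1 hq
      rw [(hS' _ h1).2]
  one := by
    intro p q κ κ' e e' hp hq h
    rw [GAD_ad_iff] at hp hq
    have h3 := Option.some.inj h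
    unfold GAD_Key at hp hq
    simp only [true_and, Bool.true_eq_false, false_and, or_false] at hp hq
    refine Fr.one (GAD_cl Fr p).1 (GAD_cl Fr p).2 (GAD_cl Fr q).1 (GAD_cl Fr q).2 κ e κ' e' ?_ ?_ h3
    · rcases hp with ⟨a1, a2⟩ | ⟨a1, a2⟩
      · exact Or.inl ⟨a1.symm, a2.symm⟩
      · exact Or.inr ⟨a2.symm, a1.symm⟩
    · rcases hq with ⟨a1, a2⟩ | ⟨a1, a2⟩
      · exact Or.inl ⟨a1.symm, a2.symm⟩
      · exact Or.inr ⟨a2.symm, a1.symm⟩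
  few := by
    intro c κ s hs
    rcases s.eq_empty_or_nonempty with rfl | ⟨p0, hp0⟩
    · simp
    classical
    have h1 : (s.image fun p => GAD_cl Fr p).card = s.card := by
      apply Finset.card_image_of_injOn
      intro p hp q hq hpq
      exact GAD_cl_inj Fr hpq
    rw [← h1]
    apply Fr.few (Fr.key (GAD_cl Fr p0).1 (GAD_cl Fr p0).2) κ
    intro x hx
    obtain ⟨p, hp, rfl⟩ := Finset.mem_image.1 hx
    obtain ⟨h2, e, h3⟩ := hs p hp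
    refine ⟨Option.some.inj (h2.trans (hs p0 hp0).1.symm), e, ?_⟩
    rw [GAD_ad_iff] at h3
    unfold GAD_Key at h3
    simp only [Bool.false_eq_true, false_and, false_or, true_and] at h3
    rcases h3 with ⟨a1, a2⟩ | ⟨a1, a2⟩
    · exact Or.inl ⟨a1.symm, a2.symm⟩
    · exact Or.inr ⟨a2.symm, a1.symm⟩

lemma GAD_nodup (n : ℕ) : (GAD_L0 Fr n).Nodup := by
  refine (GAD_L0_lex Fr n).imp fun {c c'} h => ?_
  rintro rfl
  unfold GAD_lex at h
  omega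

lemma GAD_sum_le (n : ℕ) : ∑ v : Fin n, (GAD_gl Fr (v : ℕ)).length ≤ Fr.Bd := by
  classical
  rw [← GAD_L0_length, ← List.toFinset_card_of_nodup (GAD_nodup Fr n)]
  apply Fr.cells
  intro c hc
  exact ((GAD_mem_L0 Fr).1 (List.mem_toFinset.1 hc)).2

end GAD

theorem m_GAD : S_GAD := by
  intro K E Fr n hn
  exact ⟨fun v => (GAD_gl Fr (v : ℕ)).length, GAD_Lay Fr hn, GAD_G Fr n, rfl, rfl,
    GAD_sum_le Fr n, fun F => GAD_deg Fr hn F, fun F => rfl, fun F => GAD_tri Fr hn F⟩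

end Pool.Agent.HDL
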