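import Mathlib
import Pool.Agent.HDL.St

/-!
# GAD, part 1: bits of pairs of groups, the graph and its triangles
-/

set_option linter.unusedSectionVars false

namespace Pool.Agent.HDL

section GAD

variable {K E : Type} (Fr : Frame K E)

lemma GAD_rng (κ : K) (e : E) : Fr.tx κ e < Fr.OY ∧ Fr.OY ≤ Fr.ty κ e ∧ Fr.ty κ e < Fr.OZ ∧
    Fr.OZ ≤ Fr.tz κ e ∧ Fr.tz κ e < Fr.Γ := by
  have h1 := Fr.hA _ _ (Fr.pA κ e)
  have h2 := Fr.hB _ _ (Fr.pB κ e)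
  exact ⟨h1.1, h1.2.1, h1.2.2, h2.2.2.1, h2.2.2.2⟩

/-- the bit `x` belongs to the pair of the groups `a`, `b` -/
def GAD_Key (a b : ℕ) (x : K × E × Bool) : Prop :=
  (x.2.2 = true ∧ ((Fr.tx x.1 x.2.1 = a ∧ Fr.ty x.1 x.2.1 = b) ∨
    (Fr.tx x.1 x.2.1 = b ∧ Fr.ty x.1 x.2.1 = a))) ∨
  (x.2.2 = false ∧ ((Fr.ty x.1 x.2.1 = a ∧ Fr.tz x.1 x.2.1 = b) ∨
    (Fr.ty x.1 x.2.1 = b ∧ Fr.tz x.1 x.2.1 = a)))

lemma GAD_Key_symm {a b : ℕ} {x : K × E × Bool} (h : GAD_Key Fr a b x) : GAD_Key Fr b a x := by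
  unfold GAD_Key at h ⊢
  tauto

lemma GAD_Key_unique {a b : ℕ} {x y : K × E × Bool} (hx : GAD_Key Fr a b x)
    (hy : GAD_Key Fr a b y) : x = y := by
  obtain ⟨κ, e, s⟩ := x
  obtain ⟨κ', e', s'⟩ := y
  have r1 := GAD_rng Fr κ e
  have r2 := GAD_rng Fr κ' e'
  unfold GAD_Key at hx hy
  simp only at hx hy
  have iA : Fr.tx κ e = Fr.tx κ' e' → Fr.ty κ e = Fr.ty κ' e' →
      ((κ, e, true) : K × E × Bool) = (κ', e', true) := by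
    intro h1 h2
    obtain ⟨rfl, rfl⟩ := Fr.injA κ e κ' e' h1 h2
    rfl
  have iB : Fr.ty κ e = Fr.ty κ' e' → Fr.tz κ e = Fr.tz κ' e' →
      ((κ, e, false) : K × E × Bool) = (κ', e', false) := by
    intro h1 h2
    obtain ⟨rfl, rfl⟩ := Fr.injB κ e κ' e' h1 h2
    rfl
  rcases hx with ⟨rfl, ⟨h1, h2⟩ | ⟨h1, h2⟩⟩ | ⟨rfl, ⟨h1, h2⟩ | ⟨h1, h2⟩⟩ <;>
    rcases hy with ⟨rfl, ⟨h3, h4⟩ | ⟨h3, h4⟩⟩ | ⟨rfl, ⟨h3, h4⟩ | ⟨h3, h4⟩⟩ <;>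
    first
    | (exfalso; omega)
    | exact iA (h1.trans h3.symm) (h2.trans h4.symm)
    | exact iB (h1.trans h3.symm) (h2.trans h4.symm)

open Classical in
/-- the bit that belongs to a pair of groups -/
noncomputable def GAD_ad (a b : ℕ) : Option (K × E × Bool) :=
  if h : ∃ x, GAD_Key Fr a b x then some h.choose else none

lemma GAD_ad_iff {a b : ℕ} {x : K × E × Bool} : GAD_ad Fr a b = some x ↔ GAD_Key Fr a b x := by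
  unfold GAD_ad
  constructor
  · intro h
    split_ifs at h with h1
    rw [← Option.some.inj h]
    exact h1.choose_spec
  · intro h
    have h1 : ∃ x, GAD_Key Fr a b x := ⟨x, h⟩
    rw [dif_pos h1, GAD_Key_unique Fr h1.choose_spec h]

lemma GAD_ad_symm (a b : ℕ) : GAD_ad Fr a b = GAD_ad Fr b a := by
  apply Option.ext
  intro x
  rw [GAD_ad_iff, GAD_ad_iff]
  exact ⟨GAD_Key_symm Fr, GAD_Key_symm Fr⟩

/-- the value of the bit of a pair of groups -/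
noncomputable def GAD_bt (F : Dat K E) (a b : ℕ) : Bool :=
  ((GAD_ad Fr a b).map fun x => if x.2.2 = true then (F x.1).2 x.2.1 else (F x.1).1 x.2.1).getD true

lemma GAD_bt_symm (F : Dat K E) (a b : ℕ) : GAD_bt Fr F a b = GAD_bt Fr F b a := by
  unfold GAD_bt
  rw [GAD_ad_symm]

lemma GAD_bt_A (F : Dat K E) (κ : K) (e : E) :
    GAD_bt Fr F (Fr.tx κ e) (Fr.ty κ e) = (F κ).2 e := by
  have h : GAD_ad Fr (Fr.tx κ e) (Fr.ty κ e) = some (κ, e, true) :=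
    (GAD_ad_iff Fr).2 (Or.inl ⟨rfl, Or.inl ⟨rfl, rfl⟩⟩)
  unfold GAD_bt
  rw [h]
  rfl

lemma GAD_bt_B (F : Dat K E) (κ : K) (e : E) :
    GAD_bt Fr F (Fr.ty κ e) (Fr.tz κ e) = (F κ).1 e := by
  have h : GAD_ad Fr (Fr.ty κ e) (Fr.tz κ e) = some (κ, e, false) :=
    (GAD_ad_iff Fr).2 (Or.inr ⟨rfl, Or.inl ⟨rfl, rfl⟩⟩)
  unfold GAD_bt
  rw [h]
  rfl

lemma GAD_bt_congr {F F' : Dat K E} {a b : ℕ}
    (h1 : ∀ κ e, GAD_ad Fr a b = some (κ, e, false) → (F κ).1 e = (F' κ).1 e)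
    (h2 : ∀ κ e, GAD_ad Fr a b = some (κ, e, true) → (F κ).2 e = (F' κ).2 e) :
    GAD_bt Fr F a b = GAD_bt Fr F' a b := by
  unfold GAD_bt
  rcases h : GAD_ad Fr a b with _ | ⟨κ, e, s⟩
  · rfl
  · cases s
    · show (F κ).1 e = (F' κ).1 e
      exact h1 κ e h
    · show (F κ).2 e = (F' κ).2 e
      exact h2 κ e h

/-- the member `i` of the group `a` has a neighbour in the group `b` -/
def GAD_has (a i b : ℕ) : Prop :=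
  ((Fr.kA a b ∨ Fr.kA b a) ∧ i ≤ 1) ∨ (Fr.kB a b ∧ i ≠ 1) ∨ (Fr.kB b a ∧ i ≤ 1) ∨
    ((Fr.kC a b ∨ Fr.kC b a) ∧ i = 0)

open Classical in
/-- the neighbour of the member `i` of the group `a` in the group `b` -/
noncomputable def GAD_mb (F : Dat K E) (a i b : ℕ) : ℕ :=
  if Fr.kA a b ∨ Fr.kA b a then (if GAD_bt Fr F a b = true then i else 1 - i)
  else if Fr.kB a b then (if GAD_bt Fr F a b = true then i / 2 else 1 - i / 2)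
  else if Fr.kB b a then (if GAD_bt Fr F a b = true then 2 * i else 2 * (1 - i))
  else 0

lemma GAD_mb_congr {F F' : Dat K E} {a b : ℕ} (h : GAD_bt Fr F a b = GAD_bt Fr F' a b) (i : ℕ) :
    GAD_mb Fr F a i b = GAD_mb Fr F' a i b := by
  unfold GAD_mb
  rw [h]

lemma GAD_mbA (F : Dat K E) {a b : ℕ} (i : ℕ) (h : Fr.kA a b ∨ Fr.kA b a) :
    GAD_mb Fr F a i b = if GAD_bt Fr F a b = true then i else 1 - i := by
  unfold GAD_mb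
  rw [if_pos h]

lemma GAD_mbB (F : Dat K E) {a b : ℕ} (i : ℕ) (h : Fr.kB a b) :
    GAD_mb Fr F a i b = if GAD_bt Fr F a b = true then i / 2 else 1 - i / 2 := by
  have h1 : ¬ (Fr.kA a b ∨ Fr.kA b a) := by
    have h2 := Fr.hB _ _ h
    rintro (h3 | h3)
    · have h4 := Fr.hA _ _ h3
      omega
    · have h4 := Fr.hA _ _ h3
      omega
  unfold GAD_mb
  rw [if_neg h1, if_pos h]

lemma GAD_mbB' (F : Dat K E) {a b : ℕ} (i : ℕ) (h : Fr.kB b a) :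
    GAD_mb Fr F a i b = if GAD_bt Fr F a b = true then 2 * i else 2 * (1 - i) := by
  have h2 := Fr.hB _ _ h
  have h1 : ¬ (Fr.kA a b ∨ Fr.kA b a) := by
    rintro (h3 | h3)
    · have h4 := Fr.hA _ _ h3
      omega
    · have h4 := Fr.hA _ _ h3
      omega
  have h5 : ¬ Fr.kB a b := by
    intro h3
    have h4 := Fr.hB _ _ h3
    omega
  unfold GAD_mb
  rw [if_neg h1, if_neg h5, if_pos h]

lemma GAD_mbC (F : Dat K E) {a b : ℕ} (i : ℕ) (h : Fr.kC a b ∨ Fr.kC b a) :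
    GAD_mb Fr F a i b = 0 := by
  have h0 : (a < Fr.OY ∧ Fr.OZ ≤ b) ∨ (b < Fr.OY ∧ Fr.OZ ≤ a) := by
    rcases h with h | h
    · have h4 := Fr.hC _ _ h
      omega
    · have h4 := Fr.hC _ _ h
      omega
  have h00 := Fr.hYZ
  have h1 : ¬ (Fr.kA a b ∨ Fr.kA b a) := by
    rintro (h3 | h3)
    · have h4 := Fr.hA _ _ h3
      omega
    · have h4 := Fr.hA _ _ h3
      omega
  have h5 : ¬ Fr.kB a b := by
    intro h3
    have h4 := Fr.hB _ _ h3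
    omega
  have h6 : ¬ Fr.kB b a := by
    intro h3
    have h4 := Fr.hB _ _ h3
    omega
  unfold GAD_mb
  rw [if_neg h1, if_neg h5, if_neg h6]

lemma GAD_mb_lt (F : Dat K E) {a i b : ℕ} (h : GAD_has Fr a i b) (hi : i < 3) :
    GAD_mb Fr F a i b < 3 := by
  rcases h with ⟨h, h1⟩ | ⟨h, h1⟩ | ⟨h, h1⟩ | ⟨h, h1⟩
  · rw [GAD_mbA Fr F i h]
    split_ifs <;> omega
  · rw [GAD_mbB Fr F i h]
    split_ifs <;> omega
  · rw [GAD_mbB' Fr F i h]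
    split_ifs <;> omega
  · rw [GAD_mbC Fr F i h]
    omega

lemma GAD_sym (F : Dat K E) {a i b : ℕ} (h : GAD_has Fr a i b) (hi : i < 3) :
    GAD_has Fr b (GAD_mb Fr F a i b) a ∧ GAD_mb Fr F b (GAD_mb Fr F a i b) a = i := by
  rcases h with ⟨h, h1⟩ | ⟨h, h1⟩ | ⟨h, h1⟩ | ⟨h, h1⟩
  · rw [GAD_mbA Fr F _ h, GAD_mbA Fr F _ h.symm, GAD_bt_symm Fr F b a]
    constructor
    · refine Or.inl ⟨h.symm, ?_⟩
      split_ifs <;> omega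
    · split_ifs <;> omega
  · rw [GAD_mbB Fr F _ h, GAD_mbB' Fr F _ h, GAD_bt_symm Fr F b a]
    constructor
    · refine Or.inr (Or.inr (Or.inl ⟨h, ?_⟩))
      split_ifs <;> omega
    · split_ifs <;> omega
  · rw [GAD_mbB' Fr F _ h, GAD_mbB Fr F _ h, GAD_bt_symm Fr F b a]
    constructor
    · refine Or.inr (Or.inl ⟨h, ?_⟩)
      split_ifs <;> omega
    · split_ifs <;> omega
  · rw [GAD_mbC Fr F _ h, GAD_mbC Fr F _ h.symm]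
    exact ⟨Or.inr (Or.inr (Or.inr ⟨h.symm, rfl⟩)), h1.symm⟩

lemma GAD_has_lt {a i b : ℕ} (h : GAD_has Fr a i b) : a < Fr.Γ ∧ b < Fr.Γ ∧ a ≠ b := by
  have h0 := Fr.hYZ
  have h00 := Fr.hZ
  rcases h with ⟨h | h, _⟩ | ⟨h, _⟩ | ⟨h, _⟩ | ⟨h | h, _⟩
  · have := Fr.hA _ _ h
    omega
  · have := Fr.hA _ _ h
    omega
  · have := Fr.hB _ _ h
    omega
  · have := Fr.hB _ _ h
    omega
  · have := Fr.hC _ _ h
    omega
  · have := Fr.hC _ _ h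
    omega

/-- the graph with the data `F` -/
def GAD_G (n : ℕ) (F : Dat K E) : SimpleGraph (Fin n) where
  Adj u v := GAD_has Fr ((u : ℕ) / 3) ((u : ℕ) % 3) ((v : ℕ) / 3) ∧
    GAD_mb Fr F ((u : ℕ) / 3) ((u : ℕ) % 3) ((v : ℕ) / 3) = (v : ℕ) % 3
  symm := by
    refine ⟨?_⟩
    rintro u v ⟨h1, h2⟩
    have h3 := GAD_sym Fr F h1 (Nat.mod_lt _ (by norm_num))
    rw [h2] at h3
    exact h3
  loopless := ⟨fun u h => (GAD_has_lt Fr h.1).2.2 rfl⟩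

lemma GAD_has_XY {a i b : ℕ} (h : GAD_has Fr a i b) (ha : a < Fr.OY) (hb : Fr.OY ≤ b)
    (hb' : b < Fr.OZ) : Fr.kA a b ∧ i ≤ 1 := by
  have h0 := Fr.hYZ
  rcases h with ⟨h | h, h1⟩ | ⟨h, h1⟩ | ⟨h, h1⟩ | ⟨h | h, h1⟩
  · exact ⟨h, h1⟩
  · have := Fr.hA _ _ h
    omega
  · have := Fr.hB _ _ h
    omega
  · have := Fr.hB _ _ h
    omega
  · have := Fr.hC _ _ h
    omega
  · have := Fr.hC _ _ h
    omega

lemma GAD_has_YZ {a i b : ℕ} (h : GAD_has Fr a i b) (ha : Fr.OY ≤ a) (ha' : a < Fr.OZ)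
    (hb : Fr.OZ ≤ b) : Fr.kB a b ∧ i ≠ 1 := by
  have h0 := Fr.hYZ
  rcases h with ⟨h | h, h1⟩ | ⟨h, h1⟩ | ⟨h, h1⟩ | ⟨h | h, h1⟩
  · have := Fr.hA _ _ h
    omega
  · have := Fr.hA _ _ h
    omega
  · exact ⟨h, h1⟩
  · have := Fr.hB _ _ h
    omega
  · have := Fr.hC _ _ h
    omega
  · have := Fr.hC _ _ h
    omega

lemma GAD_has_XZ {a i b : ℕ} (h : GAD_has Fr a i b) (ha : a < Fr.OY) (hb : Fr.OZ ≤ b) :
    Fr.kC a b ∧ i = 0 := by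
  have h0 := Fr.hYZ
  rcases h with ⟨h | h, h1⟩ | ⟨h, h1⟩ | ⟨h, h1⟩ | ⟨h | h, h1⟩
  · have := Fr.hA _ _ h
    omega
  · have := Fr.hA _ _ h
    omega
  · have := Fr.hB _ _ h
    omega
  · have := Fr.hB _ _ h
    omega
  · exact ⟨h, h1⟩
  · have := Fr.hC _ _ h
    omega

lemma GAD_has_side {a i b : ℕ} (h : GAD_has Fr a i b) :
    ¬ (a < Fr.OY ∧ b < Fr.OY) ∧ ¬ ((Fr.OY ≤ a ∧ a < Fr.OZ) ∧ (Fr.OY ≤ b ∧ b < Fr.OZ)) ∧
      ¬ (Fr.OZ ≤ a ∧ Fr.OZ ≤ b) := by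
  have h0 := Fr.hYZ
  rcases h with ⟨h | h, h1⟩ | ⟨h, h1⟩ | ⟨h, h1⟩ | ⟨h | h, h1⟩
  · have := Fr.hA _ _ h
    omega
  · have := Fr.hA _ _ h
    omega
  · have := Fr.hB _ _ h
    omega
  · have := Fr.hB _ _ h
    omega
  · have := Fr.hC _ _ h
    omega
  · have := Fr.hC _ _ h
    omega

lemma GAD_tri_sorted {n : ℕ} {F : Dat K E}
    (hF : ∀ κ e, (F κ).1 e = true → (F κ).2 e = false) {u v w : Fin n}
    (h1 : (GAD_G Fr n F).Adj u v) (h2 : (GAD_G Fr n F).Adj v w) (h3 : (GAD_G Fr n F).Adj u w)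
    (hu : (u : ℕ) / 3 < Fr.OY) (hv : Fr.OY ≤ (v : ℕ) / 3) (hv' : (v : ℕ) / 3 < Fr.OZ)
    (hw : Fr.OZ ≤ (w : ℕ) / 3) : False := by
  obtain ⟨h1, m1⟩ := h1
  obtain ⟨h2, m2⟩ := h2
  obtain ⟨h3, m3⟩ := h3
  obtain ⟨a1, a2⟩ := GAD_has_XY Fr h1 hu hv hv'
  obtain ⟨b1, b2⟩ := GAD_has_YZ Fr h2 hv hv' hw
  obtain ⟨c1, c2⟩ := GAD_has_XZ Fr h3 hu hw
  rw [GAD_mbA Fr F _ (Or.inl a1), c2] at m1
  rw [GAD_mbB Fr F _ b1] at m2
  rw [GAD_mbC Fr F _ (Or.inl c1)] at m3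
  obtain ⟨κ, e, hx, hy, hz⟩ := Fr.tri _ _ _ a1 b1 c1
  have hA : GAD_bt Fr F ((u : ℕ) / 3) ((v : ℕ) / 3) = true := by
    by_contra hc
    rw [if_neg hc] at m1
    omega
  rw [if_pos hA] at m1
  have hB : GAD_bt Fr F ((v : ℕ) / 3) ((w : ℕ) / 3) = true := by
    by_contra hc
    rw [if_neg hc] at m2
    omega
  rw [← hx, ← hy, GAD_bt_A] at hA
  rw [← hy, ← hz, GAD_bt_B] at hB
  have := hF κ e hB
  rw [this] at hA
  exact Bool.false_ne_true hA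

lemma GAD_tri {n : ℕ} (hn : 3 * Fr.Γ ≤ n) (F : Dat K E) :
    (GAD_G Fr n F).CliqueFree 3 ↔ ∀ κ e, (F κ).1 e = true → (F κ).2 e = false := by
  classical
  constructor
  · intro h κ e h1
    by_contra h2
    rw [Bool.not_eq_false] at h2
    have r := GAD_rng Fr κ e
    have hx : 3 * Fr.tx κ e < n := by omega
    have hy : 3 * Fr.ty κ e < n := by omega
    have hz : 3 * Fr.tz κ e < n := by omega
    have hm : ∀ t, 3 * t / 3 = t ∧ 3 * t % 3 = 0 := fun t => by omega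
    apply h {⟨3 * Fr.tx κ e, hx⟩, ⟨3 * Fr.ty κ e, hy⟩, ⟨3 * Fr.tz κ e, hz⟩}
    rw [SimpleGraph.is3Clique_triple_iff]
    refine ⟨?_, ?_, ?_⟩
    · show GAD_has Fr (3 * Fr.tx κ e / 3) (3 * Fr.tx κ e % 3) (3 * Fr.ty κ e / 3) ∧
        GAD_mb Fr F (3 * Fr.tx κ e / 3) (3 * Fr.tx κ e % 3) (3 * Fr.ty κ e / 3) =
          3 * Fr.ty κ e % 3
      rw [(hm _).1, (hm _).1, (hm _).2, (hm _).2]
      refine ⟨Or.inl ⟨Or.inl (Fr.pA κ e), zero_le_one⟩, ?_⟩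
      rw [GAD_mbA Fr F _ (Or.inl (Fr.pA κ e)), GAD_bt_A, if_pos h2]
    · show GAD_has Fr (3 * Fr.tx κ e / 3) (3 * Fr.tx κ e % 3) (3 * Fr.tz κ e / 3) ∧
        GAD_mb Fr F (3 * Fr.tx κ e / 3) (3 * Fr.tx κ e % 3) (3 * Fr.tz κ e / 3) =
          3 * Fr.tz κ e % 3
      rw [(hm _).1, (hm _).1, (hm _).2, (hm _).2]
      refine ⟨Or.inr (Or.inr (Or.inr ⟨Or.inl (Fr.pC κ e), rfl⟩)), ?_⟩
      rw [GAD_mbC Fr F _ (Or.inl (Fr.pC κ e))]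
    · show GAD_has Fr (3 * Fr.ty κ e / 3) (3 * Fr.ty κ e % 3) (3 * Fr.tz κ e / 3) ∧
        GAD_mb Fr F (3 * Fr.ty κ e / 3) (3 * Fr.ty κ e % 3) (3 * Fr.tz κ e / 3) =
          3 * Fr.tz κ e % 3
      rw [(hm _).1, (hm _).1, (hm _).2, (hm _).2]
      refine ⟨Or.inr (Or.inl ⟨Fr.pB κ e, zero_ne_one⟩), ?_⟩
      rw [GAD_mbB Fr F _ (Fr.pB κ e), GAD_bt_B, if_pos h1]
  · intro hF s hs
    rw [SimpleGraph.is3Clique_iff] at hs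
    obtain ⟨u, v, w, huv, huw, hvw, -⟩ := hs
    have s1 := GAD_has_side Fr huv.1
    have s2 := GAD_has_side Fr huw.1
    have s3 := GAD_has_side Fr hvw.1
    have t1 : (u : ℕ) / 3 < Fr.OY ∨ (Fr.OY ≤ (u : ℕ) / 3 ∧ (u : ℕ) / 3 < Fr.OZ) ∨
        Fr.OZ ≤ (u : ℕ) / 3 := by omega
    have t2 : (v : ℕ) / 3 < Fr.OY ∨ (Fr.OY ≤ (v : ℕ) / 3 ∧ (v : ℕ) / 3 < Fr.OZ) ∨
        Fr.OZ ≤ (v : ℕ) / 3 := by omega
    have t3 : (w : ℕ) / 3 < Fr.OY ∨ (Fr.OY ≤ (w : ℕ) / 3 ∧ (w : ℕ) / 3 < Fr.OZ) ∨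
        Fr.OZ ≤ (w : ℕ) / 3 := by omega
    rcases t1 with t1 | t1 | t1 <;> rcases t2 with t2 | t2 | t2 <;>
      rcases t3 with t3 | t3 | t3 <;> first
      | (exact s1.1 ⟨t1, t2⟩)
      | (exact s1.2.1 ⟨t1, t2⟩)
      | (exact s1.2.2 ⟨t1, t2⟩)
      | (exact s2.1 ⟨t1, t3⟩)
      | (exact s2.2.1 ⟨t1, t3⟩)
      | (exact s2.2.2 ⟨t1, t3⟩)
      | (exact s3.1 ⟨t2, t3⟩)
      | (exact s3.2.1 ⟨t2, t3⟩)
      | (exact s3.2.2 ⟨t2, t3⟩)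
      | (exact GAD_tri_sorted Fr hF huv hvw huw t1 t2.1 t2.2 t3)
      | (exact GAD_tri_sorted Fr hF huw hvw.symm huv t1 t3.1 t3.2 t2)
      | (exact GAD_tri_sorted Fr hF huv.symm huw hvw t2 t1.1 t1.2 t3)
      | (exact GAD_tri_sorted Fr hF hvw huw.symm huv.symm t2 t3.1 t3.2 t1)
      | (exact GAD_tri_sorted Fr hF huw.symm huv hvw.symm t3 t1.1 t1.2 t2)
      | (exact GAD_tri_sorted Fr hF hvw.symm huv.symm huw.symm t3 t2.1 t2.2 t1)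

end GAD

end Pool.Agent.HDL
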